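import Pool.Agent.L0h10.RP.Itw
import Pool.Agent.N996.FP.Mc
import Pool.Agent.N996.FP.Wcw

/-!
# Central isometries which fix all Hodge classes
-/

set_option linter.unusedSectionVars false

namespace Pool.Agent.L0h10.RP

open Matrix Pool.Agent.N996.BP Pool.Agent.N996.FP ComplexConjugate ComplexOrder

variable {ι : Type} [Fintype ι] [DecidableEq ι] {H : HData ι}

/-- Matrices commuting with the group commute with the Lie algebra. -/
lemma ho_of_GG {z : Matrix ι ι ℂ} (hz : ∀ g ∈ GG H, z * g = g * z) {w : Matrix ι ι ℂ}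
    (hw : w ∈ ho H) : z * w = w * z := by
  have h1 := comm_span hz
  clear hz
  induction h1 using Submodule.span_induction with
  | mem x hx =>
    obtain ⟨y, hy, rfl⟩ := hx
    exact (hy.comm_ho hw).symm
  | zero => rw [Matrix.zero_mul, Matrix.mul_zero]
  | add a b _ _ ha hb => rw [Matrix.add_mul, Matrix.mul_add, ha, hb]
  | smul c a _ ha => rw [Matrix.smul_mul, Matrix.mul_smul, ha]

/-- Matrices in the centre of the commutant. -/
structure IsZ (H : HData ι) (z : Matrix ι ι ℂ) : Prop where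
  comm : ∀ w ∈ hn H, z * w = w * z
  cen : ∀ y : Matrix ι ι ℂ, (∀ w ∈ hn H, y * w = w * y) → z * y = y * z

lemma isZ_of {z : Matrix ι ι ℂ} (h1 : ∀ g ∈ GG H, z * g = g * z)
    (h2 : ∀ x : Matrix ι ι ℂ, IsHE H x → z * cQ x = cQ x * z) : IsZ H (cji H z) where
  comm w hw := by
    have h3 := ho_of_GG h1 (mem_hn H |>.1 hw)
    have h4 := congrArg (cji H) h3
    rwa [cji_mul, cji_mul, cji_cj] at h4
  cen y hy := by
    have h3 : ∀ w ∈ ho H, cj H y * w = w * cj H y := by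
      intro w hw
      have h4 := hy (cji H w) (by rw [mem_hn, cj_cji]; exact hw)
      have h5 := congrArg (cj H) h4
      rwa [cj_mul, cj_mul, cj_cji] at h5
    have h4 := comm_span fun g hg => comm_GG h3 hg
    have h5 : z * cj H y = cj H y * z := by
      have key : ∀ u ∈ Submodule.span ℂ (cQ '' {x | IsHE H x}), z * u = u * z := by
        intro u hu
        induction hu using Submodule.span_induction with
        | mem x hx =>
          obtain ⟨y, hy, rfl⟩ := hx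
          exact h2 y hy
        | zero => rw [Matrix.zero_mul, Matrix.mul_zero]
        | add a b _ _ ha hb => rw [Matrix.add_mul, Matrix.mul_add, ha, hb]
        | smul c a _ ha => rw [Matrix.smul_mul, Matrix.mul_smul, ha]
      exact key _ h4
    have h6 := congrArg (cji H) h5
    rwa [cji_mul, cji_mul, cji_cj] at h6

lemma IsZ.star {z : Matrix ι ι ℂ} (hz : IsZ H z) : IsZ H zᴴ where
  comm w hw := by
    have h1 := congrArg conjTranspose (hz.comm _ ((isLA_hn H).star w hw))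
    rw [Matrix.conjTranspose_mul, Matrix.conjTranspose_mul,
      Matrix.conjTranspose_conjTranspose] at h1
    exact h1.symm
  cen y hy := by
    have h1 := congrArg conjTranspose (hz.cen yᴴ fun w hw => by
      have h2 := congrArg conjTranspose (hy _ ((isLA_hn H).star w hw))
      rw [Matrix.conjTranspose_mul, Matrix.conjTranspose_mul,
        Matrix.conjTranspose_conjTranspose] at h2
      exact h2.symm)
    rw [Matrix.conjTranspose_mul, Matrix.conjTranspose_mul,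
      Matrix.conjTranspose_conjTranspose] at h1
    exact h1.symm

lemma IsZ.normal {z : Matrix ι ι ℂ} (hz : IsZ H z) : z * zᴴ = zᴴ * z :=
  hz.cen _ hz.star.comm

/-- Elements of the centre of the commutant in the original coordinates. -/
lemma IsZ.comm_GG {z : Matrix ι ι ℂ} (hz : IsZ H z) : ∀ g ∈ GG H, cj H z * g = g * cj H z := by
  intro g hg
  refine RP.comm_GG (fun w hw => ?_) hg
  have h4 := hz.comm (cji H w) (by rw [mem_hn, cj_cji]; exact hw)
  have h5 := congrArg (cj H) h4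
  rwa [cj_mul, cj_mul, cj_cji] at h5

lemma IsZ.comm_HE {z : Matrix ι ι ℂ} (hz : IsZ H z) {x : Matrix ι ι ℂ} (hx : IsHE H x) :
    cj H z * cQ x = cQ x * cj H z := by
  have h4 := hz.cen (cji H (cQ x)) fun w hw => by
    have h5 := hx.comm_ho (mem_hn H |>.1 hw)
    have h6 := congrArg (cji H) h5
    rw [cji_mul, cji_mul, cji_cj] at h6
    exact h6.symm
  have h5 := congrArg (cj H) h4
  rwa [cj_mul, cj_mul, cj_cji] at h5

lemma Mi_mulVec (g : Matrix ι ι ℂ) (v : ι → ℂ) : Mi H *ᵥ (g *ᵥ v) = cj H g *ᵥ (Mi H *ᵥ v) := by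
  rw [Matrix.mulVec_mulVec, Matrix.mulVec_mulVec, cj]
  congr 1
  rw [Matrix.mul_assoc (Mi H * g), Mm_Mi, Matrix.mul_one]

/-- The form in orthonormal coordinates. -/
noncomputable def qf (H : HData ι) (u v : ι → ℂ) : ℂ :=
  (Mi H *ᵥ u) ⬝ᵥ (cQ H.Qr *ᵥ (Mi H *ᵥ v))

lemma Qr_of_Qir {Y Z : Matrix ι ι ℂ} (hY : Y * cQ H.Qir = cQ H.Qir * Z) :
    cQ H.Qr * Y = Z * cQ H.Qr := by
  have hQQ : cQ H.Qr * cQ H.Qir = 1 := by rw [← cQ_mul, H.Qr_Qir, cQ_one]
  have hQQ' : cQ H.Qir * cQ H.Qr = 1 := mul_eq_one_comm.1 hQQ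
  calc cQ H.Qr * Y = cQ H.Qr * (Y * cQ H.Qir) * cQ H.Qr := by
        rw [Matrix.mul_assoc, Matrix.mul_assoc Y, hQQ', Matrix.mul_one]
    _ = (cQ H.Qr * cQ H.Qir) * Z * cQ H.Qr := by rw [hY]; simp only [Matrix.mul_assoc]
    _ = _ := by rw [hQQ, Matrix.one_mul]

lemma qf_adj {y : Matrix ι ι ℂ} (hY : cj H y * cQ H.Qir = cQ H.Qir * (cj H y)ᵀ)
    (u v : ι → ℂ) : qf H (y *ᵥ u) v = qf H u (y *ᵥ v) := by
  rw [qf, qf, Mi_mulVec, Mi_mulVec, Matrix.mulVec_mulVec _ (cQ H.Qr) (cj H y),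
    Qr_of_Qir hY,
    ← Matrix.mulVec_mulVec, Matrix.dotProduct_mulVec _ (cj H y)ᵀ, Matrix.vecMul_transpose]

lemma qf_skew {w : Matrix ι ι ℂ} (hw : w ∈ hn H) (u v : ι → ℂ) :
    qf H (w *ᵥ u) v = -qf H u (w *ᵥ v) := by
  have h1 := ho_skew (mem_hn H |>.1 hw)
  have h2 : cj H w * cQ H.Qir = cQ H.Qir * (-(cj H w)ᵀ) := by
    rw [Matrix.mul_neg, eq_neg_iff_add_eq_zero]
    exact h1
  rw [qf, qf, Mi_mulVec, Mi_mulVec, Matrix.mulVec_mulVec _ (cQ H.Qr) (cj H w),
    Qr_of_Qir h2,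
    ← Matrix.mulVec_mulVec, Matrix.neg_mulVec, dotProduct_neg, neg_neg,
    Matrix.dotProduct_mulVec _ (cj H w)ᵀ, Matrix.vecMul_transpose]

lemma qf_smul_left (c : ℂ) (u v : ι → ℂ) : qf H (c • u) v = c * qf H u v := by
  rw [qf, qf, Matrix.mulVec_smul, smul_dotProduct, smul_eq_mul]

lemma qf_smul_right (c : ℂ) (u v : ι → ℂ) : qf H u (c • v) = c * qf H u v := by
  rw [qf, qf, Matrix.mulVec_smul, Matrix.mulVec_smul, dotProduct_smul, smul_eq_mul]

lemma qf_zero_left (v : ι → ℂ) : qf H 0 v = 0 := by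
  rw [qf, Matrix.mulVec_zero, zero_dotProduct]

lemma qf_add_left (u u' v : ι → ℂ) : qf H (u + u') v = qf H u v + qf H u' v := by
  rw [qf, qf, qf, Matrix.mulVec_add, add_dotProduct]

lemma qf_add_right (u v v' : ι → ℂ) : qf H u (v + v') = qf H u v + qf H u v' := by
  rw [qf, qf, qf, Matrix.mulVec_add, Matrix.mulVec_add, dotProduct_add]

lemma qf_zero_right (v : ι → ℂ) : qf H v 0 = 0 := by
  rw [qf, Matrix.mulVec_zero, Matrix.mulVec_zero, dotProduct_zero]

lemma qf_nondeg {v : ι → ℂ} (h0 : ∀ u, qf H u v = 0) : v = 0 := by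
  have hQQ : cQ H.Qr * cQ H.Qir = 1 := by rw [← cQ_mul, H.Qr_Qir, cQ_one]
  have hQQ' : cQ H.Qir * cQ H.Qr = 1 := mul_eq_one_comm.1 hQQ
  have h1 : cQ H.Qr *ᵥ (Mi H *ᵥ v) = 0 := by
    rw [← dotProduct_self_star_eq_zero]
    have h2 := h0 (Mm H *ᵥ star (cQ H.Qr *ᵥ (Mi H *ᵥ v)))
    rw [qf, Matrix.mulVec_mulVec, Mi_Mm, Matrix.one_mulVec] at h2
    rw [dotProduct_comm]
    exact h2
  have h2 := congrArg (fun w => Mm H *ᵥ (cQ H.Qir *ᵥ w)) h1
  simp only [Matrix.mulVec_mulVec, Matrix.mulVec_zero] at h2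
  rw [← Matrix.mul_assoc (cQ H.Qir), hQQ', Matrix.one_mul, Mm_Mi, Matrix.one_mulVec] at h2
  exact h2

/-- Vectors killed by the generators of the Lie algebra are fixed by the group. -/
lemma fix_of_Ng {d : ι → ℂ} (hd : ∀ σ : H.S, Ng H σ *ᵥ d = 0) {g : Matrix ι ι ℂ}
    (hg : g ∈ GG H) : g *ᵥ d = d := by
  induction hg using Submonoid.closure_induction with
  | mem y hy =>
    obtain ⟨σ, t, ht, rfl⟩ := hy
    have hI := isIdem_map (H := H) σ
    have h1 : ∀ k ∈ wr H, k ≠ 0 → H.π σ k *ᵥ d = 0 := by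
      intro k hk hk0
      have h2 : H.π σ k * Ng H σ = (k : ℂ) • H.π σ k := by
        rw [Ng, Finset.mul_sum, Finset.sum_eq_single k]
        · rw [Matrix.mul_smul, hI.mul k hk k hk, if_pos rfl]
        · intro l hl hlk
          rw [Matrix.mul_smul, hI.mul k hk l hl, if_neg (Ne.symm hlk), smul_zero]
        · intro hn; exact absurd hk hn
      have h3 : (H.π σ k * Ng H σ) *ᵥ d = 0 := by
        rw [← Matrix.mulVec_mulVec, hd σ, Matrix.mulVec_zero]
      rw [h2, Matrix.smul_mulVec] at h3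
      rcases smul_eq_zero.1 h3 with h4 | h4
      · exact absurd (by exact_mod_cast h4) hk0
      · exact h4
    rw [gen_eq, Matrix.sum_mulVec]
    conv_rhs => rw [← Matrix.one_mulVec d, ← hI.one, Matrix.sum_mulVec]
    refine Finset.sum_congr rfl fun k hk => ?_
    rw [Matrix.smul_mulVec]
    by_cases hk0 : k = 0
    · rw [hk0, _root_.zpow_zero, one_smul]
    · rw [h1 k hk hk0, smul_zero]
  | one => rw [Matrix.one_mulVec]
  | mul x y _ _ hx hy => rw [← Matrix.mulVec_mulVec, hy, hx]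

/-- Central endomorphisms. -/
def IsC (H : HData ι) (y : Matrix ι ι ℂ) : Prop :=
  IsHE H y ∧ ∀ y', IsHE H y' → y * y' = y' * y

end Pool.Agent.L0h10.RP
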