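import Pool.Agent.N996.BP.Fam
import Pool.Agent.N996.BP.DC

/-!
# Reductive groups generated by cocharacters, in coordinates

This is the analogue of the file `Pool.Agent.N996.BP.HData` for families of cocharacters with complex
coefficients.
-/

set_option linter.unusedSectionVars false

namespace Pool.Agent.L0h10.RP

open Matrix ComplexConjugate Pool.Agent.N996.BP

variable {ι : Type} [Fintype ι] [DecidableEq ι]

/-- The cocharacter with weights between `-w` and `w` and given projectors. -/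
noncomputable def lt (w : ℕ) (π : ℤ → Matrix ι ι ℂ) (t : ℂ) : Matrix ι ι ℂ :=
  ∑ k ∈ Finset.Icc (-w : ℤ) w, t ^ k • π k

/-- The real matrix as a complex matrix. -/
noncomputable def cR {m n : Type*} (M : Matrix m n ℝ) : Matrix m n ℂ :=
  M.map (fun x : ℝ => (x : ℂ))

lemma cR_mul {m n p : Type*} [Fintype n] (M : Matrix m n ℝ) (N : Matrix n p ℝ) :
    cR (M * N) = cR M * cR N := by
  ext i j
  simp [cR, Matrix.mul_apply]

lemma cR_one {n : Type*} [DecidableEq n] : cR (1 : Matrix n n ℝ) = 1 := by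
  ext i j
  rw [cR, Matrix.map_apply, Matrix.one_apply, Matrix.one_apply]
  split_ifs <;> simp

lemma kp_cR {κ : Type} [Fintype κ] (M : Matrix ι ι ℝ) :
    kp κ (cR M) = cR (kp κ M) := by
  ext i j
  simp [kp_apply, cR]

lemma cR_conjTranspose {m n : Type*} (M : Matrix m n ℝ) : (cR M)ᴴ = cR Mᵀ := by
  ext i j
  simp [cR, Matrix.conjTranspose_apply]

lemma cR_conj {m n : Type*} (M : Matrix m n ℝ) : (cR M).map conj = cR M := by
  ext i j
  simp [cR]

/-- The matrix (used for the comparison with the case of rational matrices). -/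
def cQ {m n : Type*} (M : Matrix m n ℂ) : Matrix m n ℂ := M.map (fun x : ℂ => x)

lemma cQ_eq {m n : Type*} (M : Matrix m n ℂ) : cQ M = M := rfl

/-- A reductive group generated by cocharacters in coordinates: real data with a form and a positive
definite hermitian form, and a family of cocharacters which is stable under the complex conjugation
and under the conjugation by the Weil operator. -/
structure HData (ι : Type) [Fintype ι] [DecidableEq ι] where
  /-- the real data -/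
  D : RData ι
  /-- the bound of the weights -/
  w : ℕ
  /-- the index set of the cocharacters -/
  S : Type
  /-- one of the indices -/
  s0 : S
  /-- the projectors -/
  π : S → ℤ → Matrix ι ι ℂ
  h1 : ∀ s, ∑ k ∈ Finset.Icc (-w : ℤ) w, π s k = 1
  hmul : ∀ s, ∀ k ∈ Finset.Icc (-w : ℤ) w, ∀ l ∈ Finset.Icc (-w : ℤ) w,
    π s k * π s l = if k = l then π s k else 0
  hπQ : ∀ s, ∀ k ∈ Finset.Icc (-w : ℤ) w, (π s k)ᵀ * cR D.Q = cR D.Q * π s (-k)
  hconj : ∀ s, ∃ s', ∀ k ∈ Finset.Icc (-w : ℤ) w, (π s k).map conj = π s' (-k)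
  hCn : ∀ s, ∃ s', ∀ k ∈ Finset.Icc (-w : ℤ) w, cR D.Ci * π s k * cR D.C = π s' k
  ho : ∀ s, ∀ t : ℂ, t ≠ 0 → ∀ i, lt w (π s) t i D.o = if i = D.o then 1 else 0

namespace HData

variable (H : HData ι)

/-- The form. -/
noncomputable def Qr : Matrix ι ι ℂ := cR H.D.Q

/-- The inverse of the form. -/
noncomputable def Qir : Matrix ι ι ℂ := cR H.D.Qi

/-- The cocharacter. -/
noncomputable def l (s : H.S) (t : ℂ) : Matrix ι ι ℂ := lt H.w (H.π s) t

lemma l_apply (s : H.S) (t : ℂ) : H.l s t = ∑ k ∈ Finset.Icc (-H.w : ℤ) H.w, t ^ k • H.π s k := rfl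

lemma l_one (σ : H.S) : H.l σ 1 = 1 := by
  rw [l_apply, ← H.h1 σ]
  exact Finset.sum_congr rfl fun k _ => by rw [_root_.one_zpow, one_smul]

lemma l_mul (σ : H.S) {s t : ℂ} : H.l σ s * H.l σ t = H.l σ (s * t) := by
  rw [l_apply, l_apply, l_apply, Finset.sum_mul_sum]
  refine Finset.sum_congr rfl fun k hk => ?_
  rw [Finset.sum_eq_single k]
  · rw [Matrix.smul_mul, Matrix.mul_smul, H.hmul σ k hk k hk, if_pos rfl, smul_smul, mul_zpow]
  · intro m hm hne
    rw [Matrix.smul_mul, Matrix.mul_smul, H.hmul σ k hk m hm, if_neg (Ne.symm hne), smul_zero,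
      smul_zero]
  · intro h; exact absurd hk h

lemma l_inv (σ : H.S) {t : ℂ} (ht : t ≠ 0) : H.l σ t * H.l σ t⁻¹ = 1 := by
  rw [l_mul, mul_inv_cancel₀ ht, l_one]

lemma l_inv' (σ : H.S) {t : ℂ} (ht : t ≠ 0) : H.l σ t⁻¹ * H.l σ t = 1 := by
  rw [l_mul, inv_mul_cancel₀ ht, l_one]

lemma sum_neg {M : Type*} [AddCommMonoid M] (f : ℤ → M) :
    ∑ k ∈ Finset.Icc (-H.w : ℤ) H.w, f (-k) = ∑ k ∈ Finset.Icc (-H.w : ℤ) H.w, f k := by
  refine Finset.sum_nbij' (fun k => -k) (fun k => -k) ?_ ?_ ?_ ?_ ?_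
  · intro a ha; rw [Finset.mem_Icc] at *; omega
  · intro a ha; rw [Finset.mem_Icc] at *; omega
  · intro a _; simp
  · intro a _; simp
  · intro a _; rfl

lemma l_tr (σ : H.S) {t : ℂ} (ht : t ≠ 0) : (H.l σ t)ᵀ * cQ H.Qr = cQ H.Qr * H.l σ t⁻¹ := by
  rw [l_apply, l_apply, Matrix.transpose_sum, Finset.sum_mul, Finset.mul_sum,
    ← H.sum_neg fun k => cQ H.Qr * t⁻¹ ^ k • H.π σ k]
  refine Finset.sum_congr rfl fun k hk => ?_
  have h := H.hπQ σ k hk
  rw [Matrix.transpose_smul, Matrix.smul_mul, Matrix.mul_smul, _root_.inv_zpow', neg_neg]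
  exact congrArg (fun x => t ^ k • x) h

lemma l_Q (σ : H.S) {t : ℂ} (ht : t ≠ 0) : (H.l σ t)ᵀ * cQ H.Qr * H.l σ t = cQ H.Qr := by
  rw [H.l_tr σ ht, Matrix.mul_assoc, H.l_inv' σ ht, Matrix.mul_one]

/-- The complex conjugate of a cocharacter. -/
lemma l_conj (σ : H.S) : ∃ σ' : H.S, ∀ t : ℂ, t ≠ 0 → (H.l σ t).map conj = H.l σ' (conj t)⁻¹ := by
  obtain ⟨σ', hσ⟩ := H.hconj σ
  refine ⟨σ', fun t ht => ?_⟩
  rw [l_apply, l_apply, ← H.sum_neg fun k => (conj t)⁻¹ ^ k • H.π σ' k]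
  ext i j
  rw [Matrix.map_apply, Matrix.sum_apply, map_sum, Matrix.sum_apply]
  refine Finset.sum_congr rfl fun k hk => ?_
  rw [Matrix.smul_apply, Matrix.smul_apply, ← hσ k hk, smul_eq_mul, map_mul, map_zpow₀,
    _root_.inv_zpow', neg_neg]
  rfl

/-- The conjugate of a cocharacter by the Weil operator. -/
lemma l_C (σ : H.S) : ∃ σ' : H.S, ∀ t : ℂ, cR H.D.Ci * H.l σ t * cR H.D.C = H.l σ' t := by
  obtain ⟨σ', hσ⟩ := H.hCn σ
  refine ⟨σ', fun t => ?_⟩
  rw [l_apply, l_apply, Finset.mul_sum, Finset.sum_mul]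
  refine Finset.sum_congr rfl fun k hk => ?_
  rw [← hσ k hk, Matrix.mul_smul, Matrix.smul_mul]

lemma Qr_Qir : H.Qr * H.Qir = 1 := by
  rw [Qr, Qir, ← cR_mul, H.D.hQ, cR_one]

end HData

lemma cQ_mul {m n p : Type*} [Fintype n] (M : Matrix m n ℂ) (N : Matrix n p ℂ) :
    cQ (M * N) = cQ M * cQ N := rfl

lemma cQ_one {n : Type*} [DecidableEq n] : cQ (1 : Matrix n n ℂ) = 1 := rfl

lemma kp_cQ {κ : Type} [Fintype κ] (M : Matrix ι ι ℂ) :
    kp κ (cQ M) = cQ (kp κ M) := rfl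

/-- The array. -/
def ca {κ : Type} (a : (κ → ι) → ℂ) : (κ → ι) → ℂ := fun i => a i

lemma ca_eq {κ : Type} (a : (κ → ι) → ℂ) : ca a = a := rfl

variable (H : HData ι)

/-- The invariant arrays. -/
def BB (κ : Type) [Fintype κ] [DecidableEq κ] : Submodule ℂ ((κ → ι) → ℂ) where
  carrier := {a | ∀ (σ : H.S) (t : ℂ), t ≠ 0 → kp κ (H.l σ t) *ᵥ ca a = ca a}
  add_mem' {a b} ha hb σ t ht := by
    have h : ca (a + b) = ca a + ca b := by ext; simp [ca]
    rw [h, Matrix.mulVec_add, ha σ t ht, hb σ t ht]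
  zero_mem' σ t ht := by
    have h : ca (0 : (κ → ι) → ℂ) = 0 := by ext; simp [ca]
    rw [h, Matrix.mulVec_zero]
  smul_mem' c a ha σ t ht := by
    have h : ca (c • a) = (c : ℂ) • ca a := by ext; simp [ca]
    rw [h, Matrix.mulVec_smul, ha σ t ht]

/-- The generators of the group. -/
def gens : Set (Matrix ι ι ℂ) := {g | ∃ (σ : H.S) (t : ℂ), t ≠ 0 ∧ g = H.l σ t}

/-- The monoid generated by the cocharacters. -/
def GG : Submonoid (Matrix ι ι ℂ) := Submonoid.closure (gens H)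

/-- The arrays are invariant under the group. -/
lemma GG_fix {κ : Type} [Fintype κ] [DecidableEq κ] {a : (κ → ι) → ℂ} (ha : a ∈ BB H κ)
    {g : Matrix ι ι ℂ} (hg : g ∈ GG H) : kp κ g *ᵥ ca a = ca a := by
  induction hg using Submonoid.closure_induction with
  | mem x hx =>
    obtain ⟨σ, t, ht, rfl⟩ := hx
    exact ha σ t ht
  | one => rw [kp_one, Matrix.one_mulVec]
  | mul x y _ _ hx hy => rw [kp_mul, ← Matrix.mulVec_mulVec, hy, hx]

/-- The array of the inverse of the form is invariant. -/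
lemma arr_BB {κ : Type} [Fintype κ] [DecidableEq κ] {x : Matrix (κ → ι) (κ → ι) ℂ}
    (hx : ∀ (σ : H.S) (t : ℂ), t ≠ 0 → kp κ (H.l σ t) * cQ x = cQ x * kp κ (H.l σ t)) :
    arr (x * kp κ H.Qir) ∈ BB H (κ ⊕ κ) := by
  intro σ t ht
  have h0 : ca (arr (x * kp κ H.Qir)) = arr (cQ (x * kp κ H.Qir)) := rfl
  rw [h0, kp_arr, cQ_mul]
  congr 1
  have h1 : kp κ (H.l σ t) * cQ (kp κ H.Qir) * (kp κ (H.l σ t))ᵀ = cQ (kp κ H.Qir) := by
    have h2 : (kp κ (H.l σ t))ᵀ * cQ (kp κ H.Qr) = cQ (kp κ H.Qr) * kp κ (H.l σ t⁻¹) := by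
      rw [← kp_transpose, ← kp_cQ, ← kp_mul, ← kp_mul, H.l_tr σ ht]
    have h3 : cQ (kp κ H.Qr) * cQ (kp κ H.Qir) = 1 := by
      rw [← cQ_mul, kp_inv_mul H.Qr_Qir, cQ_one]
    have h4 : cQ (kp κ H.Qir) * cQ (kp κ H.Qr) = 1 := mul_eq_one_comm.1 h3
    have h5 : kp κ (H.l σ t) * kp κ (H.l σ t⁻¹) = 1 := kp_inv_mul (H.l_inv σ ht)
    calc kp κ (H.l σ t) * cQ (kp κ H.Qir) * (kp κ (H.l σ t))ᵀ =
        kp κ (H.l σ t) * cQ (kp κ H.Qir) * ((kp κ (H.l σ t))ᵀ * cQ (kp κ H.Qr)) *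
          cQ (kp κ H.Qir) := by rw [Matrix.mul_assoc, Matrix.mul_assoc,
            Matrix.mul_assoc _ (cQ (kp κ H.Qr)), h3, Matrix.mul_one, Matrix.mul_assoc]
      _ = kp κ (H.l σ t) * (cQ (kp κ H.Qir) * cQ (kp κ H.Qr)) * kp κ (H.l σ t⁻¹) *
          cQ (kp κ H.Qir) := by rw [h2]; simp only [Matrix.mul_assoc]
      _ = _ := by rw [h4, Matrix.mul_one, h5, Matrix.one_mul]
  rw [← Matrix.mul_assoc, hx σ t ht, Matrix.mul_assoc (cQ x), Matrix.mul_assoc (cQ x), h1]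

/-- The complex conjugate of an invariant array is invariant. -/
lemma BB_conj {κ : Type} [Fintype κ] [DecidableEq κ] {a : (κ → ι) → ℂ} (ha : a ∈ BB H κ) :
    (fun i => conj (a i)) ∈ BB H κ := by
  intro σ t ht
  obtain ⟨σ', hσ⟩ := H.l_conj σ
  have ht' : conj t ≠ 0 := fun h => ht ((map_eq_zero (starRingEnd ℂ)).1 h)
  have h1 := ha σ' (conj t)⁻¹ (inv_ne_zero ht')
  rw [← hσ t ht] at h1
  have h2 : kp κ (H.l σ t) = (kp κ ((H.l σ t).map conj)).map conj := by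
    ext i j
    simp [kp_apply]
  funext i
  have h3 := congrArg conj (congrFun h1 i)
  rw [Matrix.mulVec, dotProduct, map_sum] at h3
  rw [h2, Matrix.mulVec, dotProduct]
  refine Eq.trans (Finset.sum_congr rfl fun j _ => ?_) h3
  rw [map_mul]
  rfl

end Pool.Agent.L0h10.RP
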