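import Pool.Agent.L0h10.RP.Lie
import Pool.Agent.N996.FP.Inst

/-!
# The decomposition theorem for Hodge structures
-/

set_option linter.unusedSectionVars false

namespace Pool.Agent.L0h10.RP

open Matrix Pool.Agent.N996.BP Pool.Agent.N996.FP ComplexConjugate

variable {ι : Type} [Fintype ι] [DecidableEq ι] (H : HData ι)

/-- The square root of the scalar product. -/
noncomputable def Mm : Matrix ι ι ℂ := cR H.D.M

/-- Its inverse. -/
noncomputable def Mi : Matrix ι ι ℂ := cR H.D.Mi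

lemma Mm_Mi : Mm H * Mi H = 1 := by rw [Mm, Mi, ← cR_mul, H.D.hM, cR_one]

lemma Mi_Mm : Mi H * Mm H = 1 := mul_eq_one_comm.1 (Mm_Mi H)

lemma Sc_eq : Sc H = (Mm H)ᴴ * Mm H := by
  rw [Sc, Mm, Z_eq, RData.S, cR_mul, cR_conjTranspose]

/-- Change of coordinates. -/
noncomputable def cj (x : Matrix ι ι ℂ) : Matrix ι ι ℂ := Mi H * x * Mm H

lemma cj_mul (x y : Matrix ι ι ℂ) : cj H (x * y) = cj H x * cj H y := by
  rw [cj, cj, cj]
  calc Mi H * (x * y) * Mm H = Mi H * x * 1 * y * Mm H := by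
        rw [Matrix.mul_one]; simp only [Matrix.mul_assoc]
    _ = _ := by rw [← Mm_Mi H]; simp only [Matrix.mul_assoc]

lemma cj_one : cj H 1 = 1 := by rw [cj, Matrix.mul_one, Mi_Mm]

lemma cj_sub (x y : Matrix ι ι ℂ) : cj H (x - y) = cj H x - cj H y := by
  rw [cj, cj, cj, Matrix.mul_sub, Matrix.sub_mul]

lemma cj_br (x y : Matrix ι ι ℂ) : cj H (br x y) = br (cj H x) (cj H y) := by
  rw [br, cj_sub, cj_mul, cj_mul, br]

/-- The inverse change of coordinates. -/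
noncomputable def cji (x : Matrix ι ι ℂ) : Matrix ι ι ℂ := Mm H * x * Mi H

lemma cj_cji (x : Matrix ι ι ℂ) : cj H (cji H x) = x := by
  rw [cj, cji]
  calc Mi H * (Mm H * x * Mi H) * Mm H = (Mi H * Mm H) * x * (Mi H * Mm H) := by
        simp only [Matrix.mul_assoc]
    _ = x := by rw [Mi_Mm, Matrix.one_mul, Matrix.mul_one]

lemma cji_cj (x : Matrix ι ι ℂ) : cji H (cj H x) = x := by
  rw [cj, cji]
  calc Mm H * (Mi H * x * Mm H) * Mi H = (Mm H * Mi H) * x * (Mm H * Mi H) := by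
        simp only [Matrix.mul_assoc]
    _ = x := by rw [Mm_Mi, Matrix.one_mul, Matrix.mul_one]

lemma cji_mul (x y : Matrix ι ι ℂ) : cji H (x * y) = cji H x * cji H y := by
  rw [← cji_cj H (cji H x * cji H y), cj_mul, cj_cji, cj_cji]

lemma cji_one : cji H 1 = 1 := by rw [cji, Matrix.mul_one, Mm_Mi]

/-- The Lie algebra in orthonormal coordinates. -/
noncomputable def hn : Submodule ℂ (Matrix ι ι ℂ) where
  carrier := {x | cj H x ∈ ho H}
  add_mem' {x y} hx hy := by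
    change cj H (x + y) ∈ ho H
    rw [cj, Matrix.mul_add, Matrix.add_mul]
    exact Submodule.add_mem _ hx hy
  zero_mem' := by
    change cj H 0 ∈ ho H
    rw [cj, Matrix.mul_zero, Matrix.zero_mul]
    exact Submodule.zero_mem _
  smul_mem' c x hx := by
    change cj H (c • x) ∈ ho H
    rw [cj, Matrix.mul_smul, Matrix.smul_mul]
    exact Submodule.smul_mem _ c hx

/-- The group in orthonormal coordinates. -/
noncomputable def Sn : Submonoid (Matrix ι ι ℂ) where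
  carrier := {q | cj H q ∈ So H}
  mul_mem' {x y} hx hy := by
    change cj H (x * y) ∈ So H
    rw [cj_mul]
    exact Submonoid.mul_mem _ hx hy
  one_mem' := by
    change cj H 1 ∈ So H
    rw [cj_one]
    exact Submonoid.one_mem _

lemma mem_hn {x : Matrix ι ι ℂ} : x ∈ hn H ↔ cj H x ∈ ho H := Iff.rfl

lemma mem_Sn {x : Matrix ι ι ℂ} : x ∈ Sn H ↔ cj H x ∈ So H := Iff.rfl

lemma cj_exp (x : Matrix ι ι ℂ) : cj H (NormedSpace.exp x) = NormedSpace.exp (cj H x) := by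
  have h2 : IsUnit (Mi H) := ⟨⟨Mi H, Mm H, Mi_Mm H, Mm_Mi H⟩, rfl⟩
  have h3 := Matrix.exp_conj (Mi H) x h2
  rw [Matrix.inv_eq_right_inv (Mi_Mm H)] at h3
  exact h3.symm

lemma isLA_hn : IsLA (hn H) where
  lie a ha b hb := by
    rw [mem_hn, cj_br]
    exact ho_br ha hb
  star a ha := by
    have h1 := ho_adj (mem_hn H |>.1 ha)
    have h2 : cR H.D.Ci * cQ H.Qir * (cj H a)ᴴ * Sc H = cj H aᴴ := by
      have hSi : cR H.D.Ci * cQ H.Qir = Mi H * (Mi H)ᴴ := by
        have e1 : (cR H.D.Ci * cQ H.Qir) * Sc H = 1 := by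
          have hQQ : cQ H.Qr * cQ H.Qir = 1 := by rw [← cQ_mul, H.Qr_Qir, cQ_one]
          have hQQ' : cQ H.Qir * cQ H.Qr = 1 := mul_eq_one_comm.1 hQQ
          rw [Sc]
          calc cR H.D.Ci * cQ H.Qir * (cQ H.Qr * cR H.D.C) =
              cR H.D.Ci * (cQ H.Qir * cQ H.Qr) * cR H.D.C := by
                simp only [Matrix.mul_assoc]
            _ = 1 := by rw [hQQ', Matrix.mul_one, cR_Ci_C]
        have e2 : Sc H * (Mi H * (Mi H)ᴴ) = 1 := by
          rw [Sc_eq]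
          calc (Mm H)ᴴ * Mm H * (Mi H * (Mi H)ᴴ) = (Mm H)ᴴ * (Mm H * Mi H) * (Mi H)ᴴ := by
                simp only [Matrix.mul_assoc]
            _ = (Mi H * Mm H)ᴴ := by rw [Mm_Mi, Matrix.mul_one, Matrix.conjTranspose_mul]
            _ = 1 := by rw [Mi_Mm, Matrix.conjTranspose_one]
        calc cR H.D.Ci * cQ H.Qir =
            (cR H.D.Ci * cQ H.Qir) * (Sc H * (Mi H * (Mi H)ᴴ)) := by
              rw [e2, Matrix.mul_one]
          _ = ((cR H.D.Ci * cQ H.Qir) * Sc H) * (Mi H * (Mi H)ᴴ) := by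
              simp only [Matrix.mul_assoc]
          _ = _ := by rw [e1, Matrix.one_mul]
      have e3 : (Mi H)ᴴ * (Mm H)ᴴ = 1 := by
        rw [← Matrix.conjTranspose_mul, Mm_Mi, Matrix.conjTranspose_one]
      rw [hSi, Sc_eq, cj, cj, Matrix.conjTranspose_mul, Matrix.conjTranspose_mul]
      calc Mi H * (Mi H)ᴴ * ((Mm H)ᴴ * (aᴴ * (Mi H)ᴴ)) * ((Mm H)ᴴ * Mm H) =
          Mi H * ((Mi H)ᴴ * (Mm H)ᴴ) * aᴴ * ((Mi H)ᴴ * (Mm H)ᴴ) * Mm H := by
            simp only [Matrix.mul_assoc]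
        _ = _ := by rw [e3, Matrix.mul_one, Matrix.mul_one]
    rw [mem_hn, ← h2]
    exact h1

lemma isGrp_Sn : IsGrp (hn H) (Sn H) where
  exp z hz := by
    rw [mem_Sn, cj_exp]
    exact So_exp hz
  closed := by
    have h1 : (Sn H : Set (Matrix ι ι ℂ)) = ⋂ (κ : Type) (_ : Fintype κ) (_ : DecidableEq κ)
        (a : (κ → ι) → ℂ) (_ : a ∈ BB H κ), {q | kp κ (cj H q) *ᵥ ca a = ca a} := by
      ext q
      simp only [Set.mem_iInter]
      exact ⟨fun h κ _ _ a ha => h κ a ha, fun h κ _ _ a ha => h κ _ _ a ha⟩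
    rw [h1]
    refine isClosed_iInter fun κ => isClosed_iInter fun _ => isClosed_iInter fun _ =>
      isClosed_iInter fun a => isClosed_iInter fun _ => isClosed_eq ?_ continuous_const
    have h2 : Continuous fun q : Matrix ι ι ℂ => cj H q :=
      (continuous_const.matrix_mul continuous_id).matrix_mul continuous_const
    have h3 : Continuous fun q : Matrix ι ι ℂ => kp κ (cj H q) := by
      refine continuous_matrix fun i j => ?_
      simp only [kp_apply]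
      exact continuous_finsetProd _ fun k _ => h2.matrix_elem (i k) (j k)
    exact h3.matrix_mulVec continuous_const
  inv q hq := by
    obtain ⟨q', h1, h2⟩ := So_ex_inv (mem_Sn H |>.1 hq)
    refine ⟨cji H q', by rw [mem_Sn, cj_cji]; exact h1, ?_⟩
    rw [← cji_cj H q, ← cji_mul, h2, cji_one]
  ad q hq q' hqq z hz := by
    rw [mem_hn, cj_mul, cj_mul]
    exact So_ad (by rw [← cj_mul, hqq, cj_one]) hq hz

/-! ### The adjoint action -/

/-- The array of a matrix. -/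
noncomputable def Am : Matrix ι ι ℂ →ₗ[ℂ] ((Unit ⊕ Unit → ι) → ℂ) where
  toFun z := fun i => (z * cQ H.Qir) (i (Sum.inl ())) (i (Sum.inr ()))
  map_add' x y := by
    funext i
    rw [Matrix.add_mul]
    rfl
  map_smul' c x := by
    funext i
    rw [Matrix.smul_mul]
    rfl

lemma Am_kp {g g' : Matrix ι ι ℂ} (h : g' * g = 1) (hQ : g * cQ H.Qir * gᵀ = cQ H.Qir)
    (z : Matrix ι ι ℂ) : kp (Unit ⊕ Unit) g *ᵥ Am H z = Am H (g * z * g') := by
  have h1 : Am H z = arr (Matrix.of fun i j : Unit → ι => (z * cQ H.Qir) (i ()) (j ())) := rfl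
  have h2 : Am H (g * z * g') =
      arr (Matrix.of fun i j : Unit → ι => (g * z * g' * cQ H.Qir) (i ()) (j ())) := rfl
  rw [h1, h2, kp_arr]
  congr 1
  have h3 : g' * cQ H.Qir = cQ H.Qir * gᵀ := by
    calc g' * cQ H.Qir = g' * (g * cQ H.Qir * gᵀ) := by rw [hQ]
      _ = (g' * g) * cQ H.Qir * gᵀ := by simp only [Matrix.mul_assoc]
      _ = _ := by rw [h, Matrix.one_mul]
  have h4 : g * z * g' * cQ H.Qir = g * (z * cQ H.Qir) * gᵀ := by
    rw [Matrix.mul_assoc (g * z), h3]; simp only [Matrix.mul_assoc]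
  rw [h4]
  have hof : ∀ A B : Matrix ι ι ℂ, (Matrix.of fun i j : Unit → ι => A (i ()) (j ())) *
      (Matrix.of fun i j : Unit → ι => B (i ()) (j ())) =
      Matrix.of fun i j : Unit → ι => (A * B) (i ()) (j ()) := by
    intro A B
    ext i j
    rw [Matrix.mul_apply, Matrix.of_apply, Matrix.mul_apply, ← (Equiv.funUnique Unit ι).sum_comp]
    rfl
  have hk : kp Unit g = Matrix.of fun i j : Unit → ι => g (i ()) (j ()) := by
    ext i j
    rw [kp_apply, Fintype.prod_unique]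
    rfl
  have hkt : (kp Unit g)ᵀ = Matrix.of fun i j : Unit → ι => gᵀ (i ()) (j ()) := by
    rw [hk]; rfl
  rw [hkt, hk, hof, hof]

lemma fix_Q {g : Matrix ι ι ℂ} (hg : Fixes H g (Unit ⊕ Unit)) :
    g * cQ H.Qir * gᵀ = cQ H.Qir := by
  have h1 := hg _ (arr_BB H (x := 1) fun σ t _ => by
    rw [cQ_one, Matrix.mul_one, Matrix.one_mul])
  have h0 : ca (arr ((1 : Matrix (Unit → ι) (Unit → ι) ℂ) * kp Unit H.Qir)) =
      arr (kp Unit (cQ H.Qir)) := by
    rw [Matrix.one_mul, kp_cQ]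
    rfl
  rw [h0, kp_arr, ← kp_transpose, ← kp_mul, ← kp_mul] at h1
  have h2 := congrArg mat h1
  rw [mat_arr, mat_arr] at h2
  ext i j
  have h4 := congrFun (congrFun h2 fun _ => i) fun _ => j
  rw [kp_apply, kp_apply, Fintype.prod_unique, Fintype.prod_unique] at h4
  exact h4

variable {H}

/-- The adjoint action preserves the Lie algebra. -/
lemma ad_fix {p p' : Matrix ι ι ℂ} (hp : p' * p = 1) (h2 : Fixes H p (Unit ⊕ Unit))
    (h4 : Fixes H p ((Unit ⊕ Unit) ⊕ (Unit ⊕ Unit))) {z : Matrix ι ι ℂ} (hz : z ∈ ho H) :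
    p * z * p' ∈ ho H := by
  have hGA := mem_GA h4
  have hst : ∀ x ∈ GA H (Unit ⊕ Unit), ∀ v ∈ (ho H).map (Am H), x *ᵥ v ∈ (ho H).map (Am H) := by
    intro x hx
    have hx' : x ∈ Subalgebra.toSubmodule (GA H (Unit ⊕ Unit)) := hx
    rw [GA_eq_span] at hx'
    clear hx
    intro v hv
    induction hx' using Submodule.span_induction with
    | mem x hx =>
      obtain ⟨g, hg, rfl⟩ := hx
      obtain ⟨z, hz, rfl⟩ := hv
      obtain ⟨g', hg', hgg⟩ := So_ex_inv (GG_So hg)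
      rw [Am_kp H (mul_eq_one_comm.1 hgg) (fix_Q H (GG_So hg (Unit ⊕ Unit)))]
      exact ⟨_, So_ad hgg (GG_So hg) hz, rfl⟩
    | zero => rw [Matrix.zero_mulVec]; exact Submodule.zero_mem _
    | add x y _ _ hx hy => rw [Matrix.add_mulVec]; exact Submodule.add_mem _ hx hy
    | smul c x _ hx => rw [Matrix.smul_mulVec]; exact Submodule.smul_mem _ _ hx
  obtain ⟨z', hz', heq⟩ := hst _ hGA (Am H z) ⟨z, hz, rfl⟩
  rw [Am_kp H hp (fix_Q H h2)] at heq
  have h5 : z' * cQ H.Qir = p * z * p' * cQ H.Qir := by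
    ext i j
    exact congrFun heq (Sum.elim (fun _ => i) fun _ => j)
  have hQQ : cQ H.Qir * cQ H.Qr = 1 := mul_eq_one_comm.1 (by
    rw [← cQ_mul, H.Qr_Qir, cQ_one])
  have h6 : z' = p * z * p' := by
    calc z' = z' * cQ H.Qir * cQ H.Qr := by rw [Matrix.mul_assoc, hQQ, Matrix.mul_one]
      _ = p * z * p' * (cQ H.Qir * cQ H.Qr) := by rw [h5, Matrix.mul_assoc]
      _ = _ := by rw [hQQ, Matrix.mul_one]
  rw [← h6]
  exact hz'

variable (H)

lemma kp_cj_Mm {κ : Type} [Fintype κ] [DecidableEq κ] (q : Matrix ι ι ℂ) :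
    kp κ q * kp κ (Mm H) = kp κ (Mm H) * kp κ (cj H q) := by
  rw [← kp_mul, ← kp_mul]
  congr 1
  rw [cj]
  calc q * Mm H = (Mm H * Mi H) * q * Mm H := by rw [Mm_Mi, Matrix.one_mul]
    _ = _ := by simp only [Matrix.mul_assoc]

lemma dk_cj_Mm {κ : Type} [Fintype κ] [DecidableEq κ] (z : Matrix ι ι ℂ) :
    dk κ z * kp κ (Mm H) = kp κ (Mm H) * dk κ (cj H z) := by
  rw [kp_dk (Mi_Mm H)]
  congr 2
  exact (cji_cj H z).symm

/-- Matrices fixing Hodge classes preserve the stable subspaces. -/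
lemma pres_fix {κ : Type} [Fintype κ] [DecidableEq κ] {q : Matrix ι ι ℂ}
    (hq : Fixes H (cj H q) (κ ⊕ κ)) : Pres (hn H) (dkL κ) (kp κ q) := by
  intro W hW v hv
  let W' : Submodule ℂ ((κ → ι) → ℂ) := W.comap (Matrix.mulVecLin (kp κ (Mm H)))
  have hW' : ∀ z ∈ ho H, ∀ v ∈ W', dk κ z *ᵥ v ∈ W' := by
    intro z hz v hv
    change kp κ (Mm H) *ᵥ (dk κ z *ᵥ v) ∈ W
    have h1 := dk_cj_Mm (κ := κ) H (cji H z)
    rw [cj_cji] at h1
    rw [Matrix.mulVec_mulVec, ← h1, ← Matrix.mulVec_mulVec]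
    exact hW _ (by rw [mem_hn, cj_cji]; exact hz) _ hv
  have hv' : kp κ (Mi H) *ᵥ v ∈ W' := by
    change kp κ (Mm H) *ᵥ (kp κ (Mi H) *ᵥ v) ∈ W
    rw [Matrix.mulVec_mulVec, ← kp_mul, Mm_Mi, kp_one, Matrix.one_mulVec]
    exact hv
  have h2 := GA_stable hW' (mem_GA hq) _ hv'
  have h3 : kp κ (Mm H) *ᵥ (kp κ (cj H q) *ᵥ (kp κ (Mi H) *ᵥ v)) = kp κ q *ᵥ v := by
    rw [Matrix.mulVec_mulVec, ← kp_cj_Mm, ← Matrix.mulVec_mulVec, Matrix.mulVec_mulVec _ _ (kp κ (Mi H)),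
      ← kp_mul, Mm_Mi, kp_one, Matrix.one_mulVec]
  rw [← h3]
  exact h2

end Pool.Agent.L0h10.RP
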