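import Pool.Agent.L0h10.RP.Inst
import Pool.Agent.N996.FP.Itw

/-!
# Intertwining operators
-/

set_option linter.unusedSectionVars false

namespace Pool.Agent.L0h10.RP

open Matrix Pool.Agent.N996.BP Pool.Agent.N996.FP ComplexConjugate

variable {ι : Type} [Fintype ι] [DecidableEq ι] {H : HData ι}
  {κ : Type} [Fintype κ] [DecidableEq κ] {l : Type} [Fintype l] [DecidableEq l]

/-- Rational intertwining operators. -/
def IsItw (H : HData ι) (P : Matrix (l → ι) (κ → ι) ℂ) : Prop :=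
  ∀ (σ : H.S) (t : ℂ), t ≠ 0 → kp l (H.l σ t) * cQ P = cQ P * kp κ (H.l σ t)

lemma arr_inv_BB (κ : Type) [Fintype κ] [DecidableEq κ] : arr (kp κ H.Qir) ∈ BB H (κ ⊕ κ) := by
  have h1 := arr_BB H (κ := κ) (x := 1) fun σ t _ => by
    rw [cQ_one, Matrix.mul_one, Matrix.one_mul]
  rwa [Matrix.one_mul] at h1

lemma kp_fix_inv {p : Matrix ι ι ℂ} (hp : Fixes H p (κ ⊕ κ)) :
    kp κ p * kp κ (cQ H.Qir) * (kp κ p)ᵀ = kp κ (cQ H.Qir) := by
  have h1 := hp _ (arr_inv_BB κ)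
  have h0 : ca (arr (kp κ H.Qir)) = arr (kp κ (cQ H.Qir)) := by rw [kp_cQ]; rfl
  rw [h0, kp_arr] at h1
  have h2 := congrArg mat h1
  rwa [mat_arr, mat_arr] at h2

lemma dk_inv {z : Matrix ι ι ℂ} (hz : z ∈ ho H) :
    dk κ z * kp κ (cQ H.Qir) + kp κ (cQ H.Qir) * (dk κ z)ᵀ = 0 := by
  have h1 := hz (κ ⊕ κ) _ (arr_inv_BB κ)
  have h0 : ca (arr (kp κ H.Qir)) = arr (kp κ (cQ H.Qir)) := by rw [kp_cQ]; rfl
  rw [h0] at h1
  have h2 := congrArg mat h1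
  rw [mat_dk, mat_arr] at h2
  exact h2

lemma QiQ : kp κ (cQ H.Qir) * kp κ (cQ H.Qr) = 1 := by
  rw [← kp_mul, ← cQ_mul, mul_eq_one_comm.1 H.Qr_Qir, cQ_one, kp_one]

/-- The array of an intertwining operator. -/
lemma itw_BB {P : Matrix (l → ι) (κ → ι) ℂ} (hP : IsItw H P) :
    arr (P * kp κ H.Qir) ∈ BB H (l ⊕ κ) := by
  intro σ t ht
  have h0 : ca (arr (P * kp κ H.Qir)) = arr (cQ P * kp κ (cQ H.Qir)) := by
    rw [kp_cQ, ← cQ_mul]; rfl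
  have h1 : kp κ (H.l σ t) * kp κ (cQ H.Qir) * (kp κ (H.l σ t))ᵀ = kp κ (cQ H.Qir) :=
    kp_fix_inv (p := H.l σ t) (GG_So (Submonoid.subset_closure (l_mem_gens H σ ht)) _)
  rw [h0, kp_arr, ← Matrix.mul_assoc, hP σ t ht, Matrix.mul_assoc (cQ P), Matrix.mul_assoc (cQ P),
    h1]

lemma itw_arr (P : Matrix (l → ι) (κ → ι) ℂ) :
    ca (arr (P * kp κ H.Qir)) = arr (cQ P * kp κ (cQ H.Qir)) := by
  rw [kp_cQ, ← cQ_mul]; rfl

/-- Elements of the Lie algebra. -/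
lemma itw_dk {P : Matrix (l → ι) (κ → ι) ℂ} (hP : IsItw H P) {z : Matrix ι ι ℂ} (hz : z ∈ ho H) :
    dk l z * cQ P = cQ P * dk κ z := by
  have h1 := hz (l ⊕ κ) _ (itw_BB hP)
  rw [itw_arr] at h1
  have h2 := congrArg mat h1
  rw [mat_dk, mat_arr] at h2
  have h3 : kp κ (cQ H.Qir) * (dk κ z)ᵀ = -(dk κ z * kp κ (cQ H.Qir)) := by
    rw [eq_neg_iff_add_eq_zero, add_comm]; exact dk_inv hz
  have h4 : dk l z * (cQ P * kp κ (cQ H.Qir)) = cQ P * (dk κ z * kp κ (cQ H.Qir)) := by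
    have h5 : mat (0 : (l ⊕ κ → ι) → ℂ) = 0 := rfl
    rw [h5, Matrix.mul_assoc (cQ P), h3, Matrix.mul_neg, add_neg_eq_zero] at h2
    exact h2
  calc dk l z * cQ P = dk l z * (cQ P * kp κ (cQ H.Qir)) * kp κ (cQ H.Qr) := by
        rw [Matrix.mul_assoc, Matrix.mul_assoc (cQ P), QiQ, Matrix.mul_one]
    _ = cQ P * dk κ z * (kp κ (cQ H.Qir) * kp κ (cQ H.Qr)) := by
        rw [h4]; simp only [Matrix.mul_assoc]
    _ = _ := by rw [QiQ, Matrix.mul_one]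

/-- Matrices which fix the Hodge classes. -/
lemma itw_kp {P : Matrix (l → ι) (κ → ι) ℂ} (hP : IsItw H P) {p : Matrix ι ι ℂ}
    (h1 : Fixes H p (l ⊕ κ)) (h2 : Fixes H p (κ ⊕ κ)) : kp l p * cQ P = cQ P * kp κ p := by
  have h3 := h1 _ (itw_BB hP)
  rw [itw_arr, kp_arr] at h3
  have h4 := congrArg mat h3
  rw [mat_arr, mat_arr] at h4
  have h5 := kp_fix_inv h2
  -- the right inverse
  obtain ⟨R, hR⟩ : ∃ R, R = kp κ (cQ H.Qir) * (kp κ p)ᵀ * kp κ (cQ H.Qr) := ⟨_, rfl⟩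
  have h6 : kp κ p * R = 1 := by
    rw [hR]
    calc kp κ p * (kp κ (cQ H.Qir) * (kp κ p)ᵀ * kp κ (cQ H.Qr)) =
        (kp κ p * kp κ (cQ H.Qir) * (kp κ p)ᵀ) * kp κ (cQ H.Qr) := by simp only [Matrix.mul_assoc]
      _ = 1 := by rw [h5, QiQ]
  have h7 : kp l p * cQ P * R = cQ P := by
    rw [hR]
    calc kp l p * cQ P * (kp κ (cQ H.Qir) * (kp κ p)ᵀ * kp κ (cQ H.Qr)) =
        (kp l p * (cQ P * kp κ (cQ H.Qir)) * (kp κ p)ᵀ) * kp κ (cQ H.Qr) := by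
          simp only [Matrix.mul_assoc]
      _ = cQ P * (kp κ (cQ H.Qir) * kp κ (cQ H.Qr)) := by rw [h4, Matrix.mul_assoc]
      _ = _ := by rw [QiQ, Matrix.mul_one]
  calc kp l p * cQ P = kp l p * cQ P * (R * kp κ p) := by
        rw [mul_eq_one_comm.1 h6, Matrix.mul_one]
    _ = (kp l p * cQ P * R) * kp κ p := by simp only [Matrix.mul_assoc]
    _ = _ := by rw [h7]

/-! ### Hodge endomorphisms -/

/-- Hodge endomorphisms. -/
def IsHE (H : HData ι) (x : Matrix ι ι ℂ) : Prop :=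
  ∀ (σ : H.S) (t : ℂ), t ≠ 0 → H.l σ t * cQ x = cQ x * H.l σ t

lemma IsHE.itw {x : Matrix ι ι ℂ} (hx : IsHE H x) : IsItw H (κ := Unit) (l := Unit) (kp Unit x) := by
  intro σ t ht
  rw [← kp_cQ, ← kp_mul, ← kp_mul, hx σ t ht]

lemma IsHE.comm_ho {x : Matrix ι ι ℂ} (hx : IsHE H x) {z : Matrix ι ι ℂ} (hz : z ∈ ho H) :
    z * cQ x = cQ x * z := by
  have h1 := itw_dk hx.itw hz
  rw [dkU_eq, ← kp_cQ, ← kp_mul, ← kp_mul] at h1
  exact kpU_inj h1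

lemma IsHE.comm_fix {x : Matrix ι ι ℂ} (hx : IsHE H x) {p : Matrix ι ι ℂ}
    (hp : Fixes H p (Unit ⊕ Unit)) : p * cQ x = cQ x * p := by
  have h1 := itw_kp hx.itw hp hp
  rw [← kp_cQ, ← kp_mul, ← kp_mul] at h1
  exact kpU_inj h1

/-- Matrices commuting with the group. -/
lemma isHE_of {z : Matrix ι ι ℂ} (hz : ∀ g ∈ GG H, z * g = g * z) : IsHE H z :=
  fun σ _ ht => (hz _ (Submonoid.subset_closure (l_mem_gens H σ ht))).symm

/-- The commutant of the group is spanned by endomorphisms. -/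
lemma comm_span {z : Matrix ι ι ℂ} (hz : ∀ g ∈ GG H, z * g = g * z) :
    z ∈ Submodule.span ℂ (cQ '' {x | IsHE H x}) :=
  Submodule.subset_span ⟨z, isHE_of hz, rfl⟩

end Pool.Agent.L0h10.RP
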