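import Pool.Agent.L0h10.RP.Span
import Pool.Agent.N996.FP.Lie

/-!
# The Lie algebra of a Hodge structure
-/

set_option linter.unusedSectionVars false

namespace Pool.Agent.L0h10.RP

open Matrix Pool.Agent.N996.BP Pool.Agent.N996.FP ComplexConjugate

variable {ι : Type} [Fintype ι] [DecidableEq ι] (H : HData ι)

/-- The Lie algebra: the matrices which kill all Hodge classes. -/
def ho : Submodule ℂ (Matrix ι ι ℂ) where
  carrier := {x | ∀ (κ : Type) [Fintype κ] [DecidableEq κ], ∀ a ∈ BB H κ, dk κ x *ᵥ ca a = 0}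
  add_mem' {x y} hx hy κ _ _ a ha := by
    have h1 : dk κ (x + y) = dk κ x + dk κ y := (dkL κ).map_add x y
    rw [h1, Matrix.add_mulVec, hx κ a ha, hy κ a ha, add_zero]
  zero_mem' κ _ _ a _ := by
    have h1 : dk κ (0 : Matrix ι ι ℂ) = 0 := (dkL κ).map_zero
    rw [h1, Matrix.zero_mulVec]
  smul_mem' c x hx κ _ _ a ha := by
    have h1 : dk κ (c • x) = c • dk κ x := (dkL κ).map_smul c x
    rw [h1, Matrix.smul_mulVec, hx κ a ha, smul_zero]

/-- The group: the matrices which fix all Hodge classes. -/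
def So : Submonoid (Matrix ι ι ℂ) where
  carrier := {q | ∀ (κ : Type) [Fintype κ] [DecidableEq κ], Fixes H q κ}
  mul_mem' {x y} hx hy κ _ _ a ha := by
    rw [kp_mul, ← Matrix.mulVec_mulVec, hy κ a ha, hx κ a ha]
  one_mem' κ _ _ a _ := by rw [kp_one, Matrix.one_mulVec]

variable {H}

lemma ho_br {x y : Matrix ι ι ℂ} (hx : x ∈ ho H) (hy : y ∈ ho H) : br x y ∈ ho H := by
  intro κ _ _ a ha
  rw [dk_br, br, Matrix.sub_mulVec, ← Matrix.mulVec_mulVec, ← Matrix.mulVec_mulVec, hx κ a ha,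
    hy κ a ha, Matrix.mulVec_zero, Matrix.mulVec_zero, sub_self]

lemma So_inv {q q' : Matrix ι ι ℂ} (h : q * q' = 1) (hq : q ∈ So H) : q' ∈ So H :=
  fun κ _ _ => Fixes.of_inv (mul_eq_one_comm.1 h) (hq κ)

lemma So_ex_inv {q : Matrix ι ι ℂ} (hq : q ∈ So H) : ∃ q' ∈ So H, q * q' = 1 := by
  obtain ⟨q', _, h2⟩ := Fixes.inv (hq (Unit ⊕ Unit))
  exact ⟨q', So_inv h2 hq, h2⟩

lemma So_ad {q q' : Matrix ι ι ℂ} (h : q * q' = 1) (hq : q ∈ So H) {x : Matrix ι ι ℂ}
    (hx : x ∈ ho H) : q * x * q' ∈ ho H := by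
  intro κ _ _ a ha
  have h' : q' * q = 1 := mul_eq_one_comm.1 h
  have h1 : dk κ (q * x * q') * kp κ q = kp κ q * dk κ x := (kp_dk h' x).symm
  rw [← hq κ a ha, Matrix.mulVec_mulVec, h1, ← Matrix.mulVec_mulVec, hx κ a ha,
    Matrix.mulVec_zero]

lemma So_exp {x : Matrix ι ι ℂ} (hx : x ∈ ho H) : NormedSpace.exp x ∈ So H :=
  fun κ _ _ a ha => kp_exp_fix (hx κ a ha)

lemma GG_So {g : Matrix ι ι ℂ} (hg : g ∈ GG H) : g ∈ So H := fun _ _ _ _ ha => GG_fix H ha hg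

/-- Elements of the Lie algebra commute with the Hodge endomorphisms. -/
lemma ho_comm {z : Matrix ι ι ℂ} (hz : z ∈ ho H) {x : Matrix ι ι ℂ}
    (hx : ∀ (σ : H.S) (t : ℂ), t ≠ 0 → H.l σ t * cQ x = cQ x * H.l σ t) :
    z * cQ (x * H.Qir) + cQ (x * H.Qir) * zᵀ = 0 := by
  have h1 := hz (Unit ⊕ Unit) _ (arr_BB H (κ := Unit) (x := kp Unit x) fun σ t ht => by
    rw [← kp_cQ, ← kp_mul, ← kp_mul, hx σ t ht])
  have h2 := congrArg mat h1
  rw [mat_dk] at h2
  ext i j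
  have h3 := congrFun (congrFun h2 fun _ => i) fun _ => j
  have h4 : mat (ca (arr (kp Unit x * kp Unit H.Qir))) =
      (Matrix.of fun i j => cQ (x * H.Qir) (i ()) (j ())) := by
    ext u v
    rw [← kp_mul, mat_apply, ca, arr, kp_apply, Fintype.prod_unique]
    rfl
  rw [h4, Matrix.add_apply, Matrix.mul_apply, Matrix.mul_apply] at h3
  rw [Matrix.add_apply, Matrix.mul_apply, Matrix.mul_apply]
  simp only [dk_unit, Matrix.transpose_apply, Matrix.of_apply] at h3 ⊢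
  rw [← (Equiv.funUnique Unit ι).sum_comp, ← (Equiv.funUnique Unit ι).sum_comp]
  exact h3

lemma ho_skew {z : Matrix ι ι ℂ} (hz : z ∈ ho H) :
    z * cQ H.Qir + cQ H.Qir * zᵀ = 0 := by
  have h1 := ho_comm hz (x := 1) fun σ t _ => by rw [cQ_one, Matrix.mul_one, Matrix.one_mul]
  rwa [Matrix.one_mul] at h1

/-- Complex conjugation. -/
lemma ho_conj {z : Matrix ι ι ℂ} (hz : z ∈ ho H) : z.map conj ∈ ho H := by
  intro κ _ _ a ha
  have h1 : dk κ (z.map conj) = (dk κ z).map conj := by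
    ext i j
    rw [dk, dk, Matrix.sum_apply, Matrix.map_apply, Matrix.sum_apply, map_sum]
    refine Finset.sum_congr rfl fun k _ => ?_
    rw [slot_apply, slot_apply, map_mul, map_prod, Matrix.map_apply]
    congr 1
    refine Finset.prod_congr rfl fun m _ => ?_
    rw [Matrix.one_apply]
    split_ifs <;> simp
  funext i
  have h2 := congrArg conj (congrFun (hz κ _ (BB_conj H ha)) i)
  rw [Matrix.mulVec, dotProduct, map_sum] at h2
  rw [h1, Matrix.mulVec, dotProduct]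
  simp only [map_mul, ca, Complex.conj_conj, Matrix.map_apply, Pi.zero_apply, map_zero] at h2 ⊢
  exact h2

/-- The Weil operator preserves the invariant arrays. -/
lemma BB_C {κ : Type} [Fintype κ] [DecidableEq κ] {a : (κ → ι) → ℂ} (ha : a ∈ BB H κ) :
    kp κ (cR H.D.C) *ᵥ a ∈ BB H κ := by
  intro σ t ht
  obtain ⟨σ', hσ⟩ := H.l_C σ
  have h1 := ha σ' t ht
  rw [← hσ t, ca_eq] at h1
  have h2 : H.l σ t * cR H.D.C = cR H.D.C * (cR H.D.Ci * H.l σ t * cR H.D.C) := by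
    simp only [← Matrix.mul_assoc]
    rw [cR_C_Ci, Matrix.one_mul]
  rw [ca_eq, Matrix.mulVec_mulVec, ← kp_mul, h2, kp_mul, ← Matrix.mulVec_mulVec, h1]

/-- The Lie algebra is stable under the conjugation by the Weil operator. -/
lemma ho_C {z : Matrix ι ι ℂ} (hz : z ∈ ho H) : cR H.D.Ci * z * cR H.D.C ∈ ho H := by
  intro κ _ _ a ha
  have h1 := kp_dk (κ := κ) (cR_C_Ci H) z
  have h2 : dk κ (cR H.D.Ci * z * cR H.D.C) = kp κ (cR H.D.Ci) * dk κ z * kp κ (cR H.D.C) := by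
    rw [h1, Matrix.mul_assoc (dk κ _), ← kp_mul, cR_Ci_C, kp_one, Matrix.mul_one]
  rw [h2, ← Matrix.mulVec_mulVec, ← Matrix.mulVec_mulVec]
  have h3 := hz κ _ (BB_C ha)
  rw [ca_eq] at h3
  rw [ca_eq, h3, Matrix.mulVec_zero]

/-- The matrix of the scalar product. -/
noncomputable def Sc (H : HData ι) : Matrix ι ι ℂ := cQ H.Qr * cR H.D.C

/-- The adjoint. -/
lemma ho_adj {z : Matrix ι ι ℂ} (hz : z ∈ ho H) :
    cR H.D.Ci * cQ H.Qir * zᴴ * Sc H ∈ ho H := by
  have h1 := ho_conj hz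
  have h2 := ho_skew h1
  have hQQ : cQ H.Qr * cQ H.Qir = 1 := by rw [← cQ_mul, H.Qr_Qir, cQ_one]
  have hQQ' : cQ H.Qir * cQ H.Qr = 1 := mul_eq_one_comm.1 hQQ
  have h3 : zᴴ = (z.map conj)ᵀ := by
    ext i j; simp [Matrix.conjTranspose_apply]
  have h4 : cQ H.Qir * (z.map conj)ᵀ * cQ H.Qr = -(z.map conj) := by
    have h5 : cQ H.Qir * (z.map conj)ᵀ = -((z.map conj) * cQ H.Qir) := by
      rw [eq_neg_iff_add_eq_zero, add_comm]; exact h2
    rw [h5, Matrix.neg_mul, Matrix.mul_assoc, hQQ', Matrix.mul_one]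
  have h6 : cR H.D.Ci * cQ H.Qir * zᴴ * Sc H =
      -(cR H.D.Ci * (z.map conj) * cR H.D.C) := by
    rw [h3, Sc]
    calc cR H.D.Ci * cQ H.Qir * (z.map conj)ᵀ * (cQ H.Qr * cR H.D.C) =
        cR H.D.Ci * (cQ H.Qir * (z.map conj)ᵀ * cQ H.Qr) * cR H.D.C := by
          simp only [Matrix.mul_assoc]
      _ = _ := by rw [h4, Matrix.mul_neg, Matrix.neg_mul]
  rw [h6]
  exact Submodule.neg_mem _ (ho_C h1)

/-! ### The derivatives of the one-parameter groups -/

/-- The range of the weights. -/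
noncomputable def wr (H : HData ι) : Finset ℤ := Finset.Icc (-(H.w : ℤ)) (H.w : ℤ)

lemma isIdem_map (σ : H.S) : IsIdem (wr H) fun k => H.π σ k where
  one := H.h1 σ
  mul k hk l hl := H.hmul σ k hk l hl

/-- The generators. -/
lemma gen_eq (σ : H.S) (t : ℂ) :
    H.l σ t = ∑ k ∈ wr H, t ^ k • H.π σ k := rfl

/-- The derivative of a one-parameter group. -/
noncomputable def Ng (H : HData ι) (σ : H.S) : Matrix ι ι ℂ :=
  ∑ k ∈ wr H, (k : ℂ) • H.π σ k

lemma Ng_mem (σ : H.S) : Ng H σ ∈ ho H := by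
  intro κ _ _ a ha
  let g : ℝ → Matrix ι ι ℂ := fun s => ∑ k ∈ wr H, ((s : ℂ)) ^ k • H.π σ k
  have hfix : ∀ s : ℝ, s ≠ 0 → kp κ (g s) *ᵥ ca a = ca a := by
    intro s hs
    have hs' : (s : ℂ) ≠ 0 := by exact_mod_cast hs
    exact GG_fix H ha (Submonoid.subset_closure ⟨σ, (s : ℂ), hs', rfl⟩)
  have hg1 : g 1 = 1 := by
    simp only [g, Complex.ofReal_one, _root_.one_zpow, one_smul]
    exact (isIdem_map (H := H) σ).one
  have hd : ∀ i j, HasDerivAt (fun s => g s i j) ((Ng H σ) i j) 1 := by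
    intro i j
    have h1 := HasDerivAt.fun_sum (u := wr H)
      (A := fun k (s : ℝ) => ((s : ℂ)) ^ k * (H.π σ k) i j)
      (A' := fun k => (k : ℂ) * (H.π σ k) i j) (x := (1 : ℝ)) fun k _ => by
        have h2 := (hasDerivAt_zpow k (((1 : ℝ) : ℂ)) (Or.inl (by simp))).comp_ofReal
        have h3 := h2.mul_const ((H.π σ k) i j)
        simpa using h3
    have e1 : (fun s => g s i j) = fun s : ℝ => ∑ k ∈ wr H, ((s : ℂ)) ^ k * (H.π σ k) i j := by
      funext s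
      simp only [g]
      rw [Matrix.sum_apply]
      rfl
    have e2 : (Ng H σ) i j = ∑ k ∈ wr H, (k : ℂ) * (H.π σ k) i j := by
      rw [Ng, Matrix.sum_apply]
      rfl
    rw [e1, e2]
    exact h1
  funext i
  have h1 := hasDerivAt_kpv (κ := κ) hg1 hd (ca a) i
  have h2 : HasDerivAt (fun s => (kp κ (g s) *ᵥ ca a) i) 0 1 := by
    refine (hasDerivAt_const (1 : ℝ) (ca a i)).congr_of_eventuallyEq ?_
    filter_upwards [isOpen_ne.mem_nhds (show (1 : ℝ) ≠ 0 by norm_num)] with s hs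
    rw [hfix s hs]
  exact h1.unique h2

/-- Subspaces stable under the Lie algebra are stable under the group. -/
lemma GG_stable {κ : Type} [Fintype κ] [DecidableEq κ] {W : Submodule ℂ ((κ → ι) → ℂ)}
    (hW : ∀ z ∈ ho H, ∀ v ∈ W, dk κ z *ᵥ v ∈ W) {g : Matrix ι ι ℂ} (hg : g ∈ GG H) :
    ∀ v ∈ W, kp κ g *ᵥ v ∈ W := by
  induction hg using Submonoid.closure_induction with
  | mem x hx =>
    obtain ⟨σ, t, ht, rfl⟩ := hx
    intro v hv
    rw [gen_eq, ← Fd_kp ht]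
    exact Fd_mem (isIdem_map σ) (hW _ (Ng_mem σ)) _ hv
  | one => intro v hv; rwa [kp_one, Matrix.one_mulVec]
  | mul x y _ _ hx hy =>
    intro v hv
    rw [kp_mul, ← Matrix.mulVec_mulVec]
    exact hx _ (hy _ hv)

lemma GA_stable {κ : Type} [Fintype κ] [DecidableEq κ] {W : Submodule ℂ ((κ → ι) → ℂ)}
    (hW : ∀ z ∈ ho H, ∀ v ∈ W, dk κ z *ᵥ v ∈ W) {x : Matrix (κ → ι) (κ → ι) ℂ}
    (hx : x ∈ GA H κ) : ∀ v ∈ W, x *ᵥ v ∈ W := by
  have hx' : x ∈ Subalgebra.toSubmodule (GA H κ) := hx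
  rw [GA_eq_span] at hx'
  clear hx
  intro v hv
  induction hx' using Submodule.span_induction with
  | mem x hx =>
    obtain ⟨g, hg, rfl⟩ := hx
    exact GG_stable hW hg v hv
  | zero => rw [Matrix.zero_mulVec]; exact Submodule.zero_mem _
  | add x y _ _ hx hy => rw [Matrix.add_mulVec]; exact Submodule.add_mem _ hx hy
  | smul c x _ hx => rw [Matrix.smul_mulVec]; exact Submodule.smul_mem _ _ hx

/-- Matrices commuting with the Lie algebra commute with the group. -/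
lemma comm_GG {z : Matrix ι ι ℂ} (hz : ∀ w ∈ ho H, z * w = w * z) {g : Matrix ι ι ℂ}
    (hg : g ∈ GG H) : z * g = g * z := by
  induction hg using Submonoid.closure_induction with
  | mem x hx =>
    obtain ⟨σ, t, ht, rfl⟩ := hx
    rw [gen_eq, Finset.mul_sum, Finset.sum_mul]
    refine Finset.sum_congr rfl fun k hk => ?_
    rw [Matrix.mul_smul, Matrix.smul_mul]
    congr 1
    exact comm_idem (isIdem_map (H := H) σ) (hz _ (Ng_mem σ)) hk
  | one => rw [Matrix.mul_one, Matrix.one_mul]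
  | mul x y _ _ hx hy => rw [← Matrix.mul_assoc, hx, Matrix.mul_assoc, hy, Matrix.mul_assoc]

end Pool.Agent.L0h10.RP
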