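import Pool.Agent.L0h10.RP.HData
import Pool.Agent.N996.BP.Member

/-!
# Matrices fixing the invariant arrays of small degree are combinations of elements of the group
-/

set_option linter.unusedSectionVars false

namespace Pool.Agent.L0h10.RP

open Matrix ComplexConjugate Pool.Agent.N996.BP

variable {ι : Type} [Fintype ι] [DecidableEq ι] (H : HData ι)

lemma cR_Q : cR H.D.Q = cQ H.Qr := rfl

lemma cR_C_Ci : cR H.D.C * cR H.D.Ci = 1 := by rw [← cR_mul, H.D.hC, cR_one]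

lemma cR_Ci_C : cR H.D.Ci * cR H.D.C = 1 := by rw [← cR_mul, H.D.hC', cR_one]

lemma l_mem_gens (σ : H.S) {t : ℂ} (ht : t ≠ 0) : H.l σ t ∈ gens H := ⟨σ, t, ht, rfl⟩

/-- Inverses of generators. -/
lemma gens_inv {g : Matrix ι ι ℂ} (hg : g ∈ gens H) :
    ∃ g' ∈ gens H, g' * g = 1 ∧ gᵀ * cQ H.Qr = cQ H.Qr * g' := by
  obtain ⟨σ, t, ht, rfl⟩ := hg
  exact ⟨H.l σ t⁻¹, ⟨σ, t⁻¹, inv_ne_zero ht, rfl⟩, H.l_inv' σ ht, H.l_tr σ ht⟩

/-- Complex conjugates of generators. -/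
lemma gens_conj {g : Matrix ι ι ℂ} (hg : g ∈ gens H) : g.map conj ∈ gens H := by
  obtain ⟨σ, t, ht, rfl⟩ := hg
  obtain ⟨σ', hσ⟩ := H.l_conj σ
  exact ⟨σ', _, inv_ne_zero fun h => ht ((map_eq_zero (starRingEnd ℂ)).1 h), hσ t ht⟩

/-- Conjugates of generators by the Weil operator. -/
lemma gens_C {g : Matrix ι ι ℂ} (hg : g ∈ gens H) :
    cR H.D.Ci * g * cR H.D.C ∈ gens H := by
  obtain ⟨σ, t, ht, rfl⟩ := hg
  obtain ⟨σ', hσ⟩ := H.l_C σ
  exact ⟨σ', t, ht, hσ t⟩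

/-- The algebra spanned by the Kronecker powers of the elements of the group. -/
noncomputable def GA (κ : Type) [Fintype κ] [DecidableEq κ] :
    Subalgebra ℂ (Matrix (κ → ι) (κ → ι) ℂ) :=
  Algebra.adjoin ℂ (kp κ '' (GG H : Set (Matrix ι ι ℂ)))

variable {H} {κ : Type} [Fintype κ] [DecidableEq κ]

lemma GA_eq_span : Subalgebra.toSubmodule (GA H κ) =
    Submodule.span ℂ (kp κ '' (GG H : Set (Matrix ι ι ℂ))) := by
  let f : Matrix ι ι ℂ →* Matrix (κ → ι) (κ → ι) ℂ :=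
    { toFun := kp κ, map_one' := kp_one, map_mul' := kp_mul }
  have h1 : kp κ '' (GG H : Set (Matrix ι ι ℂ)) = ((GG H).map f : Set _) := rfl
  rw [GA, Algebra.adjoin_eq_span, h1, Submonoid.closure_eq]

lemma kp_mem_GA {g : Matrix ι ι ℂ} (hg : g ∈ GG H) : kp κ g ∈ GA H κ :=
  Algebra.subset_adjoin ⟨g, hg, rfl⟩

lemma kp_conjTranspose (g : Matrix ι ι ℂ) : (kp κ g)ᴴ = kp κ gᴴ := by
  ext i j
  simp [kp_apply, Matrix.conjTranspose_apply]

/-- The matrix of the hermitian form. -/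
lemma Z_eq : cQ H.Qr * cR H.D.C = cR H.D.S := by
  rw [← cR_Q, ← cR_mul, H.D.S_eq]

/-- The adjoint of an element of the algebra belongs to the algebra. -/
lemma GA_star {x : Matrix (κ → ι) (κ → ι) ℂ} (hx : x ∈ GA H κ) :
    ∃ y ∈ GA H κ, (kp κ (cR H.D.M))ᴴ * kp κ (cR H.D.M) * x =
      yᴴ * ((kp κ (cR H.D.M))ᴴ * kp κ (cR H.D.M)) := by
  obtain ⟨Z, hZ⟩ : ∃ Z, Z = cQ H.Qr * cR H.D.C := ⟨_, rfl⟩
  have hZS : Z = cR H.D.S := by rw [hZ, Z_eq]
  have hZH : Zᴴ = Z := by rw [hZS, cR_conjTranspose, H.D.S_tr]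
  have hS : (kp κ (cR H.D.M))ᴴ * kp κ (cR H.D.M) = kp κ Z := by
    rw [kp_conjTranspose, ← kp_mul, hZS, cR_conjTranspose, ← cR_mul, RData.S]
  rw [hS]
  have hkZ : (kp κ Z)ᴴ = kp κ Z := by rw [kp_conjTranspose, hZH]
  -- generators
  have hgen : ∀ g ∈ gens H, ∃ y ∈ GG H, Z * g = yᴴ * Z := by
    intro g hg
    obtain ⟨h, hh, hhg, hgQ⟩ := gens_inv H (gens_conj H hg)
    refine ⟨cR H.D.Ci * h * cR H.D.C, Submonoid.subset_closure (gens_C H hh), ?_⟩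
    have h1 : gᴴ = (g.map conj)ᵀ := by
      ext i j; simp [Matrix.conjTranspose_apply]
    have h2 : Z * (cR H.D.Ci * h * cR H.D.C) = gᴴ * Z := by
      calc Z * (cR H.D.Ci * h * cR H.D.C) =
          cQ H.Qr * (cR H.D.C * cR H.D.Ci) * h * cR H.D.C := by
            rw [hZ]; simp only [Matrix.mul_assoc]
        _ = (cQ H.Qr * h) * cR H.D.C := by
            rw [cR_C_Ci, Matrix.mul_one]
        _ = _ := by rw [← hgQ, h1, hZ, Matrix.mul_assoc]
    have h3 : (Z * (cR H.D.Ci * h * cR H.D.C))ᴴ = (gᴴ * Z)ᴴ := by rw [h2]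
    rw [Matrix.conjTranspose_mul Z, Matrix.conjTranspose_mul gᴴ, hZH,
      Matrix.conjTranspose_conjTranspose] at h3
    exact h3.symm
  have hgrp : ∀ g ∈ GG H, ∃ y ∈ GG H, Z * g = yᴴ * Z := by
    intro g hg
    induction hg using Submonoid.closure_induction with
    | mem x hx => exact hgen x hx
    | one => exact ⟨1, Submonoid.one_mem _, by simp⟩
    | mul x y _ _ hx hy =>
      obtain ⟨a, ha, ha'⟩ := hx
      obtain ⟨b, hb, hb'⟩ := hy
      refine ⟨b * a, Submonoid.mul_mem _ hb ha, ?_⟩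
      rw [← Matrix.mul_assoc, ha', Matrix.mul_assoc, hb', Matrix.conjTranspose_mul,
        Matrix.mul_assoc]
  have hx' : x ∈ Subalgebra.toSubmodule (GA H κ) := hx
  rw [GA_eq_span] at hx'
  clear hx
  induction hx' using Submodule.span_induction with
  | mem x hx =>
    obtain ⟨g, hg, rfl⟩ := hx
    obtain ⟨y, hy, h⟩ := hgrp g hg
    refine ⟨kp κ y, kp_mem_GA hy, ?_⟩
    rw [kp_conjTranspose, ← kp_mul, ← kp_mul, h]
  | zero => exact ⟨0, Subalgebra.zero_mem _, by simp⟩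
  | add x y hx hy ihx ihy =>
    obtain ⟨a, ha, ha'⟩ := ihx
    obtain ⟨b, hb, hb'⟩ := ihy
    exact ⟨a + b, Subalgebra.add_mem _ ha hb, by
      rw [Matrix.mul_add, ha', hb', Matrix.conjTranspose_add, Matrix.add_mul]⟩
  | smul c x hx ihx =>
    obtain ⟨a, ha, ha'⟩ := ihx
    refine ⟨star c • a, Subalgebra.smul_mem _ ha _, ?_⟩
    rw [Matrix.mul_smul, ha', Matrix.conjTranspose_smul, star_star, Matrix.smul_mul]

/-- A matrix fixing the invariant arrays of degree `2 |κ|` is a combination of elements of the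
group. -/
theorem mem_GA {p : Matrix ι ι ℂ} (hp : ∀ a ∈ BB H (κ ⊕ κ), kp (κ ⊕ κ) p *ᵥ ca a = ca a) :
    kp κ p ∈ GA H κ := by
  classical
  have hMi : kp κ (cR H.D.Mi) * kp κ (cR H.D.M) = 1 := by
    rw [← kp_mul, ← cR_mul, H.D.hM', cR_one, kp_one]
  refine mem_of_commutes (GA H κ) (kp κ (cR H.D.M)) (kp κ (cR H.D.Mi)) hMi
    (fun x hx => GA_star hx) _ ?_
  -- the inverse of the form
  have hQQ : cQ (kp κ H.Qr) * cQ (kp κ H.Qir) = 1 := by
    rw [← cQ_mul, kp_inv_mul H.Qr_Qir, cQ_one]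
  have hQQ' : cQ (kp κ H.Qir) * cQ (kp κ H.Qr) = 1 := mul_eq_one_comm.1 hQQ
  obtain ⟨P, hP⟩ : ∃ P, P = kp κ p := ⟨_, rfl⟩
  have hcore : ∀ x : Matrix (κ → ι) (κ → ι) ℂ,
      (∀ (σ : H.S) (t : ℂ), t ≠ 0 → kp κ (H.l σ t) * cQ x = cQ x * kp κ (H.l σ t)) →
      P * cQ x * cQ (kp κ H.Qir) * Pᵀ = cQ x * cQ (kp κ H.Qir) := by
    intro x hx
    have h1 := hp _ (arr_BB H hx)
    have h0 : ca (arr (x * kp κ H.Qir)) = arr (cQ (x * kp κ H.Qir)) := rfl
    rw [h0, kp_arr, cQ_mul] at h1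
    have h2 := congrArg mat h1
    rw [mat_arr, mat_arr, ← hP, ← Matrix.mul_assoc] at h2
    exact h2
  have hP1 : P * cQ (kp κ H.Qir) * Pᵀ = cQ (kp κ H.Qir) := by
    have := hcore 1 (fun σ t _ => by rw [cQ_one, Matrix.mul_one, Matrix.one_mul])
    rwa [cQ_one, Matrix.mul_one, Matrix.one_mul] at this
  have hP2 : P * (cQ (kp κ H.Qir) * Pᵀ * cQ (kp κ H.Qr)) = 1 := by
    calc P * (cQ (kp κ H.Qir) * Pᵀ * cQ (kp κ H.Qr)) =
        (P * cQ (kp κ H.Qir) * Pᵀ) * cQ (kp κ H.Qr) := by simp only [Matrix.mul_assoc]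
      _ = 1 := by rw [hP1, hQQ']
  have hP3 : (cQ (kp κ H.Qir) * Pᵀ * cQ (kp κ H.Qr)) * P = 1 := mul_eq_one_comm.1 hP2
  have hrat : ∀ x : Matrix (κ → ι) (κ → ι) ℂ,
      (∀ (σ : H.S) (t : ℂ), t ≠ 0 → kp κ (H.l σ t) * cQ x = cQ x * kp κ (H.l σ t)) →
      P * cQ x = cQ x * P := by
    intro x hx
    have h1 := hcore x hx
    calc P * cQ x = P * cQ x * ((cQ (kp κ H.Qir) * Pᵀ * cQ (kp κ H.Qr)) * P) := by
          rw [hP3, Matrix.mul_one]
      _ = (P * cQ x * cQ (kp κ H.Qir) * Pᵀ) * cQ (kp κ H.Qr) * P := by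
          simp only [Matrix.mul_assoc]
      _ = cQ x * (cQ (kp κ H.Qir) * cQ (kp κ H.Qr)) * P := by
          rw [h1]; simp only [Matrix.mul_assoc]
      _ = _ := by rw [hQQ', Matrix.mul_one]
  intro x hx
  rw [← hP]
  exact hrat x fun σ t ht => (hx _ (kp_mem_GA (Submonoid.subset_closure (l_mem_gens H σ ht)))).symm

/-! ### Matrices fixing the invariant arrays -/

/-- The matrix fixes the invariant arrays with index type `κ`. -/
def Fixes (H : HData ι) (p : Matrix ι ι ℂ) (κ : Type) [Fintype κ] [DecidableEq κ] : Prop :=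
  ∀ a ∈ BB H κ, kp κ p *ᵥ ca a = ca a

lemma Fixes.inv {p : Matrix ι ι ℂ} (hp : Fixes H p (Unit ⊕ Unit)) :
    ∃ p' : Matrix ι ι ℂ, p' * p = 1 ∧ p * p' = 1 := by
  have h1 := hp _ (arr_BB H (x := 1) fun σ t _ => by
    rw [cQ_one, Matrix.mul_one, Matrix.one_mul])
  have h0 : ca (arr ((1 : Matrix (Unit → ι) (Unit → ι) ℂ) * kp Unit H.Qir)) =
      arr (kp Unit (cQ H.Qir)) := by
    rw [Matrix.one_mul, kp_cQ]
    rfl
  rw [h0, kp_arr, ← kp_transpose, ← kp_mul, ← kp_mul] at h1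
  have h2 := congrArg mat h1
  rw [mat_arr, mat_arr] at h2
  have h3 : p * cQ H.Qir * pᵀ = cQ H.Qir := by
    ext i j
    have h4 := congrFun (congrFun h2 fun _ => i) fun _ => j
    rw [kp_apply, kp_apply, Fintype.prod_unique, Fintype.prod_unique] at h4
    exact h4
  have hQQ : cQ H.Qr * cQ H.Qir = 1 := by
    rw [← cQ_mul, H.Qr_Qir, cQ_one]
  have h5 : p * (cQ H.Qir * pᵀ * cQ H.Qr) = 1 := by
    calc p * (cQ H.Qir * pᵀ * cQ H.Qr) = (p * cQ H.Qir * pᵀ) * cQ H.Qr := by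
          simp only [Matrix.mul_assoc]
      _ = 1 := by rw [h3]; exact mul_eq_one_comm.1 hQQ
  exact ⟨_, mul_eq_one_comm.1 h5, h5⟩

lemma Fixes.of_inv {p p' : Matrix ι ι ℂ} (h : p' * p = 1) {κ : Type} [Fintype κ] [DecidableEq κ]
    (hp : Fixes H p κ) : Fixes H p' κ := by
  intro a ha
  conv_lhs => rw [← hp a ha]
  rw [Matrix.mulVec_mulVec, ← kp_mul, h, kp_one, Matrix.one_mulVec]

/-- The basis vector of weight zero is invariant. -/
lemma uni_BB (κ : Type) [Fintype κ] [DecidableEq κ] : uni ℂ H.D.o κ ∈ BB H κ := by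
  intro σ t ht
  have h1 : ca (uni ℂ H.D.o κ) = uni ℂ H.D.o κ := rfl
  rw [h1, kp_uni]
  ext i
  rw [uni]
  exact Finset.prod_congr rfl fun k _ => H.ho σ t ht (i k)

end Pool.Agent.L0h10.RP
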