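import Pool.Agent.L0h10.RP.Wdh
import Pool.Agent.N996.FP.Wcw

/-!
# The cosets of the root lattice and the values of the characters
-/

set_option linter.unusedSectionVars false

namespace Pool.Agent.L0h10.RP

open Matrix Pool.Agent.N996.BP Pool.Agent.N996.FP ComplexConjugate ComplexOrder

variable {ι : Type} [Fintype ι] [DecidableEq ι] {H : HData ι}

/-- The centre of the commutant consists of central endomorphisms. -/
lemma c_span {z : Matrix ι ι ℂ} (hzc : ∀ g ∈ GG H, z * g = g * z)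
    (hze : ∀ x : Matrix ι ι ℂ, IsHE H x → z * cQ x = cQ x * z) :
    z ∈ Submodule.span ℂ (cQ '' {x | IsC H x}) :=
  Submodule.subset_span ⟨z, ⟨isHE_of hzc, fun y hy => hze y hy⟩, rfl⟩

/-- The projector to a coset. -/
lemma exists_projH {x : Matrix ι ι ℂ} (hx : IsReg (hn H) x) (T₀ : Matrix ι ι ℂ) :
    ∃ y : Matrix ι ι ℂ, (∀ w ∈ hn H, y * w = w * y) ∧
      cj H y ∈ Submodule.span ℂ (cQ '' {x | IsC H x}) ∧
      ∀ (v : ι → ℂ) (T : Matrix ι ι ℂ), v ≠ 0 → IsWt (hn H) x v T →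
        (T - T₀ ∈ QL (hn H) x → y *ᵥ v = v) ∧ (T - T₀ ∉ QL (hn H) x → y *ᵥ v = 0) := by
  obtain ⟨y, hy1, hy2, hy3⟩ := exists_coset (isLA_hn H) hx T₀
  have hZ : IsZ H y := ⟨hy2, fun y' hy' => hy1 y' (hy' x hx.mem).symm⟩
  exact ⟨y, hy2, c_span hZ.comm_GG fun x hx => hZ.comm_HE hx, hy3⟩

variable {x z : Matrix ι ι ℂ} {n : ℕ}

/-- **Self-adjoint centres.** -/
theorem two_memH (hR : ∀ y, IsC H y → cQ y * cQ H.Qir = cQ H.Qir * (cQ y)ᵀ)
    (hx : IsReg (hn H) x) (B : Bz (hn H) x z ⊤ n) (k : Fin n) :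
    2 • B.T k ∈ QL (hn H) x := by
  obtain ⟨y, hy1, hy2, hy3⟩ := exists_projH hx (B.T k)
  have key : ∀ Y ∈ Submodule.span ℂ (cQ '' {x | IsC H x}),
      Y * cQ H.Qir = cQ H.Qir * Yᵀ := by
    intro Y hY
    induction hY using Submodule.span_induction with
    | mem x hx =>
      obtain ⟨x, hx, rfl⟩ := hx
      exact hR x hx
    | zero => rw [Matrix.zero_mul, Matrix.transpose_zero, Matrix.mul_zero]
    | add a b _ _ ha hb => rw [Matrix.add_mul, Matrix.transpose_add, Matrix.mul_add, ha, hb]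
    | smul c a _ ha => rw [Matrix.smul_mul, Matrix.transpose_smul, Matrix.mul_smul, ha]
  have hadj := key _ hy2
  obtain ⟨σ, hσ⟩ := exists_perm B
  have hj := hσ k
  have h1 := pair_wt2 hx B hj
  have h2 := qf_adj (H := H) hadj (B.v (σ k) : ι → ℂ) (B.v k : ι → ℂ)
  have h3 : y *ᵥ (B.v k : ι → ℂ) = B.v k :=
    (hy3 _ _ (B.v_ne k) (B.wt k)).1 (by rw [sub_self]; exact (QL _ x).zero_mem)
  have h4 : B.T (σ k) - B.T k ∈ QL (hn H) x := by
    by_contra hcon
    rw [(hy3 _ _ (B.v_ne (σ k)) (B.wt (σ k))).2 hcon, qf_zero_left, h3] at h2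
    exact hj h2.symm
  have h5 : 2 • B.T k = -(B.T (σ k) - B.T k) := by
    rw [eq_neg_of_add_eq_zero_left h1, two_nsmul]
    abel
  rw [h5]
  exact (QL _ x).neg_mem h4

/-! ### The characters of the cosets -/

/-- The cosets are stable. -/
lemma stab_cosetH (hx : IsReg (hn H) x) (B : Bz (hn H) x z ⊤ n) {k : Fin n}
    {S : Finset (Fin n)} (hS : ∀ i, i ∈ S ↔ B.T i - B.T k ∈ QL (hn H) x) {w : Matrix ι ι ℂ}
    (hw : w ∈ hn H) {j : Fin n} (hj : j ∈ S) {i : Fin n} (hi : i ∉ S) :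
    B.bas.repr ⟨w *ᵥ (B.v j : ι → ℂ), memTop _ (B.v j).2⟩ i = 0 := by
  classical
  obtain ⟨y, hy1, -, hy3⟩ := exists_projH hx (B.T k)
  have hyS : ∀ i ∈ S, y *ᵥ (B.v i : ι → ℂ) = B.v i := fun i hi =>
    (hy3 _ _ (B.v_ne i) (B.wt i)).1 ((hS i).1 hi)
  have hyS' : ∀ i, i ∉ S → y *ᵥ (B.v i : ι → ℂ) = 0 := fun i hi =>
    (hy3 _ _ (B.v_ne i) (B.wt i)).2 fun h => hi ((hS i).2 h)
  by_contra hne
  have h1 := B.coef (y := y) (c' := fun i => if i ∈ S then 1 else 0) (fun i => by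
    by_cases hi : i ∈ S
    · rw [if_pos hi, one_smul, hyS i hi]
    · rw [if_neg hi, zero_smul, hyS' i hi])
    (u := ⟨w *ᵥ (B.v j : ι → ℂ), memTop _ (B.v j).2⟩)
    (d := 1) (by
      change y *ᵥ (w *ᵥ (B.v j : ι → ℂ)) = _
      rw [Matrix.mulVec_mulVec, hy1 _ hw, ← Matrix.mulVec_mulVec, hyS j hj, one_smul]) i hne
  rw [if_neg hi] at h1
  exact zero_ne_one h1

/-- The Lie algebra acts on the top exterior power of a coset by a character. -/
lemma delta_actH (hz : ∀ w ∈ hn H, z * w = w * z)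
    (hx : IsReg (hn H) x) (B : Bz (hn H) x z ⊤ n) {k : Fin n}
    {S : Finset (Fin n)} (hS : ∀ i, i ∈ S ↔ B.T i - B.T k ∈ QL (hn H) x) {w : Matrix ι ι ℂ}
    (hw : w ∈ hn H) : dk (Fin S.card) w *ᵥ wS B.v S =
      ((∑ j ∈ S, B.T j) * w).trace • wS B.v S := by
  have hcomm : x * (∑ j ∈ S, B.T j) = (∑ j ∈ S, B.T j) * x := by
    rw [Finset.mul_sum, Finset.sum_mul]
    exact Finset.sum_congr rfl fun j _ => (B.wt j).mem.2
  refine ad_ind hx.herm (h := hn H) (fun z hz => (isLA_hn H).lie x hx.mem z hz)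
    (P := fun w => dk (Fin S.card) w *ᵥ wS B.v S =
      ((∑ j ∈ S, B.T j) * w).trace • wS B.v S) ?_ ?_ ?_ hw
  · have h0 : dk (Fin S.card) (0 : Matrix ι ι ℂ) = 0 := (dkL (Fin S.card)).map_zero
    rw [h0, Matrix.zero_mulVec, Matrix.mul_zero, Matrix.trace_zero, zero_smul]
  · intro a b ha hb
    have h0 : dk (Fin S.card) (a + b) = dk (Fin S.card) a + dk (Fin S.card) b :=
      (dkL (Fin S.card)).map_add a b
    rw [h0, Matrix.add_mulVec, ha, hb, Matrix.mul_add, Matrix.trace_add, add_smul]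
  · intro a w hw hwa
    by_cases ha : a = 0
    · subst ha
      rw [Complex.ofReal_zero, zero_smul, sub_eq_zero] at hwa
      rw [wS_eig S memTop (s := fun i => (B.T i * w).trace) fun j =>
        (B.wt j).val w ⟨hw, hwa⟩, Finset.sum_mul, Matrix.trace_sum]
    · have h1 : ((∑ j ∈ S, B.T j) * w).trace = 0 := by
        have h2 : ((∑ j ∈ S, B.T j) * (x * w - w * x)).trace = 0 := by
          rw [Matrix.mul_sub, Matrix.trace_sub, ← Matrix.mul_assoc, ← hcomm, Matrix.mul_assoc,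
            Matrix.trace_mul_comm x, Matrix.mul_assoc, sub_self]
        rw [hwa, Matrix.mul_smul, Matrix.trace_smul, smul_eq_mul] at h2
        exact (mul_eq_zero.1 h2).resolve_left (by exact_mod_cast ha)
      rw [h1, zero_smul]
      refine wS_zero S memTop fun j hj => ?_
      refine Submodule.span_mono ?_
        (B.root_span (isLA_hn H) hx hz (fun w hw v hv => trivial) ha hw hwa j)
      rintro _ ⟨i, ⟨hi1, hi2⟩, rfl⟩
      refine ⟨i, ⟨(hS i).2 ?_, ?_⟩, rfl⟩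
      · have := (QL _ x).add_mem hi2 ((hS j).1 hj)
        rwa [sub_add_sub_cancel] at this
      · rintro rfl
        apply ha
        linarith

/-- The characters are orthogonal to the roots. -/
lemma char_rootH (hz : ∀ w ∈ hn H, z * w = w * z)
    (hx : IsReg (hn H) x) (B : Bz (hn H) x z ⊤ n) {k : Fin n}
    {S : Finset (Fin n)} (hS : ∀ i, i ∈ S ↔ B.T i - B.T k ∈ QL (hn H) x) {q : Matrix ι ι ℂ}
    (hq : q ∈ QL (hn H) x) : ((∑ j ∈ S, B.T j) * q).trace = 0 := by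
  induction hq using AddSubgroup.closure_induction with
  | mem q hq =>
    obtain ⟨e, he, rfl⟩ := hq
    have heH := (isLA_hn H).star _ he.mem
    have hhe : br e eᴴ = nsq e • Rt e := by
      rw [Rt, smul_smul, mul_inv_cancel₀ (nsq_pos he.ne).ne', one_smul]
    have hbr : dk (Fin S.card) (br e eᴴ) = br (dk (Fin S.card) e) (dk (Fin S.card) eᴴ) :=
      dk_br (κ := Fin S.card) e eᴴ
    have h1 : dk (Fin S.card) (br e eᴴ) *ᵥ wS B.v S = 0 := by
      rw [hbr, br, Matrix.sub_mulVec, ← Matrix.mulVec_mulVec, ← Matrix.mulVec_mulVec,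
        delta_actH hz hx B hS he.mem, delta_actH hz hx B hS heH,
        Matrix.mulVec_smul, Matrix.mulVec_smul, delta_actH hz hx B hS he.mem,
        delta_actH hz hx B hS heH, smul_smul, smul_smul, mul_comm, sub_self]
    have hsm : dk (Fin S.card) (nsq e • Rt e) = nsq e • dk (Fin S.card) (Rt e) :=
      (dkL (Fin S.card)).map_smul _ _
    rw [hhe, hsm, Matrix.smul_mulVec, delta_actH hz hx B hS (he.ct (isLA_hn H) hx).1,
      smul_smul] at h1
    rcases smul_eq_zero.1 h1 with h2 | h2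
    · exact (mul_eq_zero.1 h2).resolve_left (nsq_pos he.ne).ne'
    · exact absurd h2 (wS_ne B.li S)
  | zero => rw [Matrix.mul_zero, Matrix.trace_zero]
  | add a b _ _ ha hb => rw [Matrix.mul_add, Matrix.trace_add, ha, hb, add_zero]
  | neg a _ ha => rw [Matrix.mul_neg, Matrix.trace_neg, ha, neg_zero]

/-- **Relations between the characters.** -/
lemma char_relH (hz : ∀ w ∈ hn H, z * w = w * z)
    (hx : IsReg (hn H) x) (B : Bz (hn H) x z ⊤ n)
    {S : Fin n → Finset (Fin n)} (hS : ∀ k i, i ∈ S k ↔ B.T i - B.T k ∈ QL (hn H) x)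
    (y : Fin n → ℕ) (hy : ∀ σ : H.S, ∑ k, (y k : ℂ) *
      ((∑ j ∈ S k, B.T j) * cji H (Ng H σ)).trace = 0) :
    ∑ k, (y k : ℂ) • ∑ j ∈ S k, B.T j = 0 := by
  let R := Σ k : Fin n, Fin (y k)
  let κ := Σ r : R, Fin (S r.1).card
  obtain ⟨δ, hδ⟩ : ∃ δ : (κ → ι) → ℂ, δ = bt fun r : R => wS B.v (S r.1) := ⟨_, rfl⟩
  have hδ0 : δ ≠ 0 := by
    rw [hδ]
    exact bt_ne fun r => wS_ne B.li _
  have hact : ∀ w ∈ hn H, dk κ w *ᵥ δ =
      (∑ k, (y k : ℂ) * ((∑ j ∈ S k, B.T j) * w).trace) • δ := by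
    intro w hw
    have h1 := dk_bt_eig (w := w) (p := fun r : R => wS B.v (S r.1))
      (s := fun r => ((∑ j ∈ S r.1, B.T j) * w).trace) fun r =>
        delta_actH hz hx B (hS r.1) hw
    rw [hδ, h1]
    congr 1
    rw [Fintype.sum_sigma]
    refine Finset.sum_congr rfl fun k _ => ?_
    change ∑ _ : Fin (y k), ((∑ j ∈ S k, B.T j) * w).trace = _
    rw [Finset.sum_const, Finset.card_univ, Fintype.card_fin, nsmul_eq_mul]
  have hker : ∀ w ∈ ho H, dk κ w *ᵥ (kp κ (Mi H) *ᵥ δ) = 0 := by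
    intro w hw
    refine ho_of_fixT (fun g hg => fix_of_NgT (fun σ => ?_) hg) hw
    have hN : cji H (Ng H σ) ∈ hn H := by rw [mem_hn, cj_cji]; exact Ng_mem σ
    have h2 := hact _ hN
    rw [hy σ, zero_smul] at h2
    have h3 : dk κ (Ng H σ) * kp κ (Mi H) = kp κ (Mi H) * dk κ (cji H (Ng H σ)) := by
      have h4 := dk_cj_Mm (κ := κ) H (cji H (Ng H σ))
      have h5 : dk κ (cji H (Ng H σ)) * kp κ (Mm H) = kp κ (Mm H) * dk κ (Ng H σ) := by
        rw [h4, cj_cji]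
      calc dk κ (Ng H σ) * kp κ (Mi H) =
          (kp κ (Mi H) * kp κ (Mm H)) * dk κ (Ng H σ) * kp κ (Mi H) := by
            rw [← kp_mul, Mi_Mm, kp_one, Matrix.one_mul]
        _ = kp κ (Mi H) * (kp κ (Mm H) * dk κ (Ng H σ)) * kp κ (Mi H) := by
            simp only [Matrix.mul_assoc]
        _ = kp κ (Mi H) * dk κ (cji H (Ng H σ)) * (kp κ (Mm H) * kp κ (Mi H)) := by
            rw [← h5]; simp only [Matrix.mul_assoc]
        _ = _ := by rw [← kp_mul, Mm_Mi, kp_one, Matrix.mul_one]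
    rw [Matrix.mulVec_mulVec, h3, ← Matrix.mulVec_mulVec, h2, Matrix.mulVec_zero]
  refine ct_nondeg (isLA_hn H) hx.herm (Submodule.sum_mem _ fun k _ => Submodule.smul_mem _ _
    (Submodule.sum_mem _ fun i _ => (B.wt i).mem)) fun t ht => ?_
  have h1 := hact t ht.1
  have h2 := hker (cj H t) ht.1
  have h3 : dk κ t *ᵥ δ = 0 := by
    have h4 := dk_cj_Mm (κ := κ) H t
    have h5 : δ = kp κ (Mm H) *ᵥ (kp κ (Mi H) *ᵥ δ) := by
      rw [Matrix.mulVec_mulVec, ← kp_mul, Mm_Mi, kp_one, Matrix.one_mulVec]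
    rw [h5, Matrix.mulVec_mulVec, h4, ← Matrix.mulVec_mulVec, h2, Matrix.mulVec_zero]
  rw [h3] at h1
  have h6 := (smul_eq_zero.1 h1.symm).resolve_right hδ0
  rw [← h6, Finset.sum_mul, Matrix.trace_sum]
  refine Finset.sum_congr rfl fun k _ => ?_
  rw [Matrix.smul_mul, Matrix.trace_smul, smul_eq_mul]

/-- The values of the characters are traces. -/
lemma char_valH (hz : ∀ w ∈ hn H, z * w = w * z)
    (hx : IsReg (hn H) x) (B : Bz (hn H) x z ⊤ n) {k : Fin n}
    {S : Finset (Fin n)} (hS : ∀ i, i ∈ S ↔ B.T i - B.T k ∈ QL (hn H) x) {w : Matrix ι ι ℂ}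
    (hw : w ∈ hn H) : ((∑ j ∈ S, B.T j) * w).trace =
      ∑ j ∈ S, B.bas.repr ⟨w *ᵥ (B.v j : ι → ℂ), memTop _ (B.v j).2⟩ j := by
  have htr := wS_tr B S (w := w) memTop fun j hj i hi => stab_cosetH hx B hS hw hj hi
  rw [delta_actH hz hx B hS hw] at htr
  exact smul_left_injective ℂ (wS_ne B.li S) htr

/-- **Traces.** The sum of the weights of a coset vanishes. -/
theorem tot_cosetH (hz : ∀ w ∈ hn H, z * w = w * z)
    (hT : ∀ (σ : H.S) (y : Matrix ι ι ℂ), IsC H y → (cQ y * Ng H σ).trace = 0)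
    (hx : IsReg (hn H) x) (B : Bz (hn H) x z ⊤ n) (k : Fin n) (S : Finset (Fin n))
    (hS : ∀ i, i ∈ S ↔ B.T i - B.T k ∈ QL (hn H) x) : ∑ i ∈ S, B.T i = 0 := by
  classical
  obtain ⟨y, hy1, hy2, hy3⟩ := exists_projH hx (B.T k)
  have hyS : ∀ i ∈ S, y *ᵥ (B.v i : ι → ℂ) = B.v i := fun i hi =>
    (hy3 _ _ (B.v_ne i) (B.wt i)).1 ((hS i).1 hi)
  have hyS' : ∀ i, i ∉ S → y *ᵥ (B.v i : ι → ℂ) = 0 := fun i hi =>
    (hy3 _ _ (B.v_ne i) (B.wt i)).2 fun h => hi ((hS i).2 h)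
  have htr : ∀ σ : H.S, (cj H y * Ng H σ).trace = 0 := by
    intro σ
    have key : ∀ Y ∈ Submodule.span ℂ (cQ '' {x | IsC H x}), (Y * Ng H σ).trace = 0 := by
      intro Y hY
      induction hY using Submodule.span_induction with
      | mem x hx =>
        obtain ⟨x, hx, rfl⟩ := hx
        exact hT σ x hx
      | zero => rw [Matrix.zero_mul, Matrix.trace_zero]
      | add a b _ _ ha hb => rw [Matrix.add_mul, Matrix.trace_add, ha, hb, add_zero]
      | smul c a _ ha => rw [Matrix.smul_mul, Matrix.trace_smul, ha, smul_zero]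
    exact key _ hy2
  have hval : ∀ σ : H.S, ((∑ j ∈ S, B.T j) * cji H (Ng H σ)).trace = 0 := by
    intro σ
    have hw : cji H (Ng H σ) ∈ hn H := by rw [mem_hn, cj_cji]; exact Ng_mem σ
    rw [char_valH hz hx B hS hw]
    have h3 := trace_basis B.bas (y * cji H (Ng H σ)) fun v => trivial
    have h4 : (y * cji H (Ng H σ)).trace = 0 := by
      rw [← htr σ]
      have h5 : cj H (y * cji H (Ng H σ)) = cj H y * Ng H σ := by
        rw [cj_mul, cj_cji]
      have h7 : ∀ X : Matrix ι ι ℂ, (cj H X).trace = X.trace := by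
        intro X
        rw [cj, Matrix.trace_mul_comm, ← Matrix.mul_assoc, Mm_Mi, Matrix.one_mul]
      rw [← h5, h7]
    rw [h4] at h3
    rw [h3, ← Finset.sum_subset (Finset.subset_univ S)]
    · refine Finset.sum_congr rfl fun j hj => ?_
      congr 2
      apply Subtype.ext
      change _ = (y * cji H (Ng H σ)) *ᵥ (B.bas j : ι → ℂ)
      rw [B.bas_apply, hy1 _ hw, ← Matrix.mulVec_mulVec, hyS j hj]
    · intro j _ hj
      have h6 : (y * cji H (Ng H σ)) *ᵥ (B.bas j : ι → ℂ) = 0 := by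
        rw [B.bas_apply, hy1 _ hw, ← Matrix.mulVec_mulVec, hyS' j hj, Matrix.mulVec_zero]
      have h7 : (⟨(y * cji H (Ng H σ)) *ᵥ (B.bas j : ι → ℂ), trivial⟩ :
          (⊤ : Submodule ℂ (ι → ℂ))) = 0 := Subtype.ext h6
      rw [h7, map_zero]
      rfl
  let Sf : Fin n → Finset (Fin n) := fun k => Finset.univ.filter fun i =>
    B.T i - B.T k ∈ QL (hn H) x
  have hSf : ∀ k i, i ∈ Sf k ↔ B.T i - B.T k ∈ QL (hn H) x := fun k i => by simp [Sf]
  have hSk : Sf k = S := by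
    ext i
    rw [hSf, hS]
  have h8 := char_relH hz hx B hSf (fun k' => if k' = k then 1 else 0) fun σ => by
    rw [Finset.sum_eq_single k]
    · rw [hSk, hval σ, mul_zero]
    · intro k' _ hk'
      rw [if_neg hk', Nat.cast_zero, zero_mul]
    · intro h; exact absurd (Finset.mem_univ _) h
  rw [Finset.sum_eq_single k] at h8
  · rwa [if_pos rfl, Nat.cast_one, one_smul, hSk] at h8
  · intro k' _ hk'
    rw [if_neg hk', Nat.cast_zero, zero_smul]
  · intro h; exact absurd (Finset.mem_univ _) h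

/-- The characters have small integral values on the generators. -/
lemma char_intH {w : ℕ} (hE : ∀ (σ : H.S) (u : ι → ℂ), u ≠ 0 → ∀ μ : ℂ,
      Ng H σ *ᵥ u = μ • u → ∃ a : ℤ, |a| ≤ w ∧ μ = a)
    (hz : ∀ w ∈ hn H, z * w = w * z)
    (hx : IsReg (hn H) x) (B : Bz (hn H) x z ⊤ n) {k : Fin n}
    {S : Finset (Fin n)} (hS : ∀ i, i ∈ S ↔ B.T i - B.T k ∈ QL (hn H) x) (σ : H.S) :
    ∃ a : ℤ, |a| ≤ (w : ℤ) * S.card ∧ ((∑ j ∈ S, B.T j) * cji H (Ng H σ)).trace = a := by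
  classical
  have hw : cji H (Ng H σ) ∈ hn H := by rw [mem_hn, cj_cji]; exact Ng_mem σ
  obtain ⟨w', hwe⟩ : ∃ w', w' = cji H (Ng H σ) := ⟨_, rfl⟩
  rw [← hwe] at hw ⊢
  -- the eigenvalues
  have heig : ∀ v : ι → ℂ, v ≠ 0 → ∀ μ : ℂ, w' *ᵥ v = μ • v → ∃ a : ℤ, |a| ≤ w ∧ μ = a := by
    intro v hv0 μ hμ
    obtain ⟨v', hv'⟩ : ∃ v', v' = Mi H *ᵥ v := ⟨_, rfl⟩
    have h0 : v = Mm H *ᵥ v' := by
      rw [hv', Matrix.mulVec_mulVec, Mm_Mi, Matrix.one_mulVec]
    have h1 : Ng H σ *ᵥ v' = μ • v' := by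
      have h2 : Ng H σ = Mi H * w' * Mm H := by
        rw [hwe]; exact (cj_cji H (Ng H σ)).symm
      rw [h2, ← Matrix.mulVec_mulVec, ← h0, ← Matrix.mulVec_mulVec, hμ, Matrix.mulVec_smul, ← hv']
    have hv'0 : v' ≠ 0 := by
      rintro h4
      apply hv0
      rw [h0, h4, Matrix.mulVec_zero]
    exact hE σ v' hv'0 μ h1
  rw [char_valH hz hx B hS hw]
  let u : Fin n → (⊤ : Submodule ℂ (ι → ℂ)) := fun j => ⟨w' *ᵥ (B.v j : ι → ℂ),
    memTop _ (B.v j).2⟩
  let E : Matrix S S ℂ := Matrix.of fun i j => B.bas.repr (u j) i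
  obtain ⟨a, ha1, ha2⟩ := int_traceW (w := w) E fun c hc μ hμ => by
    let v : (⊤ : Submodule ℂ (ι → ℂ)) := ∑ j : S, c j • B.v j
    have hv0 : v ≠ 0 := by
      intro h0
      apply hc
      funext j
      have h1 := congrArg (fun v => B.bas.repr v j) h0
      simp only [v, map_sum, map_smul, Finsupp.finsetSum_apply, Finsupp.smul_apply,
        smul_eq_mul, map_zero, Finsupp.zero_apply] at h1
      rw [Finset.sum_eq_single j] at h1
      · rw [← B.bas_apply, Module.Basis.repr_self, Finsupp.single_eq_same, mul_one] at h1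
        exact h1
      · intro b _ hb
        rw [← B.bas_apply, Module.Basis.repr_self, Finsupp.single_apply,
          if_neg (fun h => hb (Subtype.ext h)), mul_zero]
      · intro h; exact absurd (Finset.mem_univ _) h
    refine heig v (fun h => hv0 (Subtype.ext h)) μ ?_
    have h1 : (⟨w' *ᵥ (v : ι → ℂ), memTop _ v.2⟩ : (⊤ : Submodule ℂ (ι → ℂ))) =
        ∑ j : S, c j • u j := by
      apply Subtype.ext
      simp only [v, Submodule.coe_sum, Submodule.coe_smul, Matrix.mulVec_sum,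
        Matrix.mulVec_smul, u]
    have h2 : (⟨w' *ᵥ (v : ι → ℂ), memTop _ v.2⟩ : (⊤ : Submodule ℂ (ι → ℂ))) = μ • v := by
      rw [h1]
      apply B.bas.repr.injective
      ext i
      rw [map_sum, Finsupp.finsetSum_apply, map_smul, Finsupp.smul_apply]
      simp only [map_smul, Finsupp.smul_apply, smul_eq_mul, v, map_sum,
        Finsupp.finsetSum_apply]
      by_cases hi : i ∈ S
      · have h3 := congrFun hμ ⟨i, hi⟩
        rw [Matrix.mulVec, dotProduct, Pi.smul_apply, smul_eq_mul] at h3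
        rw [Finset.sum_congr rfl fun (j : S) _ => mul_comm (c j) (B.bas.repr (u j) i)]
        change ∑ j : S, B.bas.repr (u j) i * c j = _
        change ∑ j : S, B.bas.repr (u j) i * c j = _ at h3
        rw [h3, Finset.sum_eq_single (⟨i, hi⟩ : S)]
        · rw [← B.bas_apply, Module.Basis.repr_self, Finsupp.single_eq_same, mul_one]
        · intro b _ hb
          rw [← B.bas_apply, Module.Basis.repr_self, Finsupp.single_apply,
            if_neg (fun h => hb (Subtype.ext h)), mul_zero]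
        · intro h; exact absurd (Finset.mem_univ _) h
      · rw [Finset.sum_eq_zero, Finset.sum_eq_zero, mul_zero]
        · intro j _
          rw [← B.bas_apply, Module.Basis.repr_self, Finsupp.single_apply,
            if_neg (fun h : (j : Fin n) = i => hi (h ▸ j.2)), mul_zero]
        · intro j _
          have h3 : B.bas.repr (u j) i = 0 := stab_cosetH hx B hS hw j.2 hi
          rw [h3, mul_zero]
    exact congrArg Subtype.val h2
  refine ⟨a, ?_, ?_⟩
  · rwa [Fintype.card_coe] at ha1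
  · rw [← ha2, Matrix.trace, ← Finset.sum_coe_sort S]
    rfl

/-- Isotropic sets of weights. -/
lemma half_ofH {t : ℕ} (ht : Fintype.card ι ≤ t + Module.finrank ℂ (Z0 H))
    (hx : IsReg (hn H) x) (hz : ∀ v ∈ Z0 H, z *ᵥ v = v) (B : Bz (hn H) x z ⊤ n)
    (S : Finset (Fin n)) (hS : ∀ i ∈ S, ∀ j ∈ S, B.T i + B.T j ≠ 0) : 2 * S.card ≤ t := by
  classical
  obtain ⟨σ, hσ, -⟩ := exists_permT hx B
  let T₀ : Finset (Fin n) := Finset.univ.filter fun i => B.T i = 0
  have hmT₀ : ∀ i, i ∈ T₀ ↔ B.T i = 0 := fun i => by simp [T₀]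
  have hT₀ : Module.finrank ℂ (Z0 H) ≤ T₀.card := by
    by_cases hZ : Module.finrank ℂ (Z0 H) = 0
    · rw [hZ]; exact Nat.zero_le _
    refine Z0_le hx B hz T₀ fun i h3 h4 => (hmT₀ i).2 ?_
    have hbot : Z0 H ≠ ⊥ := by
      intro h5
      rw [h5, finrank_bot] at hZ
      exact hZ rfl
    obtain ⟨v, hv, hv0⟩ := Submodule.exists_mem_ne_zero_of_ne_bot hbot
    refine wt_eq (isLA_hn H) hx (B.v_ne i) hv0 (B.wt i) ⟨(ct _ x).zero_mem,
      Matrix.conjTranspose_zero, fun w hw => ?_⟩ ?_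
    · rw [hv w hw.1, Matrix.zero_mul, Matrix.trace_zero, zero_smul]
    · rw [B.c_eq hx, h3, Matrix.zero_mul, Matrix.trace_zero, Complex.ofReal_zero]
  have hd1 : Disjoint S (S.map σ.toEmbedding) := by
    rw [Finset.disjoint_left]
    intro i hi hi2
    obtain ⟨j, hj, rfl⟩ := Finset.mem_map.1 hi2
    refine hS _ hi j hj ?_
    change B.T (σ j) + B.T j = 0
    rw [hσ, neg_add_cancel]
  have hd2 : Disjoint (S ∪ S.map σ.toEmbedding) T₀ := by
    rw [Finset.disjoint_left]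
    intro i hi hi2
    have h0 := (hmT₀ i).1 hi2
    rcases Finset.mem_union.1 hi with h1 | h1
    · exact hS i h1 i h1 (by rw [h0, add_zero])
    · obtain ⟨j, hj, rfl⟩ := Finset.mem_map.1 h1
      have h2 : B.T (σ j) = 0 := h0
      rw [hσ, neg_eq_zero] at h2
      exact hS j hj j hj (by rw [h2, add_zero])
  have h1 : ((S ∪ S.map σ.toEmbedding) ∪ T₀).card ≤ n := by
    have := Finset.card_le_univ ((S ∪ S.map σ.toEmbedding) ∪ T₀)
    rwa [Fintype.card_fin] at this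
  rw [Finset.card_union_of_disjoint hd2, Finset.card_union_of_disjoint hd1,
    Finset.card_map] at h1
  have h2 := card_Bz B
  omega

/-- Half of the dimension bounds the isotropic cosets. -/
lemma halfH {t : ℕ} (ht : Fintype.card ι ≤ t + Module.finrank ℂ (Z0 H))
    (hx : IsReg (hn H) x) (hz : ∀ v ∈ Z0 H, z *ᵥ v = v) (B : Bz (hn H) x z ⊤ n) (k : Fin n)
    (hk : 2 • B.T k ∉ QL (hn H) x) (S : Finset (Fin n))
    (hS : ∀ i ∈ S, B.T i - B.T k ∈ QL (hn H) x) : 2 * S.card ≤ t := by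
  refine half_ofH ht hx hz B S fun i hi j hj h1 => hk ?_
  have h2 := (QL _ x).neg_mem ((QL _ x).add_mem (hS i hi) (hS j hj))
  have h3 : 2 • B.T k = -(B.T i - B.T k + (B.T j - B.T k)) := by
    rw [eq_neg_of_add_eq_zero_left h1, two_nsmul]
    abel
  rw [h3]
  exact h2

end Pool.Agent.L0h10.RP
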