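import Pool.Agent.L0h10.RP.Wct

/-!
# Matrices fixing the invariant tensors of bounded degree fix all invariant tensors
-/

set_option linter.unusedSectionVars false

namespace Pool.Agent.L0h10.RP

open Matrix Pool.Agent.N996.BP Pool.Agent.N996.FP ComplexConjugate ComplexOrder

variable {ι : Type} [Fintype ι] [DecidableEq ι] {H : HData ι}

section Irr

variable {x z : Matrix ι ι ℂ} {n : ℕ}

/-- **The bound for irreducible multisets of weights.** -/
theorem irr_countH {w : ℕ} (hw1 : 1 ≤ w) (hE : ∀ (σ : H.S) (u : ι → ℂ), u ≠ 0 → ∀ μ : ℂ,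
      Ng H σ *ᵥ u = μ • u → ∃ a : ℤ, |a| ≤ w ∧ μ = a)
    (hz : ∀ w ∈ hn H, z * w = w * z) {t g : ℕ}
    (ht : Fintype.card ι ≤ t + Module.finrank ℂ (Z0 H)) (hg : t ≤ 2 * g + 1)
    (hx : IsReg (hn H) x) (hz0 : ∀ v ∈ Z0 H, z *ᵥ v = v) (B : Bz (hn H) x z ⊤ n)
    {s : Multiset (Fin n)} (hs : B.tot s = 0)
    (hirr : ∀ t ≤ s, B.tot t ∈ QL (hn H) x → t = 0 ∨ t = s) (i : Fin n) (p : Fin n → Prop)
    [DecidablePred p] (hp : ∀ j, p j → B.T j - B.T i ∈ QL (hn H) x) :
    (s.filter p).card ≤ max 2 ((w * g ^ 2) ^ g) := by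
  classical
  by_cases h2i : 2 • B.T i ∈ QL (hn H) x
  · exact (B.count_le hirr two_pos le_rfl h2i p hp).trans (le_max_left _ _)
  by_cases hcs : s.card ≤ 2
  · exact ((Multiset.card_le_card (Multiset.filter_le p s)).trans hcs).trans (le_max_left _ _)
  push Not at hcs
  refine le_trans ?_ (le_max_right _ _)
  rcases Multiset.empty_or_exists_mem (s.filter p) with h0 | ⟨j₀, hj₀⟩
  · rw [h0, Multiset.card_zero]
    exact Nat.zero_le _
  have hj₀s := Multiset.mem_of_mem_filter hj₀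
  have hj₀p := hp j₀ (Multiset.of_mem_filter hj₀)
  -- the classes
  let Pc : Fin n → Fin n → Prop := fun a c => B.T a - B.T c ∈ QL (hn H) x
  have hPc : ∀ a c, Pc a c ↔ B.T a - B.T c ∈ QL (hn H) x := fun _ _ => Iff.rfl
  have hrefl : ∀ a, Pc a a := fun a => by
    rw [hPc, sub_self]; exact (QL _ x).zero_mem
  have hsymm : ∀ {a b}, Pc a b → Pc b a := fun {a b} h => by
    rw [hPc] at h ⊢
    have := (QL _ x).neg_mem h
    rwa [neg_sub] at this
  have htrans : ∀ {a b c}, Pc a b → Pc b c → Pc a c := fun {a b c} h h' => by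
    rw [hPc] at h h' ⊢
    have := (QL _ x).add_mem h h'
    rwa [sub_add_sub_cancel] at this
  let S : Fin n → Finset (Fin n) := fun k => Finset.univ.filter fun j => Pc j k
  have hS : ∀ k i, i ∈ S k ↔ B.T i - B.T k ∈ QL (hn H) x := fun k i => by simp [S, Pc]
  have hSne : ∀ k, (S k).Nonempty := fun k => ⟨k, (hS k k).2 (hrefl k)⟩
  let rep : Fin n → Fin n := fun k => (S k).min' (hSne k)
  have hrep : ∀ k, Pc (rep k) k := fun k => (hS k _).1 ((S k).min'_mem (hSne k))
  have hSeq : ∀ {a b}, Pc a b → S a = S b := fun {a b} h => by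
    ext c
    rw [hS, hS]
    exact ⟨fun h' => htrans h' h, fun h' => htrans h' (hsymm h)⟩
  have hrepeq : ∀ {a b}, Pc a b → rep a = rep b := fun {a b} h => by
    simp only [rep, hSeq h]
  -- the opposite classes
  have hopp : ∀ i j, (2 • B.T i ∉ QL (hn H) x ∧ ∃ j ∈ s, Pc i j) →
      (2 • B.T j ∉ QL (hn H) x ∧ ∃ i ∈ s, Pc j i) → B.T i + B.T j ∉ QL (hn H) x := by
    rintro i j ⟨hi, i', hi's, hii⟩ ⟨hj, j', hj's, hjj⟩ hij
    by_cases hne : i' = j'
    · subst hne
      apply hi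
      have h1 := (QL _ x).add_mem hij ((QL _ x).sub_mem hii hjj)
      have h2 : B.T i + B.T j + (B.T i - B.T i' - (B.T j - B.T i')) = 2 • B.T i := by
        rw [two_nsmul]; abel
      rwa [h2] at h1
    · have h1 : i' ::ₘ ({j'} : Multiset (Fin n)) ≤ s := by
        rw [Multiset.le_iff_count]
        intro a
        rw [Multiset.count_cons, Multiset.count_singleton]
        by_cases h3 : a = j'
        · have h4 : a ≠ i' := fun h => hne (h ▸ h3)
          rw [if_pos h3, if_neg h4, h3]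
          exact Multiset.one_le_count_iff_mem.2 hj's
        · rw [if_neg h3]
          by_cases h4 : a = i'
          · rw [if_pos h4, h4]
            exact Multiset.one_le_count_iff_mem.2 hi's
          · rw [if_neg h4]
            exact Nat.zero_le _
      have h2 : B.tot (i' ::ₘ ({j'} : Multiset (Fin n))) ∈ QL (hn H) x := by
        rw [B.tot_cons, Bz.tot, Multiset.map_singleton, Multiset.sum_singleton]
        have h3 := (QL _ x).sub_mem hij ((QL _ x).add_mem hii hjj)
        have h4 : B.T i + B.T j - (B.T i - B.T i' + (B.T j - B.T j')) = B.T i' + B.T j' := by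
          abel
        rwa [h4] at h3
      rcases hirr _ h1 h2 with h3 | h3
      · exact Multiset.cons_ne_zero h3
      · rw [← h3, Multiset.card_cons, Multiset.card_singleton] at hcs
        omega
  let U : Finset (Fin n) := Finset.univ.filter fun i => 2 • B.T i ∉ QL (hn H) x ∧ ∃ j ∈ s, Pc i j
  have hU : ∀ i, i ∈ U ↔ (2 • B.T i ∉ QL (hn H) x ∧ ∃ j ∈ s, Pc i j) := fun i => by simp [U]
  have hUg : U.card ≤ g := by
    have h1 := half_ofH ht hx hz0 B U fun i hi j hj h0 => by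
      refine hopp i j ((hU i).1 hi) ((hU j).1 hj) ?_
      rw [h0]
      exact (QL _ x).zero_mem
    omega
  let R : Finset (Fin n) := U.filter fun c => rep c = c
  have hR : ∀ c, c ∈ R ↔ c ∈ U ∧ rep c = c := fun c => by simp [R]
  have hUrep : ∀ i ∈ U, rep i ∈ R := by
    intro i hi
    obtain ⟨h1, j, hj, hij⟩ := (hU i).1 hi
    refine (hR _).2 ⟨(hU _).2 ⟨fun h3 => h1 ?_, j, hj, htrans (hrep i) hij⟩,
      hrepeq (hrep i)⟩
    have h4 := (QL _ x).nsmul_mem (hrep i) 2
    have h5 := (QL _ x).sub_mem h3 h4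
    have h6 : 2 • B.T (rep i) - 2 • (B.T (rep i) - B.T i) = 2 • B.T i := by
      rw [smul_sub, sub_sub_cancel]
    rwa [h6] at h5
  have hdis : ∀ a, ∀ c ∈ R, ∀ c' ∈ R, Pc a c → Pc a c' → c = c' := by
    intro a c hc c' hc' h h'
    rw [← ((hR c).1 hc).2, ← ((hR c').1 hc').2]
    exact hrepeq (htrans (hsymm h) h')
  have hSU : ∀ c ∈ R, S c ⊆ U := by
    intro c hc j hj
    have hjc : Pc j c := (hS c j).1 hj
    obtain ⟨h1, j', hj', hcj'⟩ := (hU c).1 ((hR c).1 hc).1
    refine (hU j).2 ⟨fun h3 => h1 ?_, j', hj', htrans hjc hcj'⟩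
    have h4 := (QL _ x).nsmul_mem hjc 2
    have h5 := (QL _ x).sub_mem h3 h4
    have h6 : 2 • B.T j - 2 • (B.T j - B.T c) = 2 • B.T c := by
      rw [smul_sub, sub_sub_cancel]
    rwa [h6] at h5
  have hmg : ∀ c ∈ R, (S c).card ≤ g := fun c hc => (Finset.card_le_card (hSU c hc)).trans hUg
  have hRg : R.card ≤ g := (Finset.card_le_card (Finset.filter_subset _ _)).trans hUg
  -- the data of the relations
  choose lam hlam1 hlam2 using fun (c : R) (σ : H.S) => char_intH hE hz hx B (hS c) σ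
  let m : R → ℕ := fun c => (S c).card
  let nn : R → ℕ := fun c => (s.filter fun a => Pc a c).card
  have hm0 : ∀ c : R, 0 < m c := fun c => Finset.card_pos.2 (hSne c)
  have hDm : ∀ c, ∑ j ∈ S c, B.T j - (S c).card • B.T c ∈ QL (hn H) x := by
    intro c
    have h4 : ∑ j ∈ S c, (B.T j - B.T c) ∈ QL (hn H) x :=
      (QL (hn H) x).sum_mem fun j hj => (hS c j).1 hj
    rwa [Finset.sum_sub_distrib, Finset.sum_const] at h4
  have hQt : ∀ (t q : Matrix ι ι ℂ), (∀ q ∈ QL (hn H) x, (t * q).trace = 0) →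
      q ∈ QL (hn H) x → (q * t).trace = 0 := fun t q ht hq => by
    rw [Matrix.trace_mul_comm]; exact ht q hq
  -- the relation
  obtain ⟨Δ, hΔ⟩ : ∃ Δ : Matrix ι ι ℂ, Δ = ∑ c : R, ((nn c : ℂ) / (m c : ℂ)) •
    ∑ j ∈ S c, B.T j := ⟨_, rfl⟩
  have hΔH : Δᴴ = Δ := by
    rw [hΔ, Matrix.conjTranspose_sum]
    refine Finset.sum_congr rfl fun c _ => ?_
    rw [Matrix.conjTranspose_smul, Matrix.conjTranspose_sum]
    congr 1
    · rw [star_div₀]
      simp
    · exact Finset.sum_congr rfl fun j _ => (B.wt j).herm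
  have hΔQ : ∀ q ∈ QL (hn H) x, (Δ * q).trace = 0 := by
    intro q hq
    rw [hΔ, Finset.sum_mul, Matrix.trace_sum]
    refine Finset.sum_eq_zero fun c _ => ?_
    rw [Matrix.smul_mul, Matrix.trace_smul, char_rootH hz hx B (hS c) hq, smul_zero]
  have hΔ0 : Δ = 0 := by
    -- values on the weights
    let F : Fin n → ℂ := fun a => (B.T a * Δ).trace
    have hker : ∀ q ∈ QL (hn H) x, (q * Δ).trace = 0 := fun q hq => hQt Δ q hΔQ hq
    have h1 := sum_classes (P := Pc) (⊥ : AddSubgroup ℂ) F R hdis (fun a c _ hac => by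
        rw [AddSubgroup.mem_bot]
        change (B.T a * Δ).trace - (B.T c * Δ).trace = 0
        rw [← Matrix.trace_sub, ← Matrix.sub_mul]
        exact hker _ hac) s (fun a ha hna => by
        rw [AddSubgroup.mem_bot]
        change (B.T a * Δ).trace = 0
        by_cases h2a : 2 • B.T a ∈ QL (hn H) x
        · have h3 := hker _ h2a
          rw [two_nsmul, Matrix.add_mul, Matrix.trace_add] at h3
          rwa [← two_mul, mul_eq_zero, or_iff_right two_ne_zero] at h3
        · exfalso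
          exact hna (rep a) (hUrep a ((hU a).2 ⟨h2a, a, ha, hrefl a⟩)) (hsymm (hrep a)))
    rw [AddSubgroup.mem_bot, sub_eq_zero] at h1
    have h2 : (s.map F).sum = 0 := by
      have h3 : ∀ u : Multiset (Fin n), (u.map F).sum = (B.tot u * Δ).trace := by
        intro u
        induction u using Multiset.induction_on with
        | empty =>
          rw [Multiset.map_zero, Multiset.sum_zero, Bz.tot, Multiset.map_zero,
            Multiset.sum_zero, Matrix.zero_mul, Matrix.trace_zero]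
        | cons a u ih =>
          rw [Multiset.map_cons, Multiset.sum_cons, ih, B.tot_cons, Matrix.add_mul,
            Matrix.trace_add]
      rw [h3, hs, Matrix.zero_mul, Matrix.trace_zero]
    have h3 : (Δ * Δ).trace = 0 := by
      have h4 : (Δ * Δ).trace = ∑ c : R, (nn c : ℂ) * F c := by
        conv_lhs => rw [hΔ]
        rw [Finset.sum_mul, Matrix.trace_sum]
        refine Finset.sum_congr rfl fun c _ => ?_
        rw [Matrix.smul_mul, Matrix.trace_smul, smul_eq_mul, ← hΔ]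
        have h5 : ((∑ j ∈ S c, B.T j) * Δ).trace = (m c : ℂ) * F c := by
          have h6 := hker _ (hDm c)
          rw [Matrix.sub_mul, Matrix.trace_sub, sub_eq_zero] at h6
          rw [h6, Matrix.smul_mul, Matrix.trace_smul, nsmul_eq_mul]
        rw [h5]
        have h7 : (m c : ℂ) ≠ 0 := by exact_mod_cast (hm0 c).ne'
        field_simp
      rw [h4, Finset.sum_coe_sort R (fun c => ((s.filter fun a => Pc a c).card : ℂ) * F c),
        ← h2, h1]
      exact Finset.sum_congr rfl fun c _ => (nsmul_eq_mul _ _).symm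
    have h4 : nsq Δ = 0 := by rw [nsq, hΔH]; exact h3
    exact nsq_eq_zero h4
  have hrel : IsRel lam fun c => (nn c : ℚ) / (m c : ℚ) := by
    intro σ
    have h1 : (Δ * cji H (Ng H σ)).trace = 0 := by
      rw [hΔ0, Matrix.zero_mul, Matrix.trace_zero]
    rw [hΔ, Finset.sum_mul, Matrix.trace_sum] at h1
    have h2 : ∑ c : R, (((nn c : ℚ) / (m c : ℚ) * (lam c σ : ℚ) : ℚ) : ℂ) = 0 := by
      rw [← h1]
      refine Finset.sum_congr rfl fun c _ => ?_
      rw [Matrix.smul_mul, Matrix.trace_smul, smul_eq_mul, hlam2 c σ]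
      push_cast
      rfl
    exact_mod_cast h2
  -- irreducibility
  have hirr2 : ∀ y : R → ℕ, y ≠ 0 → IsRel lam (fun c => (y c : ℚ)) →
      (∀ c, m c * y c ≤ nn c) → ∀ c, m c * y c = nn c := by
    intro y hy0 hyr hyn
    let y' : Fin n → ℕ := fun c => if h : c ∈ R then y ⟨c, h⟩ else 0
    have hy' : ∀ c : R, y' c = y c := fun c => by simp only [y']; rw [dif_pos c.2]
    have hy'' : ∀ c, c ∉ R → y' c = 0 := fun c hc => by simp only [y']; rw [dif_neg hc]
    have h1 : ∑ k, (y' k : ℂ) • ∑ j ∈ S k, B.T j = 0 := by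
      refine char_relH hz hx B hS y' fun σ => ?_
      have h2 : ∑ k, (y' k : ℂ) * ((∑ j ∈ S k, B.T j) * cji H (Ng H σ)).trace =
          ∑ c : R, (((y c : ℚ) * (lam c σ : ℚ) : ℚ) : ℂ) := by
        rw [← Finset.sum_subset (Finset.subset_univ R), ← Finset.sum_coe_sort R]
        · refine Finset.sum_congr rfl fun c _ => ?_
          rw [hy' c, hlam2 c σ]
          push_cast
          rfl
        · intro c _ hc
          rw [hy'' c hc, Nat.cast_zero, zero_mul]
      rw [h2, ← Rat.cast_sum, hyr σ, Rat.cast_zero]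
    obtain ⟨t, hts, htc, htP⟩ := exists_sub (P := Pc) s (fun c => (S c).card * y' c) R hdis
      (fun c hc => by
        have h2 := hyn ⟨c, hc⟩
        rw [← hy' ⟨c, hc⟩] at h2
        exact h2)
    have htQ : B.tot t ∈ QL (hn H) x := by
      have h2 := sum_classes (P := Pc) (QL (hn H) x) B.T R hdis (fun a c _ hac => hac) t
        (fun a ha hna => by
          obtain ⟨c, hc, hac⟩ := htP a ha
          exact absurd hac (hna c hc))
      rw [Finset.sum_congr rfl fun c hc => by rw [htc c hc]] at h2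
      have h3 : ∑ c ∈ R, y' c • ((S c).card • B.T c - ∑ j ∈ S c, B.T j) ∈ QL (hn H) x := by
        refine (QL (hn H) x).sum_mem fun c _ => (QL (hn H) x).nsmul_mem ?_ _
        have := (QL (hn H) x).neg_mem (hDm c)
        rwa [neg_sub] at this
      have h4 : ∑ c ∈ R, y' c • ∑ j ∈ S c, B.T j = 0 := by
        rw [← h1, ← Finset.sum_subset (Finset.subset_univ R)]
        · refine Finset.sum_congr rfl fun c _ => ?_
          rw [Nat.cast_smul_eq_nsmul]
        · intro c _ hc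
          rw [hy'' c hc, Nat.cast_zero, zero_smul]
      simp only [smul_sub, Finset.sum_sub_distrib] at h3
      rw [h4, sub_zero] at h3
      have h5 := (QL (hn H) x).add_mem h2 h3
      have h6 : (t.map B.T).sum - ∑ c ∈ R, ((S c).card * y' c) • B.T c +
          ∑ c ∈ R, y' c • (S c).card • B.T c = (t.map B.T).sum := by
        have h7 : ∑ c ∈ R, ((S c).card * y' c) • B.T c = ∑ c ∈ R, y' c • (S c).card • B.T c :=
          Finset.sum_congr rfl fun c _ => by rw [smul_smul, mul_comm]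
        rw [h7, sub_add_cancel]
      rw [h6] at h5
      exact h5
    intro c
    rcases hirr t hts htQ with h2 | h2
    · exfalso
      apply hy0
      funext c
      have h3 := htc c c.2
      rw [h2, Multiset.filter_zero, Multiset.card_zero, hy' c] at h3
      exact (Nat.mul_eq_zero.1 h3.symm).resolve_left (hm0 c).ne'
    · have h3 := htc c c.2
      rw [h2, hy' c] at h3
      exact h3.symm
  -- the bound
  have hl : ∀ (c : R) (σ : H.S), |lam c σ| ≤ ((w * g : ℕ) : ℤ) := fun c σ =>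
    (hlam1 c σ).trans (by
      push_cast
      exact mul_le_mul_of_nonneg_left (by exact_mod_cast hmg c c.2) (by positivity))
  have hiU : i ∈ U := (hU i).2 ⟨h2i, j₀, hj₀s, hsymm hj₀p⟩
  have hc₀ : rep i ∈ R := hUrep i hiU
  have hg1 : 1 ≤ g := (Finset.card_pos.2 ⟨i, hiU⟩).trans_le hUg
  have hwg1 : 1 ≤ w * g := Nat.mul_pos hw1 hg1
  have hfin := irr_bound hwg1 hl hm0 hrel hirr2 ⟨rep i, hc₀⟩
  have h1 : (s.filter p).card ≤ nn ⟨rep i, hc₀⟩ := by
    refine Multiset.card_le_card (Multiset.monotone_filter_right s fun a ha => ?_)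
    exact htrans (hp a ha) (hsymm (hrep i))
  refine h1.trans (hfin.trans ?_)
  rw [Fintype.card_coe]
  have h3 : 1 ≤ R.card := Finset.card_pos.2 ⟨_, hc₀⟩
  have h4 : (R.card * (w * g)) ^ (R.card - 1) ≤ (g * (w * g)) ^ (g - 1) := by
    have h5 : 1 ≤ g * (w * g) := Nat.mul_pos hg1 hwg1
    exact (Nat.pow_le_pow_left (Nat.mul_le_mul_right (w * g) hRg) _).trans
      (Nat.pow_le_pow_right h5 (by omega))
  calc m ⟨rep i, hc₀⟩ * (R.card * (R.card * (w * g)) ^ (R.card - 1)) ≤
      g * (g * (g * (w * g)) ^ (g - 1)) :=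
        Nat.mul_le_mul (hmg _ hc₀) (Nat.mul_le_mul hRg h4)
    _ = g * g * (w * g ^ 2) ^ (g - 1) := by ring
    _ ≤ (w * g ^ 2) * (w * g ^ 2) ^ (g - 1) := by
        refine Nat.mul_le_mul_right _ ?_
        rw [← pow_two]
        exact Nat.le_mul_of_pos_left _ hw1
    _ = (w * g ^ 2) ^ g := by
        obtain ⟨g', rfl⟩ : ∃ g', g = g' + 1 := ⟨g - 1, by omega⟩
        rw [Nat.add_sub_cancel, ← pow_succ']

end Irr

/-- The bounds for the irreducible multisets. -/
def MBound (H : HData ι) (M : ℕ) : Prop :=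
  ∀ (z x : Matrix ι ι ℂ) (n : ℕ) (B : Bz (hn H) x z ⊤ n), IsReg (hn H) x →
    (∀ w ∈ hn H, z * w = w * z) → (∀ v ∈ Z0 H, z *ᵥ v = v) → ∀ s : Multiset (Fin n),
    B.tot s = 0 → (∀ t ≤ s, B.tot t ∈ QL (hn H) x → t = 0 ∨ t = s) → ∀ (i : Fin n),
    2 • B.T i ∉ QL (hn H) x → ∀ (p : Fin n → Prop) [DecidablePred p],
    (∀ j, p j → B.T j - B.T i ∈ QL (hn H) x) → (s.filter p).card ≤ M

/-- **Matrices which commute with the Lie algebra and fix the Hodge classes of bounded degree.** -/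
theorem central_So {z : Matrix ι ι ℂ} (hc : ∀ w ∈ ho H, z * w = w * z) {N M t : ℕ} (h2 : 2 ≤ N)
    (hfix : ∀ (κ : Type) [Fintype κ] [DecidableEq κ], Fintype.card κ ≤ N → Fixes H z κ)
    (hMt : max 2 M * t ≤ 2 * N) (ht : Fintype.card ι ≤ t + Module.finrank ℂ (Z0 H))
    (hM : MBound H M) : z ∈ So H := by
  obtain ⟨x, hxh, hxH, hxr⟩ := exists_regular (hn H)
  have hx : IsReg (hn H) x := ⟨hxh, hxH, hxr⟩
  have hfix2 : Fixes H z (Unit ⊕ Unit) := hfix _ (by simpa using h2)
  have hZ := isZ_of (fun g hg => comm_GG hc hg) fun x hx => hx.comm_fix hfix2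
  obtain ⟨n, ⟨B⟩⟩ := exists_Bz (V := ⊤) (isLA_hn H) hx (hZ.comm x hxh).symm hZ.normal
    memTop memTop memTop
  obtain ⟨z', hzz, -⟩ := Fixes.inv hfix2
  have hζ : ∀ i, B.ζ i ≠ 0 := by
    intro i h0
    have h1 := B.ez i
    rw [h0, zero_smul] at h1
    have h2 : cji H z' *ᵥ (cji H z *ᵥ (B.v i : ι → ℂ)) = 0 := by rw [h1, Matrix.mulVec_zero]
    rw [Matrix.mulVec_mulVec, ← cji_mul, hzz, cji_one, Matrix.one_mulVec] at h2
    exact B.v_ne i h2
  have hs : ∀ s : Multiset (Fin n), B.tot s ∈ QL (hn H) x → B.zt s = 1 := fun s hs =>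
    no_bad4 hx hZ.comm h2 hfix B hζ hMt ht (fun s h1 _ h3 i h4 p _ h5 =>
      hM _ x n B hx hZ.comm (fun v hv => Z0_fix (hfix Unit (by simp; omega)) hv) s h1 h3 i h4 p
        fun j hj => (h5 j hj).1) hs
  intro κ _ _ a ha
  have h1 := fix_zero3 B hs (κ := κ) (a := kp κ (Mm H) *ᵥ ca a)
    fun t ht _ => by
      rw [Matrix.mulVec_mulVec, dk_cj_Mm, ← Matrix.mulVec_mulVec, ht κ a ha, Matrix.mulVec_zero]
  rw [Matrix.mulVec_mulVec, kp_cj_Mm, cj_cji, ← Matrix.mulVec_mulVec] at h1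
  have h2 := congrArg (fun w => kp κ (Mi H) *ᵥ w) h1
  simp only [Matrix.mulVec_mulVec, ← Matrix.mul_assoc, ← kp_mul, Mi_Mm, kp_one, Matrix.one_mul,
    Matrix.one_mulVec] at h2
  exact h2

/-- The eigenvalues of the generators. -/
lemma Ng_eigenD (σ : H.S) {v : ι → ℂ} (hv : v ≠ 0) {μ : ℂ}
    (h : Ng H σ *ᵥ v = μ • v) : ∃ a : ℤ, |a| ≤ H.w ∧ μ = a := by
  have h2 : Ng H σ = ∑ k ∈ Finset.Icc (-(H.w : ℤ)) H.w,
      (k : ℂ) • H.π σ k := rfl
  obtain ⟨k, hk, hkv⟩ : ∃ k ∈ Finset.Icc (-(H.w : ℤ)) H.w, H.π σ k *ᵥ v ≠ 0 := by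
    by_contra hcon
    push Not at hcon
    apply hv
    rw [← Matrix.one_mulVec v, ← H.h1 σ, Matrix.sum_mulVec]
    exact Finset.sum_eq_zero hcon
  refine ⟨k, ?_, ?_⟩
  · rw [Finset.mem_Icc] at hk
    exact abs_le.2 hk
  · have h3 : H.π σ k * Ng H σ = (k : ℂ) • H.π σ k := by
      rw [h2, Finset.mul_sum, Finset.sum_eq_single k]
      · rw [Matrix.mul_smul, H.hmul σ k hk k hk, if_pos rfl]
      · intro l hl hlk
        rw [Matrix.mul_smul, H.hmul σ k hk l hl, if_neg (Ne.symm hlk), smul_zero]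
      · intro h; exact absurd hk h
    have h4 := congrArg (fun u => H.π σ k *ᵥ u) h
    beta_reduce at h4
    rw [Matrix.mulVec_mulVec, h3, Matrix.smul_mulVec, Matrix.mulVec_smul, ← sub_eq_zero,
      ← sub_smul, smul_eq_zero, or_iff_left hkv, sub_eq_zero] at h4
    exact h4.symm

/-- **Matrices fixing the invariant tensors of bounded degree fix all invariant tensors.** -/
theorem fix_of_le {N M t : ℕ} (h4 : 4 ≤ N) (hMt : max 2 M * t ≤ 2 * N)
    (ht : Fintype.card ι ≤ t + Module.finrank ℂ (Z0 H)) (hM : MBound H M)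
    {g : Matrix ι ι ℂ} (hfix : ∀ (κ : Type) [Fintype κ] [DecidableEq κ], Fintype.card κ ≤ N →
      Fixes H g κ) : g ∈ So H := by
  have h2 : 2 ≤ N := by omega
  have htN : t ≤ N := by
    have h3 : 2 * t ≤ max 2 M * t := Nat.mul_le_mul_right _ (le_max_left _ _)
    omega
  obtain ⟨q, hq, q', hq', hqq, hc⟩ := exists_decH2 H (K := t / 2) (by omega) (p := g)
    (hfix _ (by simpa using h2)) (hfix _ (by simpa using h4))
    (fun k hk => hfix _ (by
      rw [Fintype.card_sum, Fintype.card_fin]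
      omega))
  have hgq : g = q * (q' * g) := by rw [← Matrix.mul_assoc, hqq, Matrix.one_mul]
  have hfixz : ∀ (κ : Type) [Fintype κ] [DecidableEq κ], Fintype.card κ ≤ N →
      Fixes H (q' * g) κ := fun κ _ _ hκ a ha => by
    rw [kp_mul, ← Matrix.mulVec_mulVec, hfix κ hκ a ha, hq' κ a ha]
  rw [hgq]
  exact Submonoid.mul_mem _ hq (central_So hc h2 hfixz hMt ht hM)

/-- **Self-adjoint centres.** -/
theorem fix_adj (hR : ∀ y, IsC H y → cQ y * cQ H.Qir = cQ H.Qir * (cQ y)ᵀ) {N t : ℕ}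
    (h4 : 4 ≤ N) (htN : t ≤ N) (ht : Fintype.card ι ≤ t + Module.finrank ℂ (Z0 H))
    {g : Matrix ι ι ℂ} (hfix : ∀ (κ : Type) [Fintype κ] [DecidableEq κ], Fintype.card κ ≤ N →
      Fixes H g κ) : g ∈ So H :=
  fix_of_le (M := 0) h4 (by rw [Nat.max_zero]; omega) ht
    (fun _ _ _ B hx _ _ _ _ _ i h2 => absurd (two_memH hR hx B i) h2) hfix

/-- **The trace condition.** -/
theorem fix_tr (hT : ∀ (σ : H.S) (y : Matrix ι ι ℂ), IsC H y → (cQ y * Ng H σ).trace = 0) {N t : ℕ}
    (h4 : 4 ≤ N) (htN : t ^ 2 / 4 ≤ N) (ht : Fintype.card ι ≤ t + Module.finrank ℂ (Z0 H))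
    {g : Matrix ι ι ℂ} (hfix : ∀ (κ : Type) [Fintype κ] [DecidableEq κ], Fintype.card κ ≤ N →
      Fixes H g κ) : g ∈ So H := by
  classical
  refine fix_of_le (M := t / 2) h4 ?_ ht (fun z x m B hx hz hz0 s _ hirr i h2 p _ hp => ?_) hfix
  · rcases Nat.lt_or_ge t 4 with h3 | h3
    · interval_cases t <;> simp <;> omega
    · have h5 : max 2 (t / 2) = t / 2 := max_eq_right (by omega)
      rw [h5]
      obtain ⟨m, hm⟩ : ∃ m, m = t / 2 := ⟨_, rfl⟩
      rw [← hm]
      rcases (by omega : t = 2 * m ∨ t = 2 * m + 1) with h6 | h6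
      · rw [h6] at htN ⊢
        have h7 : (2 * m) ^ 2 / 4 = m * m := by
          have h8 : (2 * m) ^ 2 = 4 * (m * m) := by ring
          rw [h8]; omega
        rw [h7] at htN
        nlinarith
      · rw [h6] at htN ⊢
        have h7 : (2 * m + 1) ^ 2 / 4 = m * m + m := by
          have h8 : (2 * m + 1) ^ 2 = 4 * (m * m + m) + 1 := by ring
          rw [h8]; omega
        rw [h7] at htN
        nlinarith
  · let S : Finset (Fin m) := Finset.univ.filter fun j => B.T j - B.T i ∈ QL (hn H) x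
    have hS : ∀ j, j ∈ S ↔ B.T j - B.T i ∈ QL (hn H) x := fun j => by simp [S]
    have hi : i ∈ S := (hS i).2 (by rw [sub_self]; exact (QL _ x).zero_mem)
    have hc := halfH ht hx hz0 B i h2 S fun j hj => (hS j).1 hj
    refine B.count_le hirr (r := S.card) (Finset.card_pos.2 ⟨i, hi⟩) (by omega) ?_ p hp
    have h3 := tot_cosetH hz hT hx B i S hS
    have h4 : ∑ j ∈ S, (B.T j - B.T i) ∈ QL (hn H) x :=
      (QL (hn H) x).sum_mem fun j hj => (hS j).1 hj
    rw [Finset.sum_sub_distrib, h3, Finset.sum_const, zero_sub] at h4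
    exact (QL (hn H) x).neg_mem_iff.1 h4

/-- **The general case.** -/
theorem fix_gen {w : ℕ} (hw1 : 1 ≤ w) (hw : H.w ≤ w) {N t : ℕ}
    (h4 : 4 ≤ N) (htN : (w * t) ^ t ≤ N) (ht : Fintype.card ι ≤ t + Module.finrank ℂ (Z0 H))
    {g : Matrix ι ι ℂ} (hfix : ∀ (κ : Type) [Fintype κ] [DecidableEq κ], Fintype.card κ ≤ N →
      Fixes H g κ) : g ∈ So H := by
  classical
  refine fix_of_le (M := max 2 ((w * (t / 2) ^ 2) ^ (t / 2))) h4 ?_ ht
    (fun z x m B hx hz hz0 s hs hirr i h2 p _ hp => ?_) hfix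
  · obtain ⟨g, hg⟩ : ∃ g, g = t / 2 := ⟨_, rfl⟩
    rw [← hg]
    rw [max_eq_right (le_max_left 2 ((w * g ^ 2) ^ g)), mul_comm, mul_max]
    have ht1 : t ≤ N ∨ t = 0 := by
      rcases Nat.eq_zero_or_pos t with h0 | h0
      · exact Or.inr h0
      · left
        refine le_trans ?_ htN
        calc t ≤ w * t := Nat.le_mul_of_pos_left _ hw1
          _ ≤ (w * t) ^ t := Nat.le_self_pow h0.ne' _
    refine max_le (by rcases ht1 with h | h <;> omega) ?_
    rw [Nat.mul_comm]
    rcases Nat.lt_or_ge t 2 with h2 | h2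
    · have hg0 : g = 0 := by omega
      rw [hg0, pow_zero, one_mul]
      omega
    · refine le_trans ?_ (Nat.mul_le_mul_left 2 htN)
      have hg1 : 1 ≤ g := by omega
      have h2g : 2 * g ≤ t := by omega
      have h5 : 4 ^ g * (w * g ^ 2) ^ g ≤ w ^ t * t ^ (2 * g) := by
        calc 4 ^ g * (w * g ^ 2) ^ g = (w * (2 * g) ^ 2) ^ g := by
              rw [← mul_pow]; congr 1; ring
          _ ≤ (w * t ^ 2) ^ g := Nat.pow_le_pow_left
              (Nat.mul_le_mul_left _ (Nat.pow_le_pow_left h2g 2)) _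
          _ = w ^ g * t ^ (2 * g) := by rw [mul_pow, ← pow_mul]
          _ ≤ w ^ t * t ^ (2 * g) := Nat.mul_le_mul_right _
              (Nat.pow_le_pow_right hw1 (by omega))
      rcases (by omega : t = 2 * g ∨ t = 2 * g + 1) with h6 | h6
      · -- even
        have h7 : t ≤ 2 * 4 ^ g := by
          have h8 : g < 4 ^ g := Nat.lt_pow_self (by norm_num)
          omega
        have h9 : (w * g ^ 2) ^ g * t ≤ 2 * (4 ^ g * (w * g ^ 2) ^ g) := by
          calc (w * g ^ 2) ^ g * t ≤ (w * g ^ 2) ^ g * (2 * 4 ^ g) := Nat.mul_le_mul_left _ h7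
            _ = _ := by ring
        refine h9.trans (Nat.mul_le_mul_left 2 (h5.trans ?_))
        rw [mul_pow, ← h6]
      · -- odd
        have h9 : (w * g ^ 2) ^ g * t ≤ 4 ^ g * (w * g ^ 2) ^ g * t :=
          Nat.mul_le_mul_right _ (Nat.le_mul_of_pos_left _ (by positivity))
        have h10 : 4 ^ g * (w * g ^ 2) ^ g * t ≤ (w * t) ^ t := by
          calc 4 ^ g * (w * g ^ 2) ^ g * t ≤ w ^ t * t ^ (2 * g) * t :=
                Nat.mul_le_mul_right _ h5
            _ = w ^ t * t ^ (2 * g + 1) := by ring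
            _ = (w * t) ^ t := by rw [← h6, mul_pow]
        have h11 := h9.trans h10
        omega
  · have hE : ∀ (σ : H.S) (u : ι → ℂ), u ≠ 0 → ∀ μ : ℂ,
        Ng H σ *ᵥ u = μ • u → ∃ a : ℤ, |a| ≤ w ∧ μ = a := by
      intro σ u hu μ hμ
      obtain ⟨a, ha1, ha2⟩ := Ng_eigenD σ hu hμ
      exact ⟨a, ha1.trans (by exact_mod_cast hw), ha2⟩
    have hg2 : t ≤ 2 * (t / 2) + 1 := by omega
    exact irr_countH hw1 hE hz ht hg2 hx hz0 B hs hirr i p hp

end Pool.Agent.L0h10.RP
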