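import Pool.Agent.L0h10.RP.Wsp
import Pool.Agent.N996.FP.Wnd

/-!
# The decomposition theorem and the eigenvalues on sums of weights
-/

set_option linter.unusedSectionVars false

namespace Pool.Agent.L0h10.RP

open Matrix Pool.Agent.N996.BP Pool.Agent.N996.FP ComplexConjugate ComplexOrder

variable {ι : Type} [Fintype ι] [DecidableEq ι] {H : HData ι}

/-- The vectors killed by the Lie algebra. -/
noncomputable def Z0 (H : HData ι) : Submodule ℂ (ι → ℂ) where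
  carrier := {v | ∀ w ∈ hn H, w *ᵥ v = 0}
  add_mem' {a b} ha hb w hw := by rw [Matrix.mulVec_add, ha w hw, hb w hw, add_zero]
  zero_mem' w _ := Matrix.mulVec_zero _
  smul_mem' c a ha w hw := by rw [Matrix.mulVec_smul, ha w hw, smul_zero]

variable {x z : Matrix ι ι ℂ} {n : ℕ}

lemma pair_wt2 {V : Submodule ℂ (ι → ℂ)} (hx : IsReg (hn H) x) (B : Bz (hn H) x z V n)
    {i j : Fin n} (hij : qf H (B.v i : ι → ℂ) (B.v j : ι → ℂ) ≠ 0) : B.T i + B.T j = 0 := by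
  refine ct_nondeg (isLA_hn H) hx.herm ((ct _ x).add_mem (B.wt i).mem (B.wt j).mem) fun t ht => ?_
  have h1 := qf_skew ht.1 (B.v i : ι → ℂ) (B.v j : ι → ℂ)
  rw [(B.wt i).val t ht, (B.wt j).val t ht, qf_smul_left, qf_smul_right,
    eq_neg_iff_add_eq_zero, ← add_mul] at h1
  rw [Matrix.add_mul, Matrix.trace_add]
  exact (mul_eq_zero.1 h1).resolve_right hij

/-- The Gram matrix is invertible. -/
lemma exists_perm (B : Bz (hn H) x z ⊤ n) :
    ∃ σ : Equiv.Perm (Fin n), ∀ i, qf H (B.v (σ i) : ι → ℂ) (B.v i : ι → ℂ) ≠ 0 := by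
  classical
  let G : Matrix (Fin n) (Fin n) ℂ := Matrix.of fun i j =>
    qf H (B.v i : ι → ℂ) (B.v j : ι → ℂ)
  have hG : G.det ≠ 0 := by
    intro h0
    obtain ⟨a, ha0, ha⟩ := Matrix.exists_mulVec_eq_zero_iff.2 h0
    apply ha0
    obtain ⟨u, hu⟩ : ∃ u : (⊤ : Submodule ℂ (ι → ℂ)), u = ∑ j, a j • B.v j := ⟨_, rfl⟩
    have hq : ∀ w : ι → ℂ, qf H w (u : ι → ℂ) = ∑ j, a j * qf H w (B.v j : ι → ℂ) := by
      intro w
      have h1 : ∀ s : Finset (Fin n),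
          qf H w ((∑ j ∈ s, a j • B.v j : (⊤ : Submodule ℂ (ι → ℂ))) : ι → ℂ) =
          ∑ j ∈ s, a j * qf H w (B.v j : ι → ℂ) := by
        intro s
        induction s using Finset.induction_on with
        | empty => rw [Finset.sum_empty, Finset.sum_empty]; exact qf_zero_right _
        | insert b s hb ih =>
          rw [Finset.sum_insert hb, Finset.sum_insert hb, Submodule.coe_add, qf_add_right, ih,
            Submodule.coe_smul, qf_smul_right]
      rw [hu]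
      exact h1 _
    have hv : ∀ i, qf H (B.v i : ι → ℂ) (u : ι → ℂ) = 0 := by
      intro i
      rw [hq]
      have h1 := congrFun ha i
      rw [Matrix.mulVec, dotProduct] at h1
      rw [Pi.zero_apply] at h1
      rw [← h1]
      exact Finset.sum_congr rfl fun j _ => mul_comm _ _
    have hu0 : (u : ι → ℂ) = 0 := by
      refine qf_nondeg (H := H) fun w => ?_
      obtain ⟨w', hw'⟩ : ∃ w' : (⊤ : Submodule ℂ (ι → ℂ)), (w' : ι → ℂ) = w :=
        ⟨⟨w, trivial⟩, rfl⟩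
      rw [← hw']
      have hws : w' ∈ Submodule.span ℂ (Set.range B.v) := by rw [B.sp]; exact Submodule.mem_top
      clear hw'
      induction hws using Submodule.span_induction with
      | mem v hv' =>
        obtain ⟨j, rfl⟩ := hv'
        exact hv j
      | zero => exact qf_zero_left _
      | add a b _ _ ha hb => rw [Submodule.coe_add, qf_add_left, ha, hb, add_zero]
      | smul c a _ ha => rw [Submodule.coe_smul, qf_smul_left, ha, mul_zero]
    have hu1 : ∑ j, a j • B.v j = 0 := by rw [← hu]; exact Subtype.ext hu0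
    funext j
    exact Fintype.linearIndependent_iff.1 B.li a hu1 j
  rw [Matrix.det_apply'] at hG
  obtain ⟨σ, -, hσ⟩ := Finset.exists_ne_zero_of_sum_ne_zero hG
  refine ⟨σ, fun i => ?_⟩
  have h1 := Finset.prod_ne_zero_iff.1 (right_ne_zero_of_mul hσ) i (Finset.mem_univ i)
  exact h1

/-- The weights are symmetric. -/
lemma exists_permT (hx : IsReg (hn H) x) (B : Bz (hn H) x z ⊤ n) :
    ∃ σ : Equiv.Perm (Fin n), (∀ i, B.T (σ i) = -B.T i) ∧ ∀ i, B.c (σ i) = -B.c i := by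
  obtain ⟨σ, hσ⟩ := exists_perm B
  have h1 : ∀ i, B.T (σ i) = -B.T i := fun i => eq_neg_of_add_eq_zero_left (pair_wt2 hx B (hσ i))
  refine ⟨σ, h1, fun i => ?_⟩
  have h2 := B.c_eq hx (σ i)
  rw [h1, Matrix.neg_mul, Matrix.trace_neg, B.c_eq hx] at h2
  exact_mod_cast h2.symm

lemma card_Bz (B : Bz (hn H) x z ⊤ n) : n = Fintype.card ι := by
  have h3 := Module.finrank_eq_card_basis B.bas
  rw [Fintype.card_fin, finrank_top, Module.finrank_fintype_fun_eq_card] at h3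
  exact h3.symm

/-- The trivial part. -/
lemma Z0_le (hx : IsReg (hn H) x) (B : Bz (hn H) x z ⊤ n)
    (hz : ∀ v ∈ Z0 H, z *ᵥ v = v) (S : Finset (Fin n))
    (hS : ∀ i, B.c i = 0 → B.ζ i = 1 → i ∈ S) : Module.finrank ℂ (Z0 H) ≤ S.card := by
  let b := Module.finBasis ℂ (Z0 H)
  let u : Fin (Module.finrank ℂ (Z0 H)) → (⊤ : Submodule ℂ (ι → ℂ)) := fun j =>
    ⟨(b j : ι → ℂ), trivial⟩
  have hu : LinearIndependent ℂ u := by
    rw [Fintype.linearIndependent_iff]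
    intro a ha j
    refine Fintype.linearIndependent_iff.1 b.linearIndependent a ?_ j
    apply Subtype.ext
    have h1 := congrArg Subtype.val ha
    rw [Submodule.coe_sum] at h1 ⊢
    exact h1
  refine card_le_of_span hu S B.v fun j => ?_
  have h1 : x *ᵥ (u j : ι → ℂ) = ((0 : ℝ) : ℂ) • (u j : ι → ℂ) := by
    rw [Complex.ofReal_zero, zero_smul]
    exact (b j).2 x hx.mem
  have h2 : z *ᵥ (u j : ι → ℂ) = (1 : ℂ) • (u j : ι → ℂ) := by
    rw [one_smul]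
    exact hz _ (b j).2
  refine Submodule.span_mono ?_ (B.mem_span h1 h2)
  rintro _ ⟨i, ⟨hi1, hi2⟩, rfl⟩
  exact ⟨i, hS i hi1 hi2, rfl⟩

/-- The number of positive eigenvalues. -/
lemma pos_le (hx : IsReg (hn H) x) {k : ℕ} {u : Fin k → (⊤ : Submodule ℂ (ι → ℂ))}
    (hu : LinearIndependent ℂ u)
    (hpos : ∀ j, ∃ d : ℝ, 0 < d ∧ x *ᵥ (u j : ι → ℂ) = (d : ℂ) • (u j : ι → ℂ)) :
    2 * k + Module.finrank ℂ (Z0 H) ≤ Fintype.card ι := by
  classical
  obtain ⟨n, ⟨B⟩⟩ := exists_Bz (V := ⊤) (z := 1) (isLA_hn H) hx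
    (by rw [Matrix.mul_one, Matrix.one_mul])
    (by rw [Matrix.conjTranspose_one]) (fun _ _ => trivial) (fun _ _ => trivial)
    (fun _ _ => trivial)
  have hζ : ∀ i, B.ζ i = 1 := by
    intro i
    have h1 := B.ez i
    rw [Matrix.one_mulVec] at h1
    have h2 : ((1 : ℂ) - B.ζ i) • (B.v i : ι → ℂ) = 0 := by
      rw [sub_smul, one_smul, ← h1, sub_self]
    rcases smul_eq_zero.1 h2 with h3 | h3
    · exact (sub_eq_zero.1 h3).symm
    · exact absurd h3 (B.v_ne i)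
  let P : Finset (Fin n) := Finset.univ.filter fun i => 0 < B.c i
  let N : Finset (Fin n) := Finset.univ.filter fun i => B.c i < 0
  let Z : Finset (Fin n) := Finset.univ.filter fun i => B.c i = 0
  have hP : k ≤ P.card := by
    refine card_le_of_span hu P B.v fun j => ?_
    obtain ⟨d, hd, hdu⟩ := hpos j
    refine Submodule.span_mono ?_ (B.mem_span hdu (ξ := 1) (by
      rw [Matrix.one_mulVec, one_smul]))
    rintro _ ⟨i, ⟨hi1, -⟩, rfl⟩
    exact ⟨i, by simp [P, hi1, hd], rfl⟩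
  have hZ : Module.finrank ℂ (Z0 H) ≤ Z.card :=
    Z0_le hx B (fun v _ => Matrix.one_mulVec v) Z fun i hi _ => by simp [Z, hi]
  obtain ⟨σ, -, hσ⟩ := exists_permT hx B
  have hPN : P.card ≤ N.card := by
    refine Finset.card_le_card_of_injOn σ (fun i hi => ?_) (σ.injective.injOn)
    have h1 : 0 < B.c i := by simpa [P] using hi
    have h2 := hσ i
    simp only [N, Finset.coe_filter, Finset.mem_univ, true_and, Set.mem_ofPred_eq]
    linarith
  have hd1 : Disjoint P N := by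
    rw [Finset.disjoint_left]
    intro i hi hi2
    have h1 : 0 < B.c i := by simpa [P] using hi
    have h2 : B.c i < 0 := by simpa [N] using hi2
    linarith
  have hd2 : Disjoint (P ∪ N) Z := by
    rw [Finset.disjoint_left]
    intro i hi hi2
    have h2 : B.c i = 0 := by simpa [Z] using hi2
    rcases Finset.mem_union.1 hi with h1 | h1
    · have h3 : 0 < B.c i := by simpa [P] using h1
      linarith
    · have h3 : B.c i < 0 := by simpa [N] using h1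
      linarith
  have h1 : ((P ∪ N) ∪ Z).card ≤ n := by
    have := Finset.card_le_univ ((P ∪ N) ∪ Z)
    rwa [Fintype.card_fin] at this
  rw [Finset.card_union_of_disjoint hd2, Finset.card_union_of_disjoint hd1] at h1
  have h2 := card_Bz B
  omega

/-- An element which agrees with the regular element on the positive eigenvectors. -/
lemma eq_of_pos {y : Matrix ι ι ℂ} (hx : IsReg (hn H) x) (hy : y ∈ hn H) (hyH : yᴴ = y)
    (hxy : x * y = y * x) (hpos : ∀ v ∈ (⊤ : Submodule ℂ (ι → ℂ)), ∀ d : ℝ, 0 < d →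
      x *ᵥ v = (d : ℂ) • v → y *ᵥ v = x *ᵥ v) : y = x := by
  obtain ⟨n, ⟨B⟩⟩ := exists_Bz (V := ⊤) (z := y) (isLA_hn H) hx hxy
    (by rw [hyH]) (fun _ _ => trivial) (fun _ _ => trivial)
    (fun _ _ => trivial)
  have hyc : y ∈ ct (hn H) x := ⟨hy, hxy⟩
  obtain ⟨σ, hσT, hσc⟩ := exists_permT hx B
  have hζ : ∀ i, (B.T i * y).trace = B.ζ i := by
    intro i
    have h1 := (B.wt i).val y hyc
    rw [B.ez, ← sub_eq_zero, ← sub_smul] at h1
    rcases smul_eq_zero.1 h1 with h2 | h2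
    · exact (sub_eq_zero.1 h2).symm
    · exact absurd h2 (B.v_ne i)
  have hp : ∀ i, 0 < B.c i → B.ζ i = (B.c i : ℂ) := by
    intro i hi
    have h1 := hpos _ (B.v i).2 _ hi (B.ex i)
    rw [B.ez, B.ex, ← sub_eq_zero, ← sub_smul] at h1
    rcases smul_eq_zero.1 h1 with h2 | h2
    · exact sub_eq_zero.1 h2
    · exact absurd h2 (B.v_ne i)
  have hall : ∀ i, B.ζ i = (B.c i : ℂ) := by
    intro i
    have hs : B.ζ (σ i) = -B.ζ i := by
      rw [← hζ, hσT, Matrix.neg_mul, Matrix.trace_neg, hζ]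
    rcases lt_trichotomy (B.c i) 0 with hi | hi | hi
    · have h1 := hp (σ i) (by rw [hσc]; linarith)
      rw [hs, hσc] at h1
      push_cast at h1
      exact neg_injective h1
    · have h1 : B.T i = B.T (σ i) := by
        refine wt_eq (isLA_hn H) hx (B.v_ne i) (B.v_ne (σ i)) (B.wt i) (B.wt (σ i)) ?_
        rw [B.c_eq hx, B.c_eq hx, hσc, hi, neg_zero]
      rw [hσT, eq_neg_iff_add_eq_zero, ← two_smul ℂ, smul_eq_zero,
        or_iff_right two_ne_zero] at h1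
      rw [← hζ, h1, Matrix.zero_mul, Matrix.trace_zero, hi, Complex.ofReal_zero]
    · exact hp i hi
  apply Matrix.mulVec_injective
  funext v
  obtain ⟨w', hw'⟩ : ∃ w' : (⊤ : Submodule ℂ (ι → ℂ)), (w' : ι → ℂ) = v :=
    ⟨⟨v, trivial⟩, rfl⟩
  rw [← hw']
  have hws : w' ∈ Submodule.span ℂ (Set.range B.v) := by rw [B.sp]; exact Submodule.mem_top
  clear hw'
  induction hws using Submodule.span_induction with
  | mem v hv' =>
    obtain ⟨j, rfl⟩ := hv'
    rw [B.ez, B.ex, hall]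
  | zero => rw [Submodule.coe_zero, Matrix.mulVec_zero, Matrix.mulVec_zero]
  | add a b _ _ ha hb => rw [Submodule.coe_add, Matrix.mulVec_add, Matrix.mulVec_add, ha, hb]
  | smul c a _ ha => rw [Submodule.coe_smul, Matrix.mulVec_smul, Matrix.mulVec_smul, ha]

section

variable (H)

/-- **The decomposition theorem for Hodge structures.** -/
theorem exists_decH2 {K : ℕ} (hK : Fintype.card ι ≤ 2 * K + 1 + Module.finrank ℂ (Z0 H))
    {p : Matrix ι ι ℂ} (hp2 : Fixes H p (Unit ⊕ Unit))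
    (hp4 : Fixes H p ((Unit ⊕ Unit) ⊕ (Unit ⊕ Unit)))
    (hpk : ∀ k ≤ K, Fixes H p (Fin k ⊕ Fin k)) :
    ∃ q ∈ So H, ∃ q' ∈ So H, q * q' = 1 ∧ ∀ w ∈ ho H, (q' * p) * w = w * (q' * p) := by
  obtain ⟨p', hp', hpp⟩ := Fixes.inv hp2
  have hp2' : Fixes H p' (Unit ⊕ Unit) := Fixes.of_inv hp' hp2
  have hp4' : Fixes H p' ((Unit ⊕ Unit) ⊕ (Unit ⊕ Unit)) := Fixes.of_inv hp' hp4
  have hV : ∀ z ∈ hn H, ∀ v ∈ (⊤ : Submodule ℂ (ι → ℂ)), z *ᵥ v ∈
    (⊤ : Submodule ℂ (ι → ℂ)) := fun _ _ _ _ => trivial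
  obtain ⟨q, hq, q', hq', hqq, hc⟩ := exists_dec2 (isLA_hn H) (isGrp_Sn H) hV (K := K)
    (fun x hx k u hu hpos => by
      have := pos_le hx hu hpos
      omega)
    (fun x y hx hy hyH hxy hpos => eq_of_pos hx hy hyH hxy hpos)
    (p := cji H p) (p' := cji H p') (by rw [← cji_mul, hpp, cji_one])
    (fun z hz => by
      rw [mem_hn, cj_mul, cj_mul, cj_cji, cj_cji]
      exact ad_fix hp' hp2 hp4 hz)
    (fun z hz => by
      rw [mem_hn, cj_mul, cj_mul, cj_cji, cj_cji]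
      exact ad_fix hpp hp2' hp4' hz)
    (by
      intro k hk
      refine ⟨Fin k → ι, inferInstance, inferInstance, dkL (Fin k), wA ⊤ k, kpH (Fin k),
        fun a b => dk_br (κ := Fin k) a b, fun a => dk_conjTranspose (κ := Fin k) a,
        fun a => kp_conjT (κ := Fin k) a, ?_, ?_, ?_, ?_, ?_, ?_⟩
      · intro z hz v
        exact wA_dk z (hV z hz) v
      · intro v hv
        exact wA_ne v hv
      · intro g g' z hgg
        exact kp_dk (mul_eq_one_comm.1 hgg) z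
      · intro U hU d hd W hW
        exact sqrt_mem U hU d hd W hW
      · intro q hq
        exact pres_fix H (hq (Fin k ⊕ Fin k))
      · refine pres_fix H ?_
        rw [cj_cji]
        exact hpk k hk)
  refine ⟨cj H q, hq, cj H q', hq', by rw [← cj_mul, hqq, cj_one], fun w hw => ?_⟩
  have h1 := hc (cji H w) (by rw [mem_hn, cj_cji]; exact hw)
  have h2 := congrArg (cj H) h1
  rw [cj_mul, cj_mul, cj_mul, cj_mul, cj_cji, cj_cji] at h2
  exact h2

end

/-- One direction. -/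
lemma dir_one (B : Bz (hn H) x z ⊤ n) (hζ : ∀ i, B.ζ i ≠ 0) {N : ℕ}
    (hcomm : ∀ (κ l : Type) [Fintype κ] [DecidableEq κ] [Fintype l] [DecidableEq l],
      Fintype.card l + Fintype.card κ ≤ N → ∀ F : Matrix (l → ι) (κ → ι) ℂ,
      (∀ w ∈ hn H, dk l w * F = F * dk κ w) → kp l z * F = F * kp κ z) {M : ℕ}
    (F : Fin M → Finset (Fin n)) (hinj : ∀ r, ∀ a ∈ F r, ∀ b ∈ F r, B.Cl a b → a = b)
    {s : Multiset (Fin n)} (hF : ∑ r, (F r).val = s) (hs0 : B.tot s = 0)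
    {x₁ : Matrix ι ι ℂ} (hx₁ : IsReg (hn H) x₁) (hct : ∀ t, x₁ * t = t * x₁ → x * t = t * x)
    (c₁ : Fin n → ℝ) (hc₁ : ∀ i, (B.T i * x₁).trace = c₁ i)
    (R : Fin n → Fin n → Prop) (hRi : ∀ i, ¬ R i i) (hRt : ∀ i j k, R i j → R j k → R i k)
    (hroot : ∀ a : ℝ, 0 < a → ∀ e ∈ hn H, e ∈ EA x₁ a → ∀ j,
      (⟨e *ᵥ (B.v j : ι → ℂ), trivial⟩ : (⊤ : Submodule ℂ (ι → ℂ))) ∈
        Submodule.span ℂ (B.v '' {i | B.Cl i j ∧ R i j}))
    (S S' : Fin M → Finset (Fin n))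
    (hS : ∀ r i, i ∈ S r ↔ ∃ k ∈ F r, B.Cl i k ∧ (R i k ∨ i = k))
    (hS' : ∀ r i, i ∈ S' r ↔ ∃ k ∈ F r, B.Cl i k ∧ R i k)
    (hN : ∑ r, (S' r).card + ∑ r, (S r).card ≤ N) : B.zt s = 1 := by
  have hdisj : ∀ r, Disjoint (S' r) (F r) := by
    intro r
    rw [Finset.disjoint_left]
    intro i hi hi2
    obtain ⟨k, hk, hk2, hk3⟩ := (hS' r i).1 hi
    rw [hinj r i hi2 k hk hk2] at hk3
    exact hRi k hk3
  have hun : ∀ r, S r = (S' r).disjUnion (F r) (hdisj r) := by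
    intro r
    ext i
    rw [Finset.mem_disjUnion, hS, hS']
    constructor
    · rintro ⟨k, hk, hk2, hk3 | hk3⟩
      · exact Or.inl ⟨k, hk, hk2, hk3⟩
      · exact Or.inr (hk3 ▸ hk)
    · rintro (⟨k, hk, hk2, hk3⟩ | h1)
      · exact ⟨k, hk, hk2, Or.inl hk3⟩
      · exact ⟨i, h1, B.Cl_refl i, Or.inr rfl⟩
  have hSc : ∀ r, ∀ j ∈ S r, ∀ i, B.Cl i j ∧ R i j → i ∈ S r ∧ i ≠ j := by
    rintro r j hj i ⟨h1, h2⟩
    obtain ⟨k, hk, hk2, hk3⟩ := (hS r j).1 hj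
    refine ⟨(hS r i).2 ⟨k, hk, B.Cl_trans h1 hk2, Or.inl ?_⟩, ?_⟩
    · rcases hk3 with h3 | h3
      · exact hRt _ _ _ h2 h3
      · rw [← h3]; exact h2
    · rintro rfl
      exact hRi i h2
  have hSc' : ∀ r, ∀ j ∈ S' r, ∀ i, B.Cl i j ∧ R i j → i ∈ S' r ∧ i ≠ j := by
    rintro r j hj i ⟨h1, h2⟩
    obtain ⟨k, hk, hk2, hk3⟩ := (hS' r j).1 hj
    refine ⟨(hS' r i).2 ⟨k, hk, B.Cl_trans h1 hk2, hRt _ _ _ h2 hk3⟩, ?_⟩
    rintro rfl
    exact hRi i h2
  have hsumT : ∑ r, ∑ i ∈ F r, B.T i = 0 := by rw [← sum_val, hF]; exact hs0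
  have hsum : ∑ r, ∑ i ∈ S r, B.T i = ∑ r, ∑ i ∈ S' r, B.T i := by
    have h3 : ∀ r, ∑ i ∈ S r, B.T i = ∑ i ∈ S' r, B.T i + ∑ i ∈ F r, B.T i := by
      intro r
      rw [hun r, Finset.sum_disjUnion]
    rw [Finset.sum_congr rfl fun r _ => h3 r, Finset.sum_add_distrib, hsumT, add_zero]
  have hprod : ∏ r, ∏ i ∈ S r, B.ζ i = (∏ r, ∏ i ∈ S' r, B.ζ i) * B.zt s := by
    have h3 : ∀ r, ∏ i ∈ S r, B.ζ i = (∏ i ∈ S' r, B.ζ i) * ∏ i ∈ F r, B.ζ i := by
      intro r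
      rw [hun r, Finset.prod_disjUnion]
    rw [Finset.prod_congr rfl fun r _ => h3 r, Finset.prod_mul_distrib, Bz.zt, ← hF, prod_val]
  have h1 := sep_raw (isLA_hn H) hx₁ B.v B.li B.T B.ζ c₁
    (fun t ht htx i => (B.wt i).val t ⟨ht, hct t htx⟩) hc₁ B.ez
    (fun i j => B.Cl i j ∧ R i j) hroot S S' hSc hSc' hsum
    (hcomm _ _ (by
      rw [Fintype.card_sigma, Fintype.card_sigma]
      simp only [Fintype.card_fin]
      exact hN))
  rw [hprod] at h1
  have h2 : (∏ r, ∏ i ∈ S' r, B.ζ i) ≠ 0 :=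
    Finset.prod_ne_zero_iff.2 fun r _ => Finset.prod_ne_zero_iff.2 fun i _ => hζ i
  exact mul_left_cancel₀ h2 (h1.trans (mul_one _).symm)

/-- The trivial part is fixed. -/
lemma Z0_fix {z₀ : Matrix ι ι ℂ} (h1 : Fixes H z₀ Unit) {v : ι → ℂ} (hv : v ∈ Z0 H) :
    cji H z₀ *ᵥ v = v := by
  obtain ⟨u, hu⟩ : ∃ u, u = Mi H *ᵥ v := ⟨_, rfl⟩
  have hvu : v = Mm H *ᵥ u := by rw [hu, Matrix.mulVec_mulVec, Mm_Mi, Matrix.one_mulVec]
  have h2 : ∀ w ∈ ho H, w *ᵥ u = 0 := by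
    intro w hw
    have h3 := hv (cji H w) (by rw [mem_hn, cj_cji]; exact hw)
    rw [hvu, cji, ← Matrix.mulVec_mulVec, Matrix.mulVec_mulVec _ (Mi H), Mi_Mm,
      Matrix.one_mulVec, ← Matrix.mulVec_mulVec] at h3
    have h4 := congrArg (fun y => Mi H *ᵥ y) h3
    beta_reduce at h4
    rwa [Matrix.mulVec_mulVec, Mi_Mm, Matrix.one_mulVec, Matrix.mulVec_zero] at h4
  have h3 : z₀ *ᵥ u = u := by
    have h4 := fix_inv h1 (d := un u) fun g hg => by
      rw [kp_un, fix_of_Ng (fun σ => h2 _ (Ng_mem σ)) hg]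
    rw [kp_un] at h4
    exact un_inj h4
  rw [hvu, cji, ← Matrix.mulVec_mulVec, Matrix.mulVec_mulVec _ (Mi H), Mi_Mm,
    Matrix.one_mulVec, ← Matrix.mulVec_mulVec, h3]

/-- Isometries. -/
lemma qf_iso {z₀ : Matrix ι ι ℂ} (h2 : Fixes H z₀ (Unit ⊕ Unit)) (u v : ι → ℂ) :
    qf H (cji H z₀ *ᵥ u) (cji H z₀ *ᵥ v) = qf H u v := by
  have hQQ : cQ H.Qr * cQ H.Qir = 1 := by rw [← cQ_mul, H.Qr_Qir, cQ_one]
  have h3 := fix_Q H h2
  have h5 : z₀ * (cQ H.Qir * z₀ᵀ * cQ H.Qr) = 1 := by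
    calc z₀ * (cQ H.Qir * z₀ᵀ * cQ H.Qr) = (z₀ * cQ H.Qir * z₀ᵀ) * cQ H.Qr := by
          simp only [Matrix.mul_assoc]
      _ = 1 := by rw [h3]; exact mul_eq_one_comm.1 hQQ
  have h6 : z₀ᵀ * cQ H.Qr * z₀ = cQ H.Qr := by
    have h7 := mul_eq_one_comm.1 h5
    calc z₀ᵀ * cQ H.Qr * z₀ = (cQ H.Qr * cQ H.Qir) * z₀ᵀ * cQ H.Qr * z₀ := by
          rw [hQQ, Matrix.one_mul]
      _ = cQ H.Qr * (cQ H.Qir * z₀ᵀ * cQ H.Qr * z₀) := by simp only [Matrix.mul_assoc]
      _ = cQ H.Qr := by rw [h7, Matrix.mul_one]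
  rw [qf, qf, Mi_mulVec, Mi_mulVec, cj_cji]
  rw [← Matrix.vecMul_transpose z₀ (Mi H *ᵥ u), ← Matrix.dotProduct_mulVec,
    Matrix.mulVec_mulVec, Matrix.mulVec_mulVec, h6]

/-- The symmetry of the weights and the eigenvalues. -/
lemma exists_permZ {z₀ : Matrix ι ι ℂ} (h2 : Fixes H z₀ (Unit ⊕ Unit)) (hx : IsReg (hn H) x)
    (B : Bz (hn H) x (cji H z₀) ⊤ n) :
    ∃ σ : Equiv.Perm (Fin n), (∀ i, B.T (σ i) = -B.T i) ∧ ∀ i, B.ζ (σ i) * B.ζ i = 1 := by
  obtain ⟨σ, hσ⟩ := exists_perm B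
  refine ⟨σ, fun i => eq_neg_of_add_eq_zero_left (pair_wt2 hx B (hσ i)), fun i => ?_⟩
  have h1 := qf_iso h2 (B.v (σ i) : ι → ℂ) (B.v i : ι → ℂ)
  rw [B.ez, B.ez, qf_smul_left, qf_smul_right, ← mul_assoc] at h1
  have h3 : (B.ζ (σ i) * B.ζ i - 1) * qf H (B.v (σ i) : ι → ℂ) (B.v i : ι → ℂ) = 0 := by
    rw [sub_mul, one_mul, h1, sub_self]
  exact sub_eq_zero.1 ((mul_eq_zero.1 h3).resolve_right (hσ i))

/-- **The eigenvalues on the sums of weights.** -/
theorem no_bad4 {z₀ : Matrix ι ι ℂ} (hx : IsReg (hn H) x)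
    (hz : ∀ w ∈ hn H, cji H z₀ * w = w * cji H z₀) {N : ℕ} (h2 : 2 ≤ N)
    (hfix : ∀ (κ : Type) [Fintype κ] [DecidableEq κ], Fintype.card κ ≤ N → Fixes H z₀ κ)
    (B : Bz (hn H) x (cji H z₀) ⊤ n) (hζ : ∀ i, B.ζ i ≠ 0) {M t : ℕ} (hMt : max 2 M * t ≤ 2 * N)
    (ht : Fintype.card ι ≤ t + Module.finrank ℂ (Z0 H))
    (hM : ∀ s : Multiset (Fin n), B.tot s = 0 → B.zt s ≠ 1 →
      (∀ t ≤ s, B.tot t ∈ QL (hn H) x → t = 0 ∨ t = s) → ∀ (i : Fin n),
      2 • B.T i ∉ QL (hn H) x → ∀ (p : Fin n → Prop)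
      [DecidablePred p], (∀ j, p j → B.Cl j i) → (s.filter p).card ≤ M)
    {s : Multiset (Fin n)} (hs : B.tot s ∈ QL (hn H) x) : B.zt s = 1 := by
  classical
  by_contra hne
  obtain ⟨s, hs0, hs1, hirr⟩ := B.min_bad (isLA_hn H) hx hz (fun _ _ _ _ => trivial)
    ⟨s, hs, hne⟩
  have hcomm : ∀ (κ l : Type) [Fintype κ] [DecidableEq κ] [Fintype l] [DecidableEq l],
      Fintype.card l + Fintype.card κ ≤ N → ∀ F : Matrix (l → ι) (κ → ι) ℂ,
      (∀ w ∈ hn H, dk l w * F = F * dk κ w) →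
        kp l (cji H z₀) * F = F * kp κ (cji H z₀) := by
    intro κ l _ _ _ _ hc F hF
    exact itw_fixn (hfix _ (by simpa using h2)) (hfix _ (by rw [Fintype.card_sum]; exact hc)) hF
  obtain ⟨σ, hσT, hσζ⟩ := exists_permZ (hfix (Unit ⊕ Unit) (by simpa using h2)) hx B
  -- the trivial class
  let T₀ : Finset (Fin n) := Finset.univ.filter fun i => B.T i = 0 ∧ B.ζ i = 1
  have hmT₀ : ∀ i, i ∈ T₀ ↔ B.T i = 0 ∧ B.ζ i = 1 := fun i => by simp [T₀]
  have hT₀ : Module.finrank ℂ (Z0 H) ≤ T₀.card := by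
    by_cases hZ : Module.finrank ℂ (Z0 H) = 0
    · rw [hZ]; exact Nat.zero_le _
    refine Z0_le hx B (fun v hv => Z0_fix (hfix Unit (by simp; omega)) hv) T₀ fun i h3 h4 =>
      (hmT₀ i).2 ⟨?_, h4⟩
    have hbot : Z0 H ≠ ⊥ := by
      intro h5
      rw [h5, finrank_bot] at hZ
      exact hZ rfl
    obtain ⟨v, hv, hv0⟩ := Submodule.exists_mem_ne_zero_of_ne_bot hbot
    refine wt_eq (isLA_hn H) hx (B.v_ne i) hv0 (B.wt i) ⟨(ct _ x).zero_mem,
      Matrix.conjTranspose_zero, fun w hw => ?_⟩ ?_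
    · rw [hv w hw.1, Matrix.zero_mul, Matrix.trace_zero, zero_smul]
    · rw [B.c_eq hx, h3, Matrix.zero_mul, Matrix.trace_zero, Complex.ofReal_zero]
  have hn' : n ≤ t + Module.finrank ℂ (Z0 H) := (card_Bz B).le.trans ht
  have hnu0 : ∀ i ∈ T₀, s.filter (fun k => B.Cl i k) = 0 := by
    intro i hi
    obtain ⟨hi1, hi2⟩ := (hmT₀ i).1 hi
    rw [Multiset.filter_eq_nil]
    intro k hk hik
    have hTk : B.T k ∈ QL (hn H) x := by
      have h3 := hik.1
      rw [hi1, zero_sub] at h3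
      exact (QL (hn H) x).neg_mem_iff.1 h3
    rcases hirr {k} (Multiset.singleton_le.2 hk) (by
      rw [Bz.tot, Multiset.map_singleton, Multiset.sum_singleton]; exact hTk) with h5 | h5
    · exact Multiset.singleton_ne_zero k h5
    · apply hs1
      rw [← h5, Bz.zt, Multiset.map_singleton, Multiset.prod_singleton, ← hik.2, hi2]
  -- the number of tests
  have hcount : 2 * ∑ i, (s.filter fun k => B.Cl i k).card ≤ max 2 M * t := by
    have h3 : 2 * ∑ i, (s.filter fun k => B.Cl i k).card =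
        ∑ i, ((s.filter fun k => B.Cl i k).card + (s.filter fun k => B.Cl (σ i) k).card) := by
      rw [Finset.sum_add_distrib, Equiv.sum_comp σ fun i => (s.filter fun k => B.Cl i k).card,
        two_mul]
    have h4 : ∀ i, ((s.filter fun k => B.Cl i k).card + (s.filter fun k => B.Cl (σ i) k).card) ≤
        if i ∈ T₀ then 0 else max 2 M := by
      intro i
      by_cases hi : i ∈ T₀
      · have hσi : σ i ∈ T₀ := by
          obtain ⟨h5, h6⟩ := (hmT₀ i).1 hi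
          refine (hmT₀ _).2 ⟨by rw [hσT, h5, neg_zero], ?_⟩
          have h7 := hσζ i
          rwa [h6, mul_one] at h7
        rw [if_pos hi, hnu0 i hi, hnu0 _ hσi, Multiset.card_zero]
      · rw [if_neg hi]
        exact B.count_two (i := i) (j := σ i) (by rw [hσT, add_neg_cancel])
          (by rw [mul_comm]; exact hσζ i) hs1 hirr (hM s hs0 hs1 hirr) _ _
          (fun k hk => B.Cl_symm hk) (fun k hk => B.Cl_symm hk)
    have h5 : ∑ i, (if i ∈ T₀ then 0 else max 2 M) = (n - T₀.card) * max 2 M := by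
      rw [Finset.sum_ite, Finset.sum_const_zero, zero_add, Finset.sum_const, smul_eq_mul]
      congr 1
      rw [← Finset.compl_filter, Finset.card_compl, Fintype.card_fin]
      congr 2
      ext i
      simp
    calc 2 * ∑ i, (s.filter fun k => B.Cl i k).card ≤ (n - T₀.card) * max 2 M := by
          rw [h3, ← h5]
          exact Finset.sum_le_sum fun i _ => h4 i
      _ ≤ t * max 2 M := Nat.mul_le_mul_right _ (by omega)
      _ = max 2 M * t := mul_comm _ _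
  obtain ⟨m, hm⟩ : ∃ m : Fin n → ℕ, m = fun k => (Finset.univ.filter fun i => B.Cl i k).card :=
    ⟨_, rfl⟩
  have hmsum : (s.map m).sum ≤ N := by
    have h3 := sum_count (fun i k => B.Cl i k) s
    rw [← hm] at h3
    rw [← h3] at hcount
    omega
  -- the splitting into singletons
  obtain ⟨F, hF, hinj0⟩ := exists_split (fun _ : Fin n => ()) s.card s (fun _ =>
    Multiset.card_le_card (Multiset.filter_le _ s))
  have hinj : ∀ r, ∀ a ∈ F r, ∀ b ∈ F r, a = b := fun r a ha b hb => hinj0 r a ha b hb rfl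
  have hinj' : ∀ r, ∀ a ∈ F r, ∀ b ∈ F r, B.Cl a b → a = b := fun r a ha b hb _ =>
    hinj r a ha b hb
  have hmF : ∑ r, ∑ k ∈ F r, m k = (s.map m).sum :=
    (sum_val F m).symm.trans (congrArg (fun u : Multiset (Fin n) => (u.map m).sum) hF)
  -- the sets
  let S₁ : Fin s.card → Finset (Fin n) := fun r =>
    Finset.univ.filter fun i => ∃ k ∈ F r, B.Cl i k ∧ (i < k ∨ i = k)
  let S₁' : Fin s.card → Finset (Fin n) := fun r =>
    Finset.univ.filter fun i => ∃ k ∈ F r, B.Cl i k ∧ i < k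
  let S₂ : Fin s.card → Finset (Fin n) := fun r =>
    Finset.univ.filter fun i => ∃ k ∈ F r, B.Cl i k ∧ (k < i ∨ i = k)
  let S₂' : Fin s.card → Finset (Fin n) := fun r =>
    Finset.univ.filter fun i => ∃ k ∈ F r, B.Cl i k ∧ k < i
  have m₁ : ∀ r i, i ∈ S₁ r ↔ ∃ k ∈ F r, B.Cl i k ∧ (i < k ∨ i = k) := fun r i => by simp [S₁]
  have m₁' : ∀ r i, i ∈ S₁' r ↔ ∃ k ∈ F r, B.Cl i k ∧ i < k := fun r i => by simp [S₁']
  have m₂ : ∀ r i, i ∈ S₂ r ↔ ∃ k ∈ F r, B.Cl i k ∧ (k < i ∨ i = k) := fun r i => by simp [S₂]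
  have m₂' : ∀ r i, i ∈ S₂' r ↔ ∃ k ∈ F r, B.Cl i k ∧ k < i := fun r i => by simp [S₂']
  have hCt : ∀ r (C : Finset (Fin n)), (∀ i ∈ C, ∃ k ∈ F r, B.Cl i k) →
      C.card ≤ ∑ k ∈ F r, m k := by
    intro r C hC
    have h3 : C ⊆ (F r).biUnion fun k => Finset.univ.filter fun i => B.Cl i k := by
      intro i hi
      obtain ⟨k, hk, hik⟩ := hC i hi
      exact Finset.mem_biUnion.2 ⟨k, hk, by simp [hik]⟩
    refine (Finset.card_le_card h3).trans (Finset.card_biUnion_le.trans ?_)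
    rw [hm]
  -- the numbers
  have hnum : ∀ r, (S₁ r).card + (S₂' r).card ≤ ∑ k ∈ F r, m k := by
    intro r
    have hd : Disjoint (S₁ r) (S₂' r) := by
      rw [Finset.disjoint_left]
      intro i hi hi2
      obtain ⟨k, hk, hk2, hk3⟩ := (m₁ r i).1 hi
      obtain ⟨k', hk', hk2', hk3'⟩ := (m₂' r i).1 hi2
      rw [hinj r k' hk' k hk] at hk3'
      rcases hk3 with h3 | h3
      · exact lt_asymm h3 hk3'
      · exact hk3'.ne h3.symm
    rw [← Finset.card_union_of_disjoint hd]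
    refine hCt r _ fun i hi => ?_
    rcases Finset.mem_union.1 hi with h3 | h3
    · obtain ⟨k, hk, hk2, -⟩ := (m₁ r i).1 h3
      exact ⟨k, hk, hk2⟩
    · obtain ⟨k, hk, hk2, -⟩ := (m₂' r i).1 h3
      exact ⟨k, hk, hk2⟩
  have hnum' : ∀ r, (S₂ r).card + (S₁' r).card ≤ ∑ k ∈ F r, m k := by
    intro r
    have hd : Disjoint (S₂ r) (S₁' r) := by
      rw [Finset.disjoint_left]
      intro i hi hi2
      obtain ⟨k, hk, hk2, hk3⟩ := (m₂ r i).1 hi
      obtain ⟨k', hk', hk2', hk3'⟩ := (m₁' r i).1 hi2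
      rw [hinj r k' hk' k hk] at hk3'
      rcases hk3 with h3 | h3
      · exact lt_asymm h3 hk3'
      · exact hk3'.ne h3
    rw [← Finset.card_union_of_disjoint hd]
    refine hCt r _ fun i hi => ?_
    rcases Finset.mem_union.1 hi with h3 | h3
    · obtain ⟨k, hk, hk2, -⟩ := (m₂ r i).1 h3
      exact ⟨k, hk, hk2⟩
    · obtain ⟨k, hk, hk2, -⟩ := (m₁' r i).1 h3
      exact ⟨k, hk, hk2⟩
  have htot : (∑ r, (S₁' r).card + ∑ r, (S₁ r).card) +
      (∑ r, (S₂' r).card + ∑ r, (S₂ r).card) ≤ 2 * N := by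
    have h3 : ∑ r, ((S₁ r).card + (S₂' r).card) ≤ N := by
      refine (Finset.sum_le_sum fun r _ => hnum r).trans ?_
      rw [hmF]
      exact hmsum
    have h4 : ∑ r, ((S₂ r).card + (S₁' r).card) ≤ N := by
      refine (Finset.sum_le_sum fun r _ => hnum' r).trans ?_
      rw [hmF]
      exact hmsum
    rw [Finset.sum_add_distrib] at h3 h4
    omega
  by_cases hd : ∑ r, (S₁' r).card + ∑ r, (S₁ r).card ≤ N
  · refine hs1 (dir_one B hζ hcomm F hinj' hF hs0 hx (fun _ h => h) B.c (B.c_eq hx)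
      (fun i j => i < j) (fun i => lt_irrefl i) (fun _ _ _ h h' => lt_trans h h')
      (fun a ha e he hea j => ?_) S₁ S₁' m₁ m₁' hd)
    refine Submodule.span_mono ?_ (B.root_spanC (isLA_hn H) hx hz (fun _ _ _ _ => trivial)
      ha.ne' he hea j)
    rintro _ ⟨i, ⟨hi1, hi2⟩, rfl⟩
    refine ⟨i, ⟨hi2, ?_⟩, rfl⟩
    by_contra hcon
    push Not at hcon
    have := B.anti hcon
    linarith
  · refine hs1 (dir_one B hζ hcomm F hinj' hF hs0 hx.neg (fun t h => ?_) (fun i => -B.c i)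
      (fun i => ?_) (fun i j => j < i) (fun i => lt_irrefl i) (fun _ _ _ h h' => lt_trans h' h)
      (fun a ha e he hea j => ?_) S₂ S₂' m₂ m₂' (by omega))
    · rw [Matrix.neg_mul, Matrix.mul_neg, neg_inj] at h
      exact h
    · rw [Matrix.mul_neg, Matrix.trace_neg, B.c_eq hx, Complex.ofReal_neg]
    · refine Submodule.span_mono ?_ (B.root_spanC (isLA_hn H) hx hz (fun _ _ _ _ => trivial)
        (neg_ne_zero.2 ha.ne') he (EA_neg.1 hea) j)
      rintro _ ⟨i, ⟨hi1, hi2⟩, rfl⟩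
      refine ⟨i, ⟨hi2, ?_⟩, rfl⟩
      by_contra hcon
      push Not at hcon
      have := B.anti hcon
      linarith

end Pool.Agent.L0h10.RP
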