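import Pool.Agent.L0h10.RP.Cst
import Pool.Agent.N996.FP.Wsp

/-!
# Intertwining operators between highest weight vectors
-/

set_option linter.unusedSectionVars false

namespace Pool.Agent.L0h10.RP

open Matrix Pool.Agent.N996.BP Pool.Agent.N996.FP ComplexConjugate ComplexOrder

variable {ι : Type} [Fintype ι] [DecidableEq ι] {H : HData ι}

/-- Tensors killed by the generators of the Lie algebra are fixed by the group. -/
lemma fix_of_NgT {κ : Type} [Fintype κ] [DecidableEq κ] {d : (κ → ι) → ℂ}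
    (hd : ∀ σ : H.S, dk κ (Ng H σ) *ᵥ d = 0) {g : Matrix ι ι ℂ}
    (hg : g ∈ GG H) : kp κ g *ᵥ d = d := by
  induction hg using Submonoid.closure_induction with
  | mem y hy =>
    obtain ⟨σ, t, ht, rfl⟩ := hy
    have hI := isIdem_map (H := H) σ
    have ht' := ht
    have h1 : Fd κ (wr H) (fun k => H.π σ k) (fun m => (m : ℂ)) *ᵥ d = 0 := by
      rw [Fd_dk hI]
      exact hd σ
    have h2 : (fun m : ℤ => t ^ m) =
        fun m : ℤ => (fun _ : ℤ => (1 : ℂ)) m +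
          (fun m : ℤ => (fun m : ℤ => ((t ^ m - 1) / m)) m * (fun m : ℤ => (m : ℂ)) m) m := by
      funext m
      simp only
      by_cases hm : m = 0
      · rw [hm]; simp
      · have hm' : (m : ℂ) ≠ 0 := by exact_mod_cast hm
        rw [div_mul_cancel₀ _ hm']
        ring
    rw [gen_eq, ← Fd_kp ht', h2, Fd_add, Matrix.add_mulVec, Fd_one hI, Matrix.one_mulVec,
      ← Fd_mul hI, ← Matrix.mulVec_mulVec, h1, Matrix.mulVec_zero, add_zero]
  | one => rw [kp_one, Matrix.one_mulVec]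
  | mul x y _ _ hx hy => rw [kp_mul, ← Matrix.mulVec_mulVec, hy, hx]

/-- The invariant tensors. -/
lemma BB_of {κ : Type} [Fintype κ] [DecidableEq κ] {d : (κ → ι) → ℂ}
    (hd : ∀ g ∈ GG H, kp κ g *ᵥ d = d) : d ∈ BB H κ := fun σ _ ht =>
  hd _ (Submonoid.subset_closure (l_mem_gens H σ ht))

/-- Tensors fixed by the group are killed by the Lie algebra. -/
lemma ho_of_fixT {κ : Type} [Fintype κ] [DecidableEq κ] {d : (κ → ι) → ℂ}
    (hd : ∀ g ∈ GG H, kp κ g *ᵥ d = d) {w : Matrix ι ι ℂ} (hw : w ∈ ho H) :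
    dk κ w *ᵥ d = 0 := hw κ d (BB_of hd)

variable {κ : Type} [Fintype κ] [DecidableEq κ] {l : Type} [Fintype l] [DecidableEq l]

/-- Matrices which fix the invariant arrays fix all invariant tensors. -/
lemma fix_inv {p : Matrix ι ι ℂ} (hp : Fixes H p κ) {d : (κ → ι) → ℂ}
    (hd : ∀ g ∈ GG H, kp κ g *ᵥ d = d) : kp κ p *ᵥ d = d := hp d (BB_of hd)

/-- Matrices which fix the Hodge classes commute with the intertwining operators. -/
lemma itw_fix {p : Matrix ι ι ℂ} (h2 : Fixes H p (Unit ⊕ Unit)) (hp : Fixes H p (l ⊕ κ))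
    {F : Matrix (l → ι) (κ → ι) ℂ} (hF : ∀ w ∈ ho H, dk l w * F = F * dk κ w) :
    kp l p * F = F * kp κ p := by
  have h1 : kp (l ⊕ κ) p *ᵥ arr (F * kp κ (cQ H.Qir)) = arr (F * kp κ (cQ H.Qir)) := by
    refine fix_inv hp fun g hg => fix_of_NgT (fun σ => ?_) hg
    have h3 := Ng_mem (H := H) σ
    rw [← arr_mat (dk (l ⊕ κ) (Ng H σ) *ᵥ arr (F * kp κ (cQ H.Qir))), mat_dk, mat_arr]
    have h4 : kp κ (cQ H.Qir) * (dk κ (Ng H σ))ᵀ = -(dk κ (Ng H σ) * kp κ (cQ H.Qir)) := by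
      rw [eq_neg_iff_add_eq_zero, add_comm]; exact dk_inv h3
    rw [← Matrix.mul_assoc, hF _ h3, Matrix.mul_assoc F, Matrix.mul_assoc F, h4, Matrix.mul_neg,
      add_neg_cancel]
    rfl
  rw [kp_arr] at h1
  have h3 := congrArg mat h1
  rw [mat_arr, mat_arr] at h3
  have h5 : kp κ p * kp κ (cQ H.Qir) * (kp κ p)ᵀ = kp κ (cQ H.Qir) := by
    rw [← kp_transpose, ← kp_mul, ← kp_mul, fix_Q H h2]
  obtain ⟨R, hR⟩ : ∃ R, R = kp κ (cQ H.Qir) * (kp κ p)ᵀ * kp κ (cQ H.Qr) := ⟨_, rfl⟩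
  have h6 : kp κ p * R = 1 := by
    rw [hR]
    calc kp κ p * (kp κ (cQ H.Qir) * (kp κ p)ᵀ * kp κ (cQ H.Qr)) =
        (kp κ p * kp κ (cQ H.Qir) * (kp κ p)ᵀ) * kp κ (cQ H.Qr) := by simp only [Matrix.mul_assoc]
      _ = 1 := by rw [h5, QiQ]
  have h7 : kp l p * F * R = F := by
    rw [hR]
    calc kp l p * F * (kp κ (cQ H.Qir) * (kp κ p)ᵀ * kp κ (cQ H.Qr)) =
        (kp l p * (F * kp κ (cQ H.Qir)) * (kp κ p)ᵀ) * kp κ (cQ H.Qr) := by
          simp only [Matrix.mul_assoc]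
      _ = F * (kp κ (cQ H.Qir) * kp κ (cQ H.Qr)) := by rw [h3, Matrix.mul_assoc]
      _ = _ := by rw [QiQ, Matrix.mul_one]
  calc kp l p * F = kp l p * F * (R * kp κ p) := by
        rw [mul_eq_one_comm.1 h6, Matrix.mul_one]
    _ = (kp l p * F * R) * kp κ p := by simp only [Matrix.mul_assoc]
    _ = _ := by rw [h7]

/-- The same in orthonormal coordinates. -/
lemma itw_fixn {p : Matrix ι ι ℂ} (h2 : Fixes H p (Unit ⊕ Unit)) (hp : Fixes H p (l ⊕ κ))
    {F : Matrix (l → ι) (κ → ι) ℂ} (hF : ∀ w ∈ hn H, dk l w * F = F * dk κ w) :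
    kp l (cji H p) * F = F * kp κ (cji H p) := by
  have hMi : ∀ (κ : Type) [Fintype κ] [DecidableEq κ] (g : Matrix ι ι ℂ),
      kp κ g * kp κ (Mi H) = kp κ (Mi H) * kp κ (cji H g) := by
    intro κ _ _ g
    rw [← kp_mul, ← kp_mul]
    congr 1
    rw [cji]
    calc g * Mi H = (Mi H * Mm H) * g * Mi H := by rw [Mi_Mm, Matrix.one_mul]
      _ = _ := by simp only [Matrix.mul_assoc]
  have hdMi : ∀ (κ : Type) [Fintype κ] [DecidableEq κ] (g : Matrix ι ι ℂ),
      dk κ g * kp κ (Mi H) = kp κ (Mi H) * dk κ (cji H g) := by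
    intro κ _ _ g
    have h5 : dk κ (cji H g) * kp κ (Mm H) = kp κ (Mm H) * dk κ g := by
      rw [dk_cj_Mm, cj_cji]
    calc dk κ g * kp κ (Mi H) = (kp κ (Mi H) * kp κ (Mm H)) * dk κ g * kp κ (Mi H) := by
            rw [← kp_mul, Mi_Mm, kp_one, Matrix.one_mul]
      _ = kp κ (Mi H) * (kp κ (Mm H) * dk κ g) * kp κ (Mi H) := by simp only [Matrix.mul_assoc]
      _ = kp κ (Mi H) * dk κ (cji H g) * (kp κ (Mm H) * kp κ (Mi H)) := by
          rw [← h5]; simp only [Matrix.mul_assoc]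
      _ = _ := by rw [← kp_mul, Mm_Mi, kp_one, Matrix.mul_one]
  have hMm : ∀ (κ : Type) [Fintype κ] [DecidableEq κ] (g : Matrix ι ι ℂ),
      kp κ (Mm H) * kp κ g = kp κ (cji H g) * kp κ (Mm H) := by
    intro κ _ _ g
    have := kp_cj_Mm (κ := κ) H (cji H g)
    rw [cj_cji] at this
    exact this.symm
  have h1 := itw_fix h2 hp (F := kp l (Mi H) * F * kp κ (Mm H)) fun w hw => by
    have hw' : cji H w ∈ hn H := by rw [mem_hn, cj_cji]; exact hw
    have e1 : dk κ (cji H w) * kp κ (Mm H) = kp κ (Mm H) * dk κ w := by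
      rw [dk_cj_Mm, cj_cji]
    calc dk l w * (kp l (Mi H) * F * kp κ (Mm H)) =
        (dk l w * kp l (Mi H)) * F * kp κ (Mm H) := by simp only [Matrix.mul_assoc]
      _ = kp l (Mi H) * (dk l (cji H w) * F) * kp κ (Mm H) := by
          rw [hdMi]; simp only [Matrix.mul_assoc]
      _ = kp l (Mi H) * F * (dk κ (cji H w) * kp κ (Mm H)) := by
          rw [hF _ hw']; simp only [Matrix.mul_assoc]
      _ = _ := by rw [e1]; simp only [Matrix.mul_assoc]
  have e2 : kp l p * (kp l (Mi H) * F * kp κ (Mm H)) =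
      kp l (Mi H) * (kp l (cji H p) * F) * kp κ (Mm H) := by
    calc kp l p * (kp l (Mi H) * F * kp κ (Mm H)) =
        (kp l p * kp l (Mi H)) * F * kp κ (Mm H) := by simp only [Matrix.mul_assoc]
      _ = _ := by rw [hMi]; simp only [Matrix.mul_assoc]
  have e3 : kp l (Mi H) * F * kp κ (Mm H) * kp κ p =
      kp l (Mi H) * (F * kp κ (cji H p)) * kp κ (Mm H) := by
    calc kp l (Mi H) * F * kp κ (Mm H) * kp κ p =
        kp l (Mi H) * F * (kp κ (Mm H) * kp κ p) := by simp only [Matrix.mul_assoc]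
      _ = _ := by rw [hMm]; simp only [Matrix.mul_assoc]
  rw [e2, e3] at h1
  have h3 := congrArg (fun X => kp l (Mm H) * X * kp κ (Mi H)) h1
  beta_reduce at h3
  have e4 : ∀ X : Matrix (l → ι) (κ → ι) ℂ,
      kp l (Mm H) * (kp l (Mi H) * X * kp κ (Mm H)) * kp κ (Mi H) = X := by
    intro X
    calc kp l (Mm H) * (kp l (Mi H) * X * kp κ (Mm H)) * kp κ (Mi H) =
        (kp l (Mm H) * kp l (Mi H)) * X * (kp κ (Mm H) * kp κ (Mi H)) := by
          simp only [Matrix.mul_assoc]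
      _ = X := by
        rw [← kp_mul, ← kp_mul, Mm_Mi, kp_one, kp_one, Matrix.one_mul, Matrix.mul_one]
  rwa [e4, e4] at h3

end Pool.Agent.L0h10.RP
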